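import Pool.Agent.Lib.MP_c50dba_nt.BX.StmtsV

/-!
# V3: arrays with zero line sums, rank and number of nonzero entries
-/

set_option autoImplicit false

namespace Pool.Agent.Lib.MP_c50dba_nt.BX

open Module

theorem finrank_sup_le36 {M Z ι : Type} [Field M] [AddCommGroup Z] [Module M Z] [DecidableEq ι]
    (S : ι → Submodule M Z) [∀ i, FiniteDimensional M (S i)] (s : Finset ι) :
    finrank M (s.sup S : Submodule M Z) ≤ ∑ i ∈ s, finrank M (S i) := by
  induction s using Finset.induction_on with
  | empty => simp
  | insert a s ha ih =>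
    rw [Finset.sup_insert, Finset.sum_insert ha]
    have h1 : FiniteDimensional M (s.sup S : Submodule M Z) :=
      Submodule.finiteDimensional_finset_sup s S
    exact (Submodule.finrank_add_le_finrank_add_finrank _ _).trans (Nat.add_le_add_left ih _)

theorem ar_36 : StAr := by
  classical
  intro M Z _ _ _ r
  induction r with
  | zero =>
    intro q z _
    rw [pow_zero, one_mul]
    set t0 : Ix q := fun s => s.elim0 with ht0
    have hall : ∀ t : Ix q, t = t0 := fun t => funext fun s => s.elim0
    have hr : Set.range z = {z t0} := by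
      ext u
      constructor
      · rintro ⟨t, rfl⟩
        rw [hall t]; rfl
      · rintro rfl
        exact ⟨t0, rfl⟩
    rw [hr]
    by_cases h : z t0 = 0
    · rw [h, Submodule.span_zero_singleton, finrank_bot]
      exact Nat.zero_le _
    · rw [finrank_span_singleton h]
      have h1 : 1 ≤ (Finset.univ.filter (fun t => z t ≠ 0)).card := by
        rw [Nat.one_le_iff_ne_zero, Finset.card_ne_zero]
        exact ⟨t0, Finset.mem_filter.2 ⟨Finset.mem_univ _, h⟩⟩
      nlinarith
  | succ r ih =>
    intro q z hz
    set q' : Fin r → ℕ := fun s => q s.succ with hq'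
    set y : Fin (q 0) → Ix q' → Z := fun b t => z (Fin.cons b t) with hy
    have hy1 : ∀ b, ZL q' (y b) := by
      intro b s t
      have h1 := hz s.succ (Fin.cons b t)
      rw [← h1]
      apply Finset.sum_congr rfl
      intro c _
      rw [hy]
      simp only
      rw [Fin.cons_update]
    have hy2 : ∀ (b0 : Fin (q 0)) (t : Ix q'), ∑ b, y b t = 0 := by
      intro b0 t
      have h1 := hz 0 (Fin.cons b0 t)
      rw [← h1]
      apply Finset.sum_congr rfl
      intro c _
      rw [hy]
      simp only
      rw [Fin.update_cons_zero]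
    have hcons : ∀ t : Ix q, z t = y (t 0) (fun s => t s.succ) := by
      intro t
      rw [hy]
      simp only
      congr 1
      exact (Fin.cons_self_tail t).symm
    -- the number of nonzero entries
    have hcard : (Finset.univ.filter (fun t => z t ≠ 0)).card =
        ∑ b, (Finset.univ.filter (fun t => y b t ≠ 0)).card := by
      simp only [Finset.card_filter]
      rw [← Fintype.sum_prod_type' (f := fun (b : Fin (q 0)) (t : Ix q') =>
        if y b t ≠ 0 then 1 else 0)]
      exact (Fintype.sum_equiv (Fin.consEquiv fun i => Fin (q i)) _ _ (fun x => rfl)).symm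
    set K : Fin (q 0) → ℕ := fun b => (Finset.univ.filter (fun t => y b t ≠ 0)).card with hK
    have hih : ∀ b, 4 ^ r * finrank M (Submodule.span M (Set.range (y b))) ≤ K b ^ 2 :=
      fun b => ih q' (y b) (hy1 b)
    rcases Nat.eq_zero_or_pos (q 0) with h0 | h0
    · have hem : IsEmpty (Ix q) := ⟨fun t => by
        have := (t 0).2
        omega⟩
      rw [Set.range_eq_empty, Submodule.span_empty, finrank_bot, Nat.mul_zero]
      exact Nat.zero_le _
    obtain ⟨b0, -, hb0⟩ := Finset.exists_max_image (Finset.univ : Finset (Fin (q 0))) K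
      ⟨⟨0, h0⟩, Finset.mem_univ _⟩
    set S : Fin (q 0) → Submodule M Z := fun b => Submodule.span M (Set.range (y b)) with hS
    have hfin : ∀ b, FiniteDimensional M (S b) := fun b =>
      FiniteDimensional.span_of_finite M (Set.finite_range _)
    have hle : Submodule.span M (Set.range z) ≤ (Finset.univ.erase b0).sup S := by
      rw [Submodule.span_le]
      rintro _ ⟨t, rfl⟩
      have hmem : ∀ b ≠ b0, ∀ t', y b t' ∈ (Finset.univ.erase b0).sup S := by
        intro b hb t'
        have h1 : S b ≤ (Finset.univ.erase b0).sup S :=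
          Finset.le_sup (Finset.mem_erase.2 ⟨hb, Finset.mem_univ _⟩)
        exact h1 (Submodule.subset_span ⟨t', rfl⟩)
      rw [hcons t]
      by_cases hb : t 0 = b0
      · rw [hb]
        have h1 := hy2 b0 (fun s => t s.succ)
        rw [← Finset.add_sum_erase _ _ (Finset.mem_univ b0)] at h1
        rw [eq_neg_of_add_eq_zero_left h1]
        apply Submodule.neg_mem
        apply Submodule.sum_mem
        intro b hb
        exact hmem b (Finset.ne_of_mem_erase hb) _
      · exact hmem _ hb _
    have hfs : FiniteDimensional M ((Finset.univ.erase b0).sup S : Submodule M Z) :=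
      Submodule.finiteDimensional_finset_sup _ S
    have h1 : finrank M (Submodule.span M (Set.range z)) ≤
        ∑ b ∈ Finset.univ.erase b0, finrank M (S b) :=
      (Submodule.finrank_mono hle).trans (finrank_sup_le36 S _)
    have h2 : 4 ^ r * finrank M (Submodule.span M (Set.range z)) ≤
        ∑ b ∈ Finset.univ.erase b0, K b0 * K b := by
      calc 4 ^ r * finrank M (Submodule.span M (Set.range z))
          ≤ 4 ^ r * ∑ b ∈ Finset.univ.erase b0, finrank M (S b) := Nat.mul_le_mul_left _ h1
        _ = ∑ b ∈ Finset.univ.erase b0, 4 ^ r * finrank M (S b) := by rw [Finset.mul_sum]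
        _ ≤ ∑ b ∈ Finset.univ.erase b0, K b0 * K b := by
          apply Finset.sum_le_sum
          intro b _
          refine (hih b).trans ?_
          rw [sq]
          exact Nat.mul_le_mul_right _ (hb0 b (Finset.mem_univ b))
    rw [← Finset.mul_sum] at h2
    rw [hcard, ← Finset.add_sum_erase _ _ (Finset.mem_univ b0)]
    change 4 ^ (r + 1) * _ ≤ (K b0 + ∑ b ∈ Finset.univ.erase b0, K b) ^ 2
    set A := ∑ b ∈ Finset.univ.erase b0, K b
    have h3 : 4 * (K b0 * A) ≤ (K b0 + A) ^ 2 := by
      zify
      nlinarith [sq_nonneg ((K b0 : ℤ) - A)]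
    rw [pow_succ]
    nlinarith

end Pool.Agent.Lib.MP_c50dba_nt.BX
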