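import Pool.Agent.Lib.MP_c50dba_nt.BX.Stmts

set_option autoImplicit false

/-!
BOXES, module B1: sums and products of elements of bounded complexity.
-/

namespace Pool.Agent.Lib.MP_c50dba_nt.BX

open Module Polynomial

namespace Cl42

variable {k Ω : Type} [Field k] [Field Ω] [Algebra k Ω]

/-- all coefficients of `P` are in `V` -/
def CI (V : Submodule k Ω) (P : Polynomial Ω) : Prop := ∀ j, P.coeff j ∈ V

lemma CI.zero (V : Submodule k Ω) : CI V 0 := fun j => by simp

lemma CI.add {V : Submodule k Ω} {P Q : Polynomial Ω} (hP : CI V P) (hQ : CI V Q) :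
    CI V (P + Q) := fun j => by
  rw [coeff_add]; exact V.add_mem (hP j) (hQ j)

lemma CI.neg {V : Submodule k Ω} {P : Polynomial Ω} (hP : CI V P) : CI V (-P) := fun j => by
  rw [coeff_neg]; exact V.neg_mem (hP j)

lemma CI.sum {V : Submodule k Ω} {κ : Type*} (s : Finset κ) {P : κ → Polynomial Ω}
    (hP : ∀ i ∈ s, CI V (P i)) : CI V (∑ i ∈ s, P i) := fun j => by
  rw [finset_sum_coeff]
  exact V.sum_mem fun i hi => hP i hi j

lemma CI.mul {V W : Submodule k Ω} {P Q : Polynomial Ω} (hP : CI V P) (hQ : CI W Q) :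
    CI (V * W) (P * Q) := fun j => by
  rw [coeff_mul]
  exact Submodule.sum_mem _ fun i _ => Submodule.mul_mem_mul (hP _) (hQ _)

lemma CI.one : CI (1 : Submodule k Ω) (1 : Polynomial Ω) := fun j => by
  rw [coeff_one]
  split_ifs
  · exact Submodule.one_le.1 le_rfl
  · exact Submodule.zero_mem _

lemma CI.prod {V : Submodule k Ω} {κ : Type*} (s : Finset κ) {P : κ → Polynomial Ω}
    (hP : ∀ i ∈ s, CI V (P i)) : CI (V ^ s.card) (∏ i ∈ s, P i) := by
  classical
  induction s using Finset.induction_on with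
  | empty => simpa using CI.one
  | insert a s ha ih =>
    rw [Finset.prod_insert ha, Finset.card_insert_of_notMem ha, pow_succ']
    exact (hP a (Finset.mem_insert_self a s)).mul
      (ih fun i hi => hP i (Finset.mem_insert_of_mem hi))

lemma CI.det {V : Submodule k Ω} {κ : Type} [Fintype κ] [DecidableEq κ]
    (A : Matrix κ κ (Polynomial Ω)) (hA : ∀ i j, CI V (A i j)) :
    CI (V ^ Fintype.card κ) A.det := by
  rw [Matrix.det_apply]
  refine CI.sum _ fun σ _ => ?_
  have h1 : CI (V ^ Fintype.card κ) (∏ i, A (σ i) i) := CI.prod Finset.univ fun i _ => hA _ _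
  rcases Int.units_eq_one_or (Equiv.Perm.sign σ) with h | h
  · rw [h, one_smul]; exact h1
  · rw [h, Units.neg_smul, one_smul]; exact h1.neg

/-- a matrix relation gives a bound of the complexity -/
lemma cx_of_matrix {V : Submodule k Ω} {κ : Type} [Fintype κ] [DecidableEq κ]
    (N : Matrix κ κ Ω) (hN : ∀ i j, N i j ∈ V) {c : Ω} (hc : c ∈ V) (hc0 : c ≠ 0)
    (ζ : κ → Ω) (hζ : ζ ≠ 0) {x : Ω} (h : N.mulVec ζ = (c * x) • ζ) :
    Cx (V ^ Fintype.card κ) (Fintype.card κ) x := by
  set A : Matrix κ κ Ω := c • (1 : Matrix κ κ Ω) with hA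
  set P : Polynomial Ω := Matrix.det ((X : Polynomial Ω) • A.map C + (-N).map C) with hP
  refine ⟨P, ?_, ?_, ?_, ?_⟩
  · intro h0
    have h1 := coeff_det_X_add_C_card A (-N)
    rw [← hP, h0, coeff_zero, hA, Matrix.det_smul, Matrix.det_one, mul_one] at h1
    exact pow_ne_zero _ hc0 h1.symm
  · exact natDegree_det_X_add_C_le A (-N)
  · refine CI.det _ fun i j => ?_
    intro m
    rw [Matrix.add_apply, Matrix.smul_apply, Matrix.map_apply, Matrix.map_apply, coeff_add,
      smul_eq_mul]
    refine V.add_mem ?_ ?_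
    · rw [hA]
      cases m with
      | zero => simp
      | succ m =>
        rw [coeff_X_mul, coeff_C]
        split_ifs
        · rw [Matrix.smul_apply, Matrix.one_apply]
          split_ifs
          · simpa using hc
          · simp
        · exact V.zero_mem
    · rw [coeff_C]
      split_ifs
      · rw [Matrix.neg_apply]; exact V.neg_mem (hN i j)
      · exact V.zero_mem
  · rw [hP, ← coe_evalRingHom, RingHom.map_det]
    refine Matrix.exists_mulVec_eq_zero_iff.1 ⟨ζ, hζ, ?_⟩
    have h2 : (evalRingHom x).mapMatrix ((X : Polynomial Ω) • A.map C + (-N).map C) =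
        x • A - N := by
      ext i j
      simp only [RingHom.mapMatrix_apply, Matrix.map_apply, Matrix.add_apply, Matrix.smul_apply,
        smul_eq_mul, coe_evalRingHom, eval_add, eval_mul, eval_X, eval_C, Matrix.neg_apply,
        Matrix.sub_apply]
      ring
    rw [h2, Matrix.sub_mulVec, h, hA, Matrix.smul_mulVec, Matrix.smul_mulVec, Matrix.one_mulVec,
      smul_smul, mul_comm, sub_self]

/-- the companion matrix -/
lemma companion {U : Submodule k Ω} {d : ℕ} {z : Ω} (h : Cx U d z) :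
    ∃ (m : ℕ) (A : Matrix (Fin (m + 1)) (Fin (m + 1)) Ω) (p : Ω), m + 1 ≤ d ∧ p ≠ 0 ∧ p ∈ U ∧
      (∀ i j, A i j ∈ U) ∧ ∀ i, ∑ j, A i j * z ^ (j : ℕ) = (p * z) * z ^ (i : ℕ) := by
  obtain ⟨P, hP0, hPd, hPU, hPz⟩ := h
  have hdeg : 0 < P.natDegree := by
    by_contra h0
    have h0 : P.natDegree = 0 := by omega
    rw [eq_C_of_natDegree_eq_zero h0, eval_C] at hPz
    apply hP0
    rw [eq_C_of_natDegree_eq_zero h0, hPz, C_0]
  obtain ⟨m, hm⟩ : ∃ m, P.natDegree = m + 1 := ⟨P.natDegree - 1, by omega⟩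
  refine ⟨m, fun i j => if (i : ℕ) < m then (if (j : ℕ) = i + 1 then P.leadingCoeff else 0)
    else -P.coeff j, P.leadingCoeff, by omega, leadingCoeff_ne_zero.2 hP0, hPU _, ?_, ?_⟩
  · intro i j
    dsimp only
    split_ifs
    · exact hPU _
    · exact U.zero_mem
    · exact U.neg_mem (hPU _)
  · intro i
    by_cases hi : (i : ℕ) < m
    · simp only [if_pos hi]
      rw [Finset.sum_eq_single (⟨i + 1, by omega⟩ : Fin (m + 1))]
      · simp only [if_true]
        ring
      · intro j _ hj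
        rw [if_neg, zero_mul]
        intro h
        exact hj (Fin.ext h)
      · intro h
        exact absurd (Finset.mem_univ _) h
    · simp only [if_neg hi]
      have hi' : (i : ℕ) = m := by have := i.2; omega
      have h1 := hPz
      rw [eval_eq_sum_range, hm, Finset.sum_range_succ] at h1
      have h2 : P.coeff (m + 1) = P.leadingCoeff := by rw [← hm]; rfl
      rw [h2] at h1
      have h3 : ∑ j : Fin (m + 1), -P.coeff j * z ^ (j : ℕ) =
          -∑ j ∈ Finset.range (m + 1), P.coeff j * z ^ j := by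
        rw [← Finset.sum_neg_distrib, Finset.sum_range]
        exact Finset.sum_congr rfl fun j _ => by ring
      rw [h3, hi']
      linear_combination (-1 : Ω) * h1

lemma CI.C_mul {V W : Submodule k Ω} {P : Polynomial Ω} (hP : CI V P) {c : Ω} (hc : c ∈ W) :
    CI (W * V) (C c * P) := fun j => by
  rw [coeff_C_mul]
  exact Submodule.mul_mem_mul hc (hP j)

/-- enlarge the degree -/
lemma cx_mono {V : Submodule k Ω} {m n : ℕ} (hmn : m ≤ n) {c : Ω} (hc : c ∈ V) (hc0 : c ≠ 0)
    {x : Ω} (h : Cx (V ^ m) m x) : Cx (V ^ n) n x := by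
  obtain ⟨P, hP0, hPd, hPU, hPz⟩ := h
  refine ⟨C (c ^ (n - m)) * P, mul_ne_zero (C_ne_zero.2 (pow_ne_zero _ hc0)) hP0, ?_, ?_, ?_⟩
  · refine (natDegree_C_mul_le _ _).trans (hPd.trans hmn)
  · have h1 : CI (V ^ (n - m) * V ^ m) (C (c ^ (n - m)) * P) :=
      CI.C_mul hPU (Submodule.pow_mem_pow _ hc _)
    rw [← pow_add, Nat.sub_add_cancel hmn] at h1
    exact h1
  · rw [eval_mul, hPz, mul_zero]

end Cl42

open Cl42 in
/-- B1 -/
theorem cl_42 : StCl := by
  intro k Ω _ _ _ U d z w hz hw
  obtain ⟨m, A, p, hm, hp0, hpU, hA, hAz⟩ := companion hz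
  obtain ⟨n, B, q, hn, hq0, hqU, hB, hBw⟩ := companion hw
  have hcard : Fintype.card (Fin (m + 1) × Fin (n + 1)) = (m + 1) * (n + 1) := by simp
  have hle : (m + 1) * (n + 1) ≤ d * d := Nat.mul_le_mul hm hn
  have hpq : p * q ≠ 0 := mul_ne_zero hp0 hq0
  have hpqU : p * q ∈ U ^ 2 := by
    rw [sq]; exact Submodule.mul_mem_mul hpU hqU
  let ζ : Fin (m + 1) × Fin (n + 1) → Ω := fun x => z ^ (x.1 : ℕ) * w ^ (x.2 : ℕ)
  have hζ : ζ ≠ 0 := by
    intro h
    have := congrFun h (0, 0)
    simp [ζ] at this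
  have fin : ∀ x : Ω, Cx ((U ^ 2) ^ Fintype.card (Fin (m + 1) × Fin (n + 1)))
      (Fintype.card (Fin (m + 1) × Fin (n + 1))) x → Cx (U ^ (2 * (d * d))) (d * d) x := by
    intro x hx
    rw [hcard] at hx
    have := cx_mono hle hpqU hpq hx
    rwa [← pow_mul] at this
  constructor
  · refine fin _ (cx_of_matrix (c := p * q)
      (fun x y => q * A x.1 y.1 * (if x.2 = y.2 then 1 else 0) +
        p * B x.2 y.2 * (if x.1 = y.1 then 1 else 0)) ?_ hpqU hpq ζ hζ ?_)
    · intro x y
      refine Submodule.add_mem _ ?_ ?_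
      · split_ifs
        · rw [mul_one, sq]; exact Submodule.mul_mem_mul hqU (hA _ _)
        · rw [mul_zero]; exact Submodule.zero_mem _
      · split_ifs
        · rw [mul_one, sq]; exact Submodule.mul_mem_mul hpU (hB _ _)
        · rw [mul_zero]; exact Submodule.zero_mem _
    · funext x
      obtain ⟨i, j⟩ := x
      show ∑ y : Fin (m + 1) × Fin (n + 1), _ * ζ y = _
      rw [Fintype.sum_prod_type]
      have e1 : ∀ (i' : Fin (m + 1)) (j' : Fin (n + 1)),
          (q * A i i' * (if j = j' then 1 else 0) + p * B j j' * (if i = i' then 1 else 0)) *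
            ζ (i', j') = (if j = j' then q * (A i i' * z ^ (i' : ℕ)) * w ^ (j' : ℕ) else 0) +
            (if i = i' then p * z ^ (i' : ℕ) * (B j j' * w ^ (j' : ℕ)) else 0) := by
        intro i' j'
        simp only [ζ]
        split_ifs <;> ring
      simp only [e1, Finset.sum_add_distrib, Finset.sum_ite_eq, Finset.mem_univ, if_true]
      have e2 : ∑ i', ∑ j' : Fin (n + 1),
          (if i = i' then p * z ^ (i' : ℕ) * (B j j' * w ^ (j' : ℕ)) else 0) =
          p * z ^ (i : ℕ) * ∑ j', B j j' * w ^ (j' : ℕ) := by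
        rw [Finset.sum_comm, Finset.mul_sum]
        refine Finset.sum_congr rfl fun j' _ => ?_
        rw [Finset.sum_ite_eq]
        simp
      have e3 : ∑ i' : Fin (m + 1), q * (A i i' * z ^ (i' : ℕ)) * w ^ (j : ℕ) =
          q * (∑ i', A i i' * z ^ (i' : ℕ)) * w ^ (j : ℕ) := by
        rw [Finset.mul_sum, Finset.sum_mul]
      rw [e2, e3, hAz, hBw]
      simp only [ζ, Pi.smul_apply, smul_eq_mul]
      ring
  · refine fin _ (cx_of_matrix (c := p * q) (fun x y => A x.1 y.1 * B x.2 y.2) ?_ hpqU hpq ζ hζ ?_)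
    · intro x y
      rw [sq]; exact Submodule.mul_mem_mul (hA _ _) (hB _ _)
    · funext x
      obtain ⟨i, j⟩ := x
      show ∑ y : Fin (m + 1) × Fin (n + 1), _ * ζ y = _
      rw [Fintype.sum_prod_type]
      have e1 : ∀ (i' : Fin (m + 1)) (j' : Fin (n + 1)), A i i' * B j j' * ζ (i', j') =
          (A i i' * z ^ (i' : ℕ)) * (B j j' * w ^ (j' : ℕ)) := by
        intro i' j'
        simp only [ζ]
        ring
      simp only [e1]
      rw [← Finset.sum_mul_sum, hAz, hBw]
      simp only [ζ, Pi.smul_apply, smul_eq_mul]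
      ring

end Pool.Agent.Lib.MP_c50dba_nt.BX
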