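import Pool.Agent.Lib.MP_c50dba_nt.BX.StmtsV

set_option autoImplicit false

/-!
BOXES project, phase 2, module V4: an entry of large degree.
-/

namespace Pool.Agent.Lib.MP_c50dba_nt.BX

open Module Polynomial

namespace D95

/-- A finite Galois extension containing finitely many algebraic numbers. -/
theorem exists_galois (M Ω : Type) [Field M] [CharZero M] [Field Ω] [IsAlgClosed Ω] [Algebra M Ω]
    {κ : Type} [Fintype κ] (v : κ → Ω) (hv : ∀ t, IsAlgebraic M (v t)) :
    ∃ E : IntermediateField M Ω, FiniteDimensional M E ∧ IsGalois M E ∧ ∀ t, v t ∈ E := by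
  classical
  set P : M[X] := ∏ t, minpoly M (v t) with hP
  have hP0 : P ≠ 0 := by
    rw [hP, Finset.prod_ne_zero_iff]
    intro t _
    exact minpoly.ne_zero (hv t).isIntegral
  have hs : (P.map (algebraMap M Ω)).Splits := IsAlgClosed.splits _
  have hE := IntermediateField.adjoin_rootSet_isSplittingField hs
  refine ⟨IntermediateField.adjoin M (P.rootSet Ω), ?_, ?_, fun t => ?_⟩
  · exact IsSplittingField.finiteDimensional _ P
  · have : FiniteDimensional M (IntermediateField.adjoin M (P.rootSet Ω)) :=
      IsSplittingField.finiteDimensional _ P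
    have : Normal M (IntermediateField.adjoin M (P.rootSet Ω)) := Normal.of_isSplittingField P
    exact ⟨⟩
  · apply IntermediateField.subset_adjoin
    rw [mem_rootSet]
    refine ⟨hP0, ?_⟩
    rw [hP, map_prod]
    exact Finset.prod_eq_zero (Finset.mem_univ t) (minpoly.aeval M (v t))

end D95

open D95 in
/-- Module V4. -/
theorem deg_95 (hI : StIso) (hA : StAr) : StDeg := by
  classical
  intro M Ω _ _ _ _ _ r q v hz halg hind D hD
  by_contra hcon
  push Not at hcon
  obtain ⟨E, hfd, hgal, hmem⟩ := exists_galois M Ω v halg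
  set z : Ix q → E := fun t => ⟨v t, hmem t⟩ with hzdef
  obtain ⟨P, _, _, Dg, π, h1, h2, h3⟩ := hI M E
  have hdeg : ∀ t, (minpoly M (z t)).natDegree ≤ D := by
    intro t
    have : minpoly M (z t) = minpoly M (v t) := IntermediateField.minpoly_eq (z t)
    rw [this]
    have := hcon t
    omega
  have hzz : ZL q z := by
    intro s t
    apply Subtype.ext
    have e : ((∑ b, z (Function.update t s b) : E) : Ω) =
        ∑ b, v (Function.update t s b) := by
      push_cast
      rfl
    rw [e, hz s t]
    rfl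
  -- the arrays of one type
  set κ : P → Finset (Ix q) := fun ρ => Finset.univ.filter (fun t => π ρ (z t) ≠ 0) with hκ
  set S : P → Submodule M E := fun ρ => Submodule.span M (Set.range fun t => π ρ (z t)) with hS
  have hr1 : ∀ ρ, 4 ^ r * finrank M (S ρ) ≤ (κ ρ).card ^ 2 := by
    intro ρ
    have h := hA M E r q (fun t => π ρ (z t)) (by
      intro s t
      have := hzz s t
      rw [← map_sum, this, map_zero])
    convert h
  have hr2 : ∀ ρ, finrank M (S ρ) ≤ Dg ρ ^ 2 := by
    intro ρ
    refine le_trans (Submodule.finrank_mono ?_) (h1 ρ)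
    rw [hS, Submodule.span_le]
    rintro _ ⟨t, rfl⟩
    exact ⟨z t, rfl⟩
  have hr3 : ∀ ρ, 2 ^ r * finrank M (S ρ) ≤ Dg ρ * (κ ρ).card := by
    intro ρ
    have h4 : (2 ^ r * finrank M (S ρ)) ^ 2 ≤ (Dg ρ * (κ ρ).card) ^ 2 := by
      calc (2 ^ r * finrank M (S ρ)) ^ 2 = (4 ^ r * finrank M (S ρ)) * finrank M (S ρ) := by
            rw [show (4 : ℕ) = 2 ^ 2 by norm_num, ← pow_mul, mul_comm 2 r, pow_mul]
            ring
        _ ≤ (κ ρ).card ^ 2 * Dg ρ ^ 2 := Nat.mul_le_mul (hr1 ρ) (hr2 ρ)
        _ = (Dg ρ * (κ ρ).card) ^ 2 := by ring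
    exact (Nat.pow_le_pow_iff_left (by norm_num)).1 h4
  -- the injective map
  have hinj : ∏ s, (q s - 1) ≤ ∑ ρ, finrank M (S ρ) := by
    let f : (Ix (fun s => q s - 1) → M) →ₗ[M] (∀ ρ, S ρ) := LinearMap.pi (fun ρ =>
      LinearMap.codRestrict (S ρ)
        ((π ρ).comp (Fintype.linearCombination M (fun t => z (bas q t)))) (by
          intro c
          rw [LinearMap.comp_apply, Fintype.linearCombination_apply, map_sum]
          refine Submodule.sum_mem _ (fun t _ => ?_)
          rw [map_smul]
          exact Submodule.smul_mem _ _ (Submodule.subset_span ⟨bas q t, rfl⟩)))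
    have hf : Function.Injective f := by
      rw [← LinearMap.ker_eq_bot, LinearMap.ker_eq_bot']
      intro c hc
      have h4 : ∀ ρ, π ρ (∑ t, c t • z (bas q t)) = 0 := by
        intro ρ
        have h5 := congrFun hc ρ
        have h6 := congrArg Subtype.val h5
        simpa [f, Fintype.linearCombination_apply] using h6
      obtain ⟨c0, hc0⟩ := h2 _ h4
      have h5 : ∑ t, c t • v (bas q t) = algebraMap M Ω c0 := by
        have h6 := congrArg (algebraMap E Ω) hc0
        rw [map_sum, ← IsScalarTower.algebraMap_apply] at h6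
        rw [h6]
        refine Finset.sum_congr rfl (fun t _ => ?_)
        rw [Algebra.smul_def, Algebra.smul_def, map_mul, ← IsScalarTower.algebraMap_apply]
        rfl
      rw [Fintype.linearIndependent_iff] at hind
      have h6 := hind (fun o => o.elim (-c0) c) (by
        rw [Fintype.sum_option]
        simp only [wone, Option.elim]
        rw [h5, Algebra.smul_def, map_neg, mul_one, neg_add_cancel])
      funext t
      exact h6 (some t)
    have h4 := LinearMap.finrank_le_finrank_of_injective hf
    rw [Module.finrank_fintype_fun_eq_card, Module.finrank_pi_fintype, Fintype.card_pi] at h4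
    simpa using h4
  -- counting
  have hcount : 2 ^ r * ∏ s, (q s - 1) ≤ (D - 1) * ∏ s, q s := by
    calc 2 ^ r * ∏ s, (q s - 1) ≤ 2 ^ r * ∑ ρ, finrank M (S ρ) := Nat.mul_le_mul_left _ hinj
      _ = ∑ ρ, 2 ^ r * finrank M (S ρ) := Finset.mul_sum _ _ _
      _ ≤ ∑ ρ, Dg ρ * (κ ρ).card := Finset.sum_le_sum (fun ρ _ => hr3 ρ)
      _ = ∑ ρ, ∑ t : Ix q, if π ρ (z t) ≠ 0 then Dg ρ else 0 := by
          refine Finset.sum_congr rfl (fun ρ _ => ?_)
          rw [← Finset.sum_filter, Finset.sum_const, smul_eq_mul, mul_comm]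
      _ = ∑ t : Ix q, ∑ ρ, if π ρ (z t) ≠ 0 then Dg ρ else 0 := Finset.sum_comm
      _ ≤ ∑ t : Ix q, (D - 1) := by
          refine Finset.sum_le_sum (fun t _ => ?_)
          rw [← Finset.sum_filter]
          have h4 := h3 (z t) (Finset.univ.filter (fun ρ => π ρ (z t) ≠ 0))
            (fun ρ hρ => (Finset.mem_filter.1 hρ).2)
          have h5 := hdeg t
          omega
      _ = (D - 1) * ∏ s, q s := by
          rw [Finset.sum_const, Finset.card_univ, Fintype.card_pi, smul_eq_mul, mul_comm]
          simp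
  omega

end Pool.Agent.Lib.MP_c50dba_nt.BX
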