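import Mathlib

set_option autoImplicit false

/-!
Ultraproducts of a sequence of fields, as quotients of the product ring.
-/

namespace Pool.Agent.Lib.MP_c50dba_nt.BX

open Filter

section Ultra

/-- The sequences that vanish almost everywhere. -/
def idl47 (K : ℕ → Type) [∀ m, Field (K m)] : Ideal (∀ m, K m) where
  carrier := {x | ∀ᶠ m in (hyperfilter ℕ : Filter ℕ), x m = 0}
  add_mem' := by
    intro a b ha hb
    have ha' : ∀ᶠ m in (hyperfilter ℕ : Filter ℕ), a m = 0 := ha
    have hb' : ∀ᶠ m in (hyperfilter ℕ : Filter ℕ), b m = 0 := hb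
    show ∀ᶠ m in (hyperfilter ℕ : Filter ℕ), (a + b) m = 0
    filter_upwards [ha', hb'] with m h1 h2
    simp [h1, h2]
  zero_mem' := by
    show ∀ᶠ m in (hyperfilter ℕ : Filter ℕ), (0 : ∀ m, K m) m = 0
    exact Eventually.of_forall (fun m => rfl)
  smul_mem' := by
    intro c x hx
    have hx' : ∀ᶠ m in (hyperfilter ℕ : Filter ℕ), x m = 0 := hx
    show ∀ᶠ m in (hyperfilter ℕ : Filter ℕ), (c • x) m = 0
    filter_upwards [hx'] with m h1
    simp [h1]

theorem mem_idl47 {K : ℕ → Type} [∀ m, Field (K m)] {x : ∀ m, K m} :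
    x ∈ idl47 K ↔ ∀ᶠ m in (hyperfilter ℕ : Filter ℕ), x m = 0 := Iff.rfl

instance idl47_max (K : ℕ → Type) [∀ m, Field (K m)] : (idl47 K).IsMaximal := by
  rw [Ideal.isMaximal_iff]
  constructor
  · intro h
    obtain ⟨m, hm⟩ := (mem_idl47.1 h).exists
    simp at hm
  · intro J x hIJ hx hxJ
    have hx' : ∀ᶠ m in (hyperfilter ℕ : Filter ℕ), ¬ (x m = 0) := by
      rw [Ultrafilter.eventually_not]
      exact hx
    have h1 : (1 - (fun m => (x m)⁻¹) * x : ∀ m, K m) ∈ J := by
      apply hIJ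
      rw [mem_idl47]
      filter_upwards [hx'] with m hm
      simp [hm]
    have h2 : ((fun m => (x m)⁻¹) * x : ∀ m, K m) ∈ J := J.mul_mem_left _ hxJ
    have h3 := J.add_mem h1 h2
    simpa using h3

/-- The ultraproduct. -/
abbrev Star47 (K : ℕ → Type) [∀ m, Field (K m)] : Type := (∀ m, K m) ⧸ idl47 K

noncomputable instance starField47 (K : ℕ → Type) [∀ m, Field (K m)] : Field (Star47 K) :=
  Ideal.Quotient.field (idl47 K)

/-- The class of a sequence. -/
noncomputable def mk47 (K : ℕ → Type) [∀ m, Field (K m)] : (∀ m, K m) →+* Star47 K :=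
  Ideal.Quotient.mk (idl47 K)

theorem mk47_surj (K : ℕ → Type) [∀ m, Field (K m)] : Function.Surjective (mk47 K) :=
  Ideal.Quotient.mk_surjective

theorem mk47_eq {K : ℕ → Type} [∀ m, Field (K m)] {x y : ∀ m, K m} :
    mk47 K x = mk47 K y ↔ ∀ᶠ m in (hyperfilter ℕ : Filter ℕ), x m = y m := by
  rw [mk47, Ideal.Quotient.eq, mem_idl47]
  constructor
  · intro h
    filter_upwards [h] with m hm
    simpa [sub_eq_zero] using hm
  · intro h
    filter_upwards [h] with m hm
    simp [hm]

theorem mk47_zero {K : ℕ → Type} [∀ m, Field (K m)] {x : ∀ m, K m} :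
    mk47 K x = 0 ↔ ∀ᶠ m in (hyperfilter ℕ : Filter ℕ), x m = 0 := by
  rw [← map_zero (mk47 K), mk47_eq]
  rfl

instance starChar47 (K : ℕ → Type) [∀ m, Field (K m)] [∀ m, CharZero (K m)] :
    CharZero (Star47 K) := by
  constructor
  intro a b hab
  have h1 : mk47 K (a : ∀ m, K m) = mk47 K (b : ∀ m, K m) := by
    rw [map_natCast, map_natCast]
    exact hab
  obtain ⟨m, hm⟩ := (mk47_eq.1 h1).exists
  have h2 : ((a : ℕ) : K m) = ((b : ℕ) : K m) := by simpa using hm
  exact_mod_cast h2

instance starClosed47 (K : ℕ → Type) [∀ m, Field (K m)] [∀ m, IsAlgClosed (K m)] :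
    IsAlgClosed (Star47 K) := by
  apply IsAlgClosed.of_exists_root
  intro p hp hirr
  choose a ha using fun i => mk47_surj K (p.coeff i)
  set n := p.natDegree with hn
  have hn1 : 1 ≤ n := by
    have := hirr.natDegree_pos
    omega
  have hroot : ∀ m, ∃ r : K m, r ^ n + ∑ i ∈ Finset.range n, a i m * r ^ i = 0 := by
    intro m
    have hd : (∑ i ∈ Finset.range n, Polynomial.C (a i m) * Polynomial.X ^ i).degree <
        (n : WithBot ℕ) := by
      apply lt_of_le_of_lt (Polynomial.degree_sum_le _ _)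
      rw [Finset.sup_lt_iff (by exact WithBot.bot_lt_coe _)]
      intro i hi
      apply lt_of_le_of_lt (Polynomial.degree_C_mul_X_pow_le _ _)
      exact_mod_cast Finset.mem_range.1 hi
    have hdeg : (Polynomial.X ^ n +
        ∑ i ∈ Finset.range n, Polynomial.C (a i m) * Polynomial.X ^ i).degree = (n : WithBot ℕ) := by
      rw [Polynomial.degree_add_eq_left_of_degree_lt (by rw [Polynomial.degree_X_pow]; exact hd),
        Polynomial.degree_X_pow]
    obtain ⟨r, hr⟩ := IsAlgClosed.exists_root (Polynomial.X ^ n +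
        ∑ i ∈ Finset.range n, Polynomial.C (a i m) * Polynomial.X ^ i) (by
          rw [hdeg]
          exact_mod_cast (by omega : n ≠ 0))
    refine ⟨r, ?_⟩
    have := hr
    simpa [Polynomial.IsRoot, Polynomial.eval_finsetSum] using this
  choose r hr using hroot
  refine ⟨mk47 K r, ?_⟩
  rw [Polynomial.eval_eq_sum_range, Finset.sum_range_succ]
  have hl : p.coeff p.natDegree = 1 := hp.coeff_natDegree
  rw [hl, one_mul]
  have h1 : (∑ i ∈ Finset.range p.natDegree, p.coeff i * mk47 K r ^ i) + mk47 K r ^ p.natDegree =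
      mk47 K ((∑ i ∈ Finset.range n, a i * r ^ i) + r ^ n) := by
    rw [map_add, map_sum, map_pow]
    congr 1
    apply Finset.sum_congr rfl
    intro i hi
    rw [map_mul, map_pow, ha]
  rw [h1, mk47_zero]
  apply Eventually.of_forall
  intro m
  have := hr m
  simpa [add_comm] using this

variable (K Ω : ℕ → Type) [∀ m, Field (K m)] [∀ m, Field (Ω m)] [∀ m, Algebra (K m) (Ω m)]

/-- The map of product rings. -/
def hom47 : (∀ m, K m) →+* (∀ m, Ω m) :=
  RingHom.pi (fun m => (algebraMap (K m) (Ω m)).comp (Pi.evalRingHom K m))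

theorem hom47_apply (x : ∀ m, K m) (m : ℕ) : hom47 K Ω x m = algebraMap (K m) (Ω m) (x m) := rfl

/-- The algebra structure on ultraproducts. -/
@[instance_reducible] noncomputable def starAlg47 : Algebra (Star47 K) (Star47 Ω) :=
  (Ideal.quotientMap (idl47 Ω) (hom47 K Ω) (by
    intro x hx
    rw [Ideal.mem_comap, mem_idl47]
    filter_upwards [mem_idl47.1 hx] with m hm
    rw [hom47_apply, hm, map_zero])).toAlgebra

theorem smul47 (a : ∀ m, K m) (x : ∀ m, Ω m) :
    letI := starAlg47 K Ω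
    (mk47 K a) • (mk47 Ω x) = mk47 Ω (fun m => a m • x m) := by
  let _ := starAlg47 K Ω
  rw [Algebra.smul_def]
  have h1 : algebraMap (Star47 K) (Star47 Ω) (mk47 K a) = mk47 Ω (hom47 K Ω a) := by
    show Ideal.quotientMap (idl47 Ω) (hom47 K Ω) _ (Ideal.Quotient.mk (idl47 K) a) = _
    rw [Ideal.quotientMap_mk]
    rfl
  rw [h1, ← map_mul]
  congr 1
  funext m
  rw [Pi.mul_apply, hom47_apply, Algebra.smul_def]

end Ultra

end Pool.Agent.Lib.MP_c50dba_nt.BX
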