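import Pool.Agent.Lib.MP_c50dba_nt.BX.Stmts
import Pool.Agent.Lib.MP_c50dba_nt.BX.Ultra47

set_option autoImplicit false

/-!
B6: the finite form of the BOXES theorem from the infinite form, with an ultraproduct.
-/

namespace Pool.Agent.Lib.MP_c50dba_nt.BX

open Filter Module

section Lift

variable {K Ω : ℕ → Type} [∀ m, Field (K m)] [∀ m, Field (Ω m)] [∀ m, Algebra (K m) (Ω m)]

theorem sum_smul47 {ι : Type} [Fintype ι] (a : ι → ∀ m, K m) (w : ι → ∀ m, Ω m) :
    letI := starAlg47 K Ω
    ∑ i, (mk47 K (a i)) • (mk47 Ω (w i)) = mk47 Ω (fun m => ∑ i, a i m • w i m) := by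
  let _ := starAlg47 K Ω
  have h1 : (fun m => ∑ i, a i m • w i m) = ∑ i, (fun m => a i m • w i m : ∀ m, Ω m) := by
    funext m
    rw [Finset.sum_apply]
  rw [h1, map_sum]
  exact Finset.sum_congr rfl (fun i _ => smul47 K Ω (a i) (w i))

theorem li_up47 {ι : Type} [Fintype ι] (w : ι → ∀ m, Ω m)
    (h : ∀ᶠ m in (hyperfilter ℕ : Filter ℕ), LinearIndependent (K m) (fun i => w i m)) :
    letI := starAlg47 K Ω
    LinearIndependent (Star47 K) (fun i => mk47 Ω (w i)) := by
  let _ := starAlg47 K Ω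
  rw [Fintype.linearIndependent_iff]
  intro g hg i
  choose a ha using fun i => mk47_surj K (g i)
  have h1 : ∑ i, (mk47 K (a i)) • (mk47 Ω (w i)) = 0 := by
    rw [← hg]
    exact Finset.sum_congr rfl (fun i _ => by rw [ha])
  rw [sum_smul47, mk47_zero] at h1
  rw [← ha i, mk47_zero]
  filter_upwards [h, h1] with m hm1 hm2
  exact (Fintype.linearIndependent_iff.1 hm1) (fun i => a i m) hm2 i

theorem li_down47 {ι : Type} [Fintype ι] (w : ι → ∀ m, Ω m)
    (h : letI := starAlg47 K Ω; LinearIndependent (Star47 K) (fun i => mk47 Ω (w i))) :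
    ∀ᶠ m in (hyperfilter ℕ : Filter ℕ), LinearIndependent (K m) (fun i => w i m) := by
  let _ := starAlg47 K Ω
  by_contra hcon
  rw [← Ultrafilter.eventually_not] at hcon
  have hg : ∀ m, ∃ g : ι → K m, ¬ LinearIndependent (K m) (fun i => w i m) →
      (∑ i, g i • w i m = 0 ∧ ∃ i, g i ≠ 0) := by
    intro m
    by_cases hm : LinearIndependent (K m) (fun i => w i m)
    · exact ⟨0, fun h' => absurd hm h'⟩
    · obtain ⟨g, hg1, hg2⟩ := Fintype.not_linearIndependent_iff.1 hm
      exact ⟨g, fun _ => ⟨hg1, hg2⟩⟩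
  choose g hg using hg
  have h1 : ∀ᶠ m in (hyperfilter ℕ : Filter ℕ), ∃ i, g m i ≠ 0 := by
    filter_upwards [hcon] with m hm using (hg m hm).2
  obtain ⟨i, hi⟩ := Ultrafilter.eventually_exists_iff.1 h1
  have h2 : ∑ i, (mk47 K (fun m => g m i)) • (mk47 Ω (w i)) = 0 := by
    rw [sum_smul47, mk47_zero]
    filter_upwards [hcon] with m hm using (hg m hm).1
  have h3 := (Fintype.linearIndependent_iff.1 h) _ h2 i
  rw [mk47_zero] at h3
  obtain ⟨m, hm1, hm2⟩ := (hi.and h3).exists
  exact hm1 hm2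

theorem cx_up47 {N d : ℕ} (f : Fin N → ∀ m, Ω m) (z : ∀ m, Ω m)
    (h : ∀ᶠ m in (hyperfilter ℕ : Filter ℕ),
      Cx (Submodule.span (K m) (Set.range (fun j => f j m))) d (z m)) :
    letI := starAlg47 K Ω
    Cx (Submodule.span (Star47 K) (Set.range (fun j => mk47 Ω (f j)))) d (mk47 Ω z) := by
  let _ := starAlg47 K Ω
  have hex : ∀ m, ∃ (P : Polynomial (Ω m)) (γ : ℕ → Fin N → K m),
      Cx (Submodule.span (K m) (Set.range (fun j => f j m))) d (z m) →
      (P ≠ 0 ∧ P.natDegree ≤ d ∧ (∀ j, P.coeff j = ∑ l, γ j l • f l m) ∧ P.eval (z m) = 0) := by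
    intro m
    by_cases hm : Cx (Submodule.span (K m) (Set.range (fun j => f j m))) d (z m)
    · obtain ⟨P, hP0, hP1, hP2, hP3⟩ := hm
      have : ∀ j, ∃ c : Fin N → K m, ∑ l, c l • f l m = P.coeff j := by
        intro j
        exact (Submodule.mem_span_range_iff_exists_fun _).1 (hP2 j)
      choose γ hγ using this
      exact ⟨P, γ, fun _ => ⟨hP0, hP1, fun j => (hγ j).symm, hP3⟩⟩
    · exact ⟨0, fun _ _ => 0, fun h' => absurd h' hm⟩
  choose P γ hP using hex
  set Q : Polynomial (Star47 Ω) := ∑ e ∈ Finset.range (d + 1),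
    Polynomial.C (mk47 Ω (fun m => (P m).coeff e)) * Polynomial.X ^ e with hQ
  have hcoef : ∀ j, Q.coeff j = if j < d + 1 then mk47 Ω (fun m => (P m).coeff j) else 0 := by
    intro j
    rw [hQ, Polynomial.finsetSum_coeff]
    simp only [Polynomial.coeff_C_mul, Polynomial.coeff_X_pow, mul_ite, mul_one, mul_zero]
    rw [Finset.sum_ite_eq (Finset.range (d + 1)) j]
    simp only [Finset.mem_range]
  refine ⟨Q, ?_, ?_, ?_, ?_⟩
  · have h1 : ∀ᶠ m in (hyperfilter ℕ : Filter ℕ), ∃ e : Fin (d + 1), (P m).coeff e ≠ 0 := by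
      filter_upwards [h] with m hm
      obtain ⟨h0, h1, -, -⟩ := hP m hm
      refine ⟨⟨(P m).natDegree, by omega⟩, ?_⟩
      simpa using h0
    obtain ⟨e, he⟩ := Ultrafilter.eventually_exists_iff.1 h1
    intro hQ0
    have h2 := hcoef e
    rw [hQ0, Polynomial.coeff_zero, if_pos e.2] at h2
    obtain ⟨m, hm1, hm2⟩ := (he.and (mk47_zero.1 h2.symm)).exists
    exact hm1 hm2
  · rw [hQ]
    apply Polynomial.natDegree_sum_le_of_forall_le
    intro e he
    have := Finset.mem_range.1 he
    exact le_trans (Polynomial.natDegree_C_mul_X_pow_le _ _) (by omega)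
  · intro j
    rw [hcoef]
    split_ifs with hj
    · have h1 : mk47 Ω (fun m => (P m).coeff j) =
          ∑ l, (mk47 K (fun m => γ m j l)) • (mk47 Ω (f l)) := by
        rw [sum_smul47, mk47_eq]
        filter_upwards [h] with m hm using (hP m hm).2.2.1 j
      rw [h1]
      exact Submodule.sum_mem _ (fun l _ => Submodule.smul_mem _ _
        (Submodule.subset_span ⟨l, rfl⟩))
    · exact Submodule.zero_mem _
  · have h1 : Q.eval (mk47 Ω z) =
        mk47 Ω (fun m => ∑ e ∈ Finset.range (d + 1), (P m).coeff e * z m ^ e) := by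
      have h2 : (fun m => ∑ e ∈ Finset.range (d + 1), (P m).coeff e * z m ^ e) =
          ∑ e ∈ Finset.range (d + 1), ((fun m => (P m).coeff e) * z ^ e : ∀ m, Ω m) := by
        funext m
        rw [Finset.sum_apply]
        rfl
      rw [h2, map_sum, hQ, Polynomial.eval_finsetSum]
      apply Finset.sum_congr rfl
      intro e he
      rw [Polynomial.eval_mul, Polynomial.eval_C, Polynomial.eval_pow, Polynomial.eval_X,
        map_mul, map_pow]
    rw [h1, mk47_zero]
    filter_upwards [h] with m hm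
    obtain ⟨-, h2, -, h3⟩ := hP m hm
    rw [← h3, Polynomial.eval_eq_sum_range' (Nat.lt_succ_of_le h2)]

end Lift

/-- The data of a counterexample. -/
structure Dat47 (N d h m : ℕ) where
  k : Type
  Ω : Type
  [fk : Field k]
  [ck : CharZero k]
  [fΩ : Field Ω]
  [aΩ : IsAlgClosed Ω]
  [alg : Algebra k Ω]
  f : Fin N → Ω
  y : Ω
  v : Fin h → Fin m → Ω
  sr : SR k (fun x : Fin h × Fin m => v x.1 x.2)
  cx : ∀ (S : Finset (Fin h)) (c : Fin h → Fin m),
    Cx (Submodule.span k (Set.range f)) d (y + ∑ i ∈ S, v i (c i))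

attribute [instance] Dat47.fk Dat47.ck Dat47.fΩ Dat47.aΩ Dat47.alg

theorem sub47 {k V ι : Type} [Field k] [AddCommGroup V] [Module k V] [Fintype ι] (w : ι → V)
    (r : ℕ) (hr : r ≤ finrank k (Submodule.span k (Set.range w))) :
    ∃ T : Finset ι, T.card = r ∧ LinearIndependent k (fun t : T => w t.1) := by
  classical
  obtain ⟨κ, a, ha, hspan, hli⟩ := exists_linearIndependent' k w
  have : Finite κ := Finite.of_injective a ha
  have : Fintype κ := Fintype.ofFinite κ
  have h1 := finrank_span_eq_card hli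
  rw [hspan] at h1
  have h2 : (Finset.univ.image a).card = Fintype.card κ := by
    rw [Finset.card_image_of_injective _ ha, Finset.card_univ]
  obtain ⟨T, hT1, hT2⟩ := Finset.exists_subset_card_eq (s := Finset.univ.image a) (n := r)
    (by omega)
  refine ⟨T, hT2, ?_⟩
  have h3 : LinearIndepOn k w (Set.range a) := (linearIndepOn_range_iff ha w).2 hli
  have h4 : LinearIndepOn k w (T : Set ι) := by
    apply h3.mono
    intro t ht
    have := hT1 ht
    simpa using this
  exact h4

theorem ultra47 (hB : StInfB) {N d h : ℕ} (hd : d < 2 ^ h) (K Ω : ℕ → Type) [∀ m, Field (K m)]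
    [∀ m, CharZero (K m)] [∀ m, Field (Ω m)] [∀ m, IsAlgClosed (Ω m)] [∀ m, Algebra (K m) (Ω m)]
    (f : ∀ m, Fin N → Ω m) (y : ∀ m, Ω m) (v : ∀ m, Fin h → Fin m → Ω m)
    (hsr : ∀ m, SR (K m) (fun x : Fin h × Fin m => v m x.1 x.2))
    (hcx : ∀ m (S : Finset (Fin h)) (c : Fin h → Fin m),
      Cx (Submodule.span (K m) (Set.range (f m))) d (y m + ∑ i ∈ S, v m i (c i))) : False := by
  classical
  let _ := starAlg47 K Ω
  set vt : Fin h → ℕ → ∀ m, Ω m := fun i l m => if hl : l < m then v m i ⟨l, hl⟩ else 0 with hvt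
  have hge : ∀ M : ℕ, ∀ᶠ m in (hyperfilter ℕ : Filter ℕ), M < m := fun M =>
    (eventually_gt_atTop M).filter_mono Nat.hyperfilter_le_atTop
  set U : Submodule (Star47 K) (Star47 Ω) :=
    Submodule.span (Star47 K) (Set.range (fun j => mk47 Ω (fun m => f m j))) with hU
  have hUfin : FiniteDimensional (Star47 K) U :=
    FiniteDimensional.span_of_finite _ (Set.finite_range _)
  have h1 := hB (Star47 K) (Star47 Ω) U d h (mk47 Ω y) (fun i l => mk47 Ω (vt i l)) ?_ ?_
  · omega
  · intro S c
    have h2 : mk47 Ω y + ∑ i ∈ S, mk47 Ω (vt i (c i)) = mk47 Ω (y + ∑ i ∈ S, vt i (c i)) := by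
      rw [map_add, map_sum]
    show Cx U d (mk47 Ω y + ∑ i ∈ S, mk47 Ω (vt i (c i)))
    rw [h2]
    apply cx_up47 (fun j m => f m j)
    filter_upwards [hge (∑ i, c i)] with m hm
    have hc : ∀ i, c i < m := fun i =>
      lt_of_le_of_lt (Finset.single_le_sum (f := c) (fun _ _ => Nat.zero_le _)
        (Finset.mem_univ i)) hm
    have h3 := hcx m S (fun i => ⟨c i, hc i⟩)
    have h4 : (y + ∑ i ∈ S, vt i (c i)) m = y m + ∑ i ∈ S, v m i ⟨c i, hc i⟩ := by
      rw [Pi.add_apply, Finset.sum_apply]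
      congr 1
      apply Finset.sum_congr rfl
      intro i _
      simp only [hvt]
      rw [dif_pos (hc i)]
    rw [h4]
    exact h3
  · intro n g hg d' u hu
    choose ut hut using fun i => mk47_surj Ω (u i)
    have hu' : LinearIndependent (Star47 K) (fun i => mk47 Ω (ut i)) := by
      have : (fun i => mk47 Ω (ut i)) = u := funext hut
      rw [this]
      exact hu
    have hLI := li_down47 ut hu'
    set w : Fin d' × Fin n → ∀ m, Ω m := fun ij => ut ij.1 * vt (g ij.2).1 (g ij.2).2 with hw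
    set r := d' * (n + 1) - d' * d' with hr
    have hT : ∀ᶠ m in (hyperfilter ℕ : Filter ℕ), ∃ T : Finset (Fin d' × Fin n),
        T.card = r ∧ LinearIndependent (K m) (fun t : T => w t.1 m) := by
      filter_upwards [hLI, hge (∑ j, (g j).2)] with m hm1 hm2
      have hc : ∀ j, (g j).2 < m := fun j =>
        lt_of_le_of_lt (Finset.single_le_sum (f := fun j => (g j).2) (fun _ _ => Nat.zero_le _)
          (Finset.mem_univ j)) hm2
      have h3 := hsr m n (fun j => ((g j).1, ⟨(g j).2, hc j⟩)) (by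
        intro a b hab
        apply hg
        have h5 := Prod.ext_iff.1 hab
        have h6 := h5.2
        simp only [Fin.mk.injEq] at h6
        exact Prod.ext h5.1 h6) d' (fun i => ut i m) hm1
      have h4 : (fun ij : Fin d' × Fin n => ut ij.1 m * v m (g ij.2).1 ⟨(g ij.2).2, hc ij.2⟩) =
          fun ij => w ij m := by
        funext ij
        simp only [hw, Pi.mul_apply, hvt]
        rw [dif_pos (hc ij.2)]
      have h5 : d' * (n + 1) ≤ finrank (K m) (Submodule.span (K m)
          (Set.range (fun ij => w ij m))) + d' * d' := by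
        rw [← h4]
        exact h3
      exact sub47 (fun ij => w ij m) r (by omega)
    obtain ⟨T, hT⟩ := Ultrafilter.eventually_exists_iff.1 hT
    have hTcard : T.card = r := by
      obtain ⟨m, hm⟩ := hT.exists
      exact hm.1
    have hTli := li_up47 (K := K) (fun t : T => w t.1) (by
      filter_upwards [hT] with m hm using hm.2)
    have h6 := finrank_span_eq_card hTli
    have h7 : Submodule.span (Star47 K) (Set.range (fun t : T => mk47 Ω (w t.1))) ≤
        Submodule.span (Star47 K) (Set.range (fun ij : Fin d' × Fin n =>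
          u ij.1 * mk47 Ω (vt (g ij.2).1 (g ij.2).2))) := by
      apply Submodule.span_mono
      rintro _ ⟨t, rfl⟩
      refine ⟨t.1, ?_⟩
      simp only [hw, map_mul, hut]
    have h8 : FiniteDimensional (Star47 K) (Submodule.span (Star47 K)
        (Set.range (fun ij : Fin d' × Fin n =>
          u ij.1 * mk47 Ω (vt (g ij.2).1 (g ij.2).2)))) :=
      FiniteDimensional.span_of_finite _ (Set.finite_range _)
    have h9 := Submodule.finrank_mono h7
    rw [h6, Fintype.card_coe, hTcard] at h9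
    show d' * (n + 1) ≤ finrank (Star47 K) (Submodule.span (Star47 K)
        (Set.range (fun ij : Fin d' × Fin n =>
          u ij.1 * mk47 Ω (vt (g ij.2).1 (g ij.2).2)))) + d' * d'
    omega

theorem fin_47 (hB : StInfB) : StFinB := by
  intro N d h hd
  by_contra hcon
  push Not at hcon
  have hD : ∀ m, Nonempty (Dat47 N d h m) := by
    intro m
    obtain ⟨k, Ω, fk, ck, fΩ, aΩ, alg, f, y, v, hsr, hcx⟩ := hcon m
    exact ⟨⟨k, Ω, f, y, v, hsr, hcx⟩⟩
  have D : ∀ m, Dat47 N d h m := fun m => (hD m).some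
  exact ultra47 hB hd (fun m => (D m).k) (fun m => (D m).Ω) (fun m => (D m).f)
    (fun m => (D m).y) (fun m => (D m).v) (fun m => (D m).sr) (fun m => (D m).cx)

end Pool.Agent.Lib.MP_c50dba_nt.BX
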