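import Pool.Agent.Lib.MP_c50dba_nt.BX.StmtsV
import Pool.Agent.Lib.MP_c50dba_nt.BX.Fin47

set_option autoImplicit false

/-!
V7: the finite form for arrays with zero line sums, from the infinite form, with an ultraproduct.
-/

namespace Pool.Agent.Lib.MP_c50dba_nt.BX

open Filter Module

/-- The data of a counterexample. -/
structure Dat36 (N d h : ℕ) (r : Fin h → ℕ) (q : (i : Fin h) → Fin (r i) → ℕ) (m : ℕ) where
  k : Type
  Ω : Type
  [fk : Field k]
  [ck : CharZero k]
  [fΩ : Field Ω]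
  [aΩ : IsAlgClosed Ω]
  [alg : Algebra k Ω]
  f : Fin N → Ω
  y : ((i : Fin h) → Ix (q i)) → Ω
  v : (i : Fin h) → Fin m → Ix (q i) → Ω
  zl : ∀ i l, ZL (q i) (v i l)
  sr : ∀ i, SR k (fun x : Fin m × Ix (fun s => q i s - 1) => v i x.1 (bas (q i) x.2))
  cx : ∀ (S : Finset (Fin h)) (c : Fin h → Fin m) (t : (i : Fin h) → Ix (q i)),
    Cx (Submodule.span k (Set.range f)) d (y t + ∑ i ∈ S, v i (c i) (t i))

attribute [instance] Dat36.fk Dat36.ck Dat36.fΩ Dat36.aΩ Dat36.alg

/-- the rank inequality for the ultraproduct of families indexed by `Fin m × κ` -/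
theorem sr_up36 {κ : Type} (K Ω : ℕ → Type) [∀ m, Field (K m)] [∀ m, Field (Ω m)]
    [∀ m, Algebra (K m) (Ω m)] (v : ∀ m, Fin m → κ → Ω m)
    (hsr : ∀ m, SR (K m) (fun x : Fin m × κ => v m x.1 x.2)) (vt : ℕ → κ → ∀ m, Ω m)
    (hvt : ∀ (l : ℕ) (s : κ) (m : ℕ) (hl : l < m), vt l s m = v m ⟨l, hl⟩ s) :
    letI := starAlg47 K Ω
    SR (Star47 K) (fun x : ℕ × κ => mk47 Ω (vt x.1 x.2)) := by
  classical
  let _ := starAlg47 K Ω
  have hge : ∀ M : ℕ, ∀ᶠ m in (hyperfilter ℕ : Filter ℕ), M < m := fun M =>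
    (eventually_gt_atTop M).filter_mono Nat.hyperfilter_le_atTop
  intro n g hg d' u hu
  choose ut hut using fun i => mk47_surj Ω (u i)
  have hu' : LinearIndependent (Star47 K) (fun i => mk47 Ω (ut i)) := by
    have : (fun i => mk47 Ω (ut i)) = u := funext hut
    rw [this]
    exact hu
  have hLI := li_down47 ut hu'
  set w : Fin d' × Fin n → ∀ m, Ω m := fun ij => ut ij.1 * vt (g ij.2).1 (g ij.2).2 with hw
  set r := d' * (n + 1) - d' * d' with hr
  have hT : ∀ᶠ m in (hyperfilter ℕ : Filter ℕ), ∃ T : Finset (Fin d' × Fin n),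
      T.card = r ∧ LinearIndependent (K m) (fun t : T => w t.1 m) := by
    filter_upwards [hLI, hge (∑ j, (g j).1)] with m hm1 hm2
    have hc : ∀ j, (g j).1 < m := fun j =>
      lt_of_le_of_lt (Finset.single_le_sum (f := fun j => (g j).1) (fun _ _ => Nat.zero_le _)
        (Finset.mem_univ j)) hm2
    have h3 := hsr m n (fun j => (⟨(g j).1, hc j⟩, (g j).2)) (by
      intro a b hab
      apply hg
      have h5 := Prod.ext_iff.1 hab
      have h6 := h5.1
      simp only [Fin.mk.injEq] at h6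
      exact Prod.ext h6 h5.2) d' (fun i => ut i m) hm1
    have h4 : (fun ij : Fin d' × Fin n => ut ij.1 m * v m ⟨(g ij.2).1, hc ij.2⟩ (g ij.2).2) =
        fun ij => w ij m := by
      funext ij
      simp only [hw, Pi.mul_apply]
      rw [hvt _ _ _ (hc ij.2)]
    have h5 : d' * (n + 1) ≤ finrank (K m) (Submodule.span (K m)
        (Set.range (fun ij => w ij m))) + d' * d' := by
      rw [← h4]
      exact h3
    exact sub47 (fun ij => w ij m) r (by omega)
  obtain ⟨T, hT⟩ := Ultrafilter.eventually_exists_iff.1 hT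
  have hTcard : T.card = r := by
    obtain ⟨m, hm⟩ := hT.exists
    exact hm.1
  have hTli := li_up47 (K := K) (fun t : T => w t.1) (by
    filter_upwards [hT] with m hm using hm.2)
  have h6 := finrank_span_eq_card hTli
  have h7 : Submodule.span (Star47 K) (Set.range (fun t : T => mk47 Ω (w t.1))) ≤
      Submodule.span (Star47 K) (Set.range (fun ij : Fin d' × Fin n =>
        u ij.1 * mk47 Ω (vt (g ij.2).1 (g ij.2).2))) := by
    apply Submodule.span_mono
    rintro _ ⟨t, rfl⟩
    refine ⟨t.1, ?_⟩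
    simp only [hw, map_mul, hut]
  have h8 : FiniteDimensional (Star47 K) (Submodule.span (Star47 K)
      (Set.range (fun ij : Fin d' × Fin n =>
        u ij.1 * mk47 Ω (vt (g ij.2).1 (g ij.2).2)))) :=
    FiniteDimensional.span_of_finite _ (Set.finite_range _)
  have h9 := Submodule.finrank_mono h7
  rw [h6, Fintype.card_coe, hTcard] at h9
  show d' * (n + 1) ≤ finrank (Star47 K) (Submodule.span (Star47 K)
      (Set.range (fun ij : Fin d' × Fin n =>
        u ij.1 * mk47 Ω (vt (g ij.2).1 (g ij.2).2)))) + d' * d'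
  omega

theorem ultraV36 (hB : StInfV) {N d h : ℕ} {r : Fin h → ℕ} {q : (i : Fin h) → Fin (r i) → ℕ}
    {D : Fin h → ℕ} (hD : ∀ i, (D i - 1) * ∏ s, q i s < 2 ^ r i * ∏ s, (q i s - 1))
    (hd : d < ∏ i, (D i + 1)) (K Ω : ℕ → Type) [∀ m, Field (K m)]
    [∀ m, CharZero (K m)] [∀ m, Field (Ω m)] [∀ m, IsAlgClosed (Ω m)] [∀ m, Algebra (K m) (Ω m)]
    (f : ∀ m, Fin N → Ω m) (y : ∀ m, ((i : Fin h) → Ix (q i)) → Ω m)
    (v : ∀ m, (i : Fin h) → Fin m → Ix (q i) → Ω m)
    (hzl : ∀ m i l, ZL (q i) (v m i l))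
    (hsr : ∀ m i, SR (K m) (fun x : Fin m × Ix (fun s => q i s - 1) =>
      v m i x.1 (bas (q i) x.2)))
    (hcx : ∀ m (S : Finset (Fin h)) (c : Fin h → Fin m) (t : (i : Fin h) → Ix (q i)),
      Cx (Submodule.span (K m) (Set.range (f m))) d (y m t + ∑ i ∈ S, v m i (c i) (t i))) :
    False := by
  classical
  let _ := starAlg47 K Ω
  set vt : (i : Fin h) → ℕ → Ix (q i) → ∀ m, Ω m :=
    fun i l t m => if hl : l < m then v m i ⟨l, hl⟩ t else 0 with hvt
  have hge : ∀ M : ℕ, ∀ᶠ m in (hyperfilter ℕ : Filter ℕ), M < m := fun M =>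
    (eventually_gt_atTop M).filter_mono Nat.hyperfilter_le_atTop
  set U : Submodule (Star47 K) (Star47 Ω) :=
    Submodule.span (Star47 K) (Set.range (fun j => mk47 Ω (fun m => f m j))) with hU
  have hUfin : FiniteDimensional (Star47 K) U :=
    FiniteDimensional.span_of_finite _ (Set.finite_range _)
  have h1 := hB (Star47 K) (Star47 Ω) U d h r q D (fun t => mk47 Ω (fun m => y m t))
    (fun i l t => mk47 Ω (vt i l t)) ?_ ?_ hD ?_
  · omega
  · intro S c t
    have h2 : mk47 Ω (fun m => y m t) + ∑ i ∈ S, mk47 Ω (vt i (c i) (t i)) =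
        mk47 Ω ((fun m => y m t) + ∑ i ∈ S, vt i (c i) (t i)) := by
      rw [map_add, map_sum]
    show Cx U d (mk47 Ω (fun m => y m t) + ∑ i ∈ S, mk47 Ω (vt i (c i) (t i)))
    rw [h2]
    apply cx_up47 (fun j m => f m j)
    filter_upwards [hge (∑ i, c i)] with m hm
    have hc : ∀ i, c i < m := fun i =>
      lt_of_le_of_lt (Finset.single_le_sum (f := c) (fun _ _ => Nat.zero_le _)
        (Finset.mem_univ i)) hm
    have h3 := hcx m S (fun i => ⟨c i, hc i⟩) t
    have h4 : ((fun m => y m t) + ∑ i ∈ S, vt i (c i) (t i)) m =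
        y m t + ∑ i ∈ S, v m i ⟨c i, hc i⟩ (t i) := by
      rw [Pi.add_apply, Finset.sum_apply]
      congr 1
      apply Finset.sum_congr rfl
      intro i _
      simp only [hvt]
      rw [dif_pos (hc i)]
    rw [h4]
    exact h3
  · intro i l s t
    show ∑ b : Fin (q i s), mk47 Ω (vt i l (Function.update t s b)) = 0
    rw [← map_sum, mk47_zero]
    filter_upwards with m
    rw [Finset.sum_apply]
    simp only [hvt]
    by_cases hl : l < m
    · simp only [dif_pos hl]
      exact hzl m i ⟨l, hl⟩ s t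
    · simp only [dif_neg hl]
      exact Finset.sum_const_zero
  · intro i
    exact sr_up36 (κ := Ix (fun s => q i s - 1)) K Ω
      (fun m l s => v m i l (bas (q i) s)) (fun m => hsr m i)
      (fun l s => vt i l (bas (q i) s)) (by
        intro l s m hl
        simp only [hvt]
        rw [dif_pos hl])

theorem finV_36 (hB : StInfV) : StFinV := by
  intro N d h r q D hD hd
  by_contra hcon
  push Not at hcon
  have hE : ∀ m, Nonempty (Dat36 N d h r q m) := by
    intro m
    obtain ⟨k, Ω, fk, ck, fΩ, aΩ, alg, f, y, v, hzl, hsr, hcx⟩ := hcon m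
    exact ⟨⟨k, Ω, f, y, v, hzl, hsr, hcx⟩⟩
  have E : ∀ m, Dat36 N d h r q m := fun m => (hE m).some
  exact ultraV36 hB hD hd (fun m => (E m).k) (fun m => (E m).Ω) (fun m => (E m).f)
    (fun m => (E m).y) (fun m => (E m).v) (fun m => (E m).zl) (fun m => (E m).sr)
    (fun m => (E m).cx)

end Pool.Agent.Lib.MP_c50dba_nt.BX
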