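import Pool.Agent.Lib.MP_c50dba_nt.BX.Stmts

set_option autoImplicit false

/-!
BOXES, module B4: the Galois part. Choice of the elements with an iterated nonprincipal
ultrafilter, conjugates with commuting moves.
-/

namespace Pool.Agent.Lib.MP_c50dba_nt.BX

open Module Filter

/-- Iterated ultrafilter. -/
noncomputable def W66 (U : Ultrafilter ℕ) : (h : ℕ) → Ultrafilter (Fin h → ℕ)
  | 0 => pure Fin.elim0
  | h + 1 => U.bind (fun l => (W66 U h).map (Fin.cons l))

theorem W66_succ (U : Ultrafilter ℕ) (h : ℕ) (P : (Fin (h + 1) → ℕ) → Prop) :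
    (∀ᶠ c in (W66 U (h + 1) : Filter (Fin (h + 1) → ℕ)), P c) ↔
      ∀ᶠ l in (U : Filter ℕ), ∀ᶠ c in (W66 U h : Filter (Fin h → ℕ)), P (Fin.cons l c) := by
  have h1 : (W66 U (h + 1) : Filter (Fin (h + 1) → ℕ)) =
      Filter.bind (U : Filter ℕ) (fun l => Filter.map (Fin.cons l) (W66 U h : Filter (Fin h → ℕ))) :=
    rfl
  rw [h1, eventually_bind]
  rfl

variable {F Ω : Type} [Field F] [Field Ω] [Algebra F Ω]

/-- Degree bound for fields generated by finitely many elements. -/
theorem adjoin_bound66 (D : ℕ) (S : Finset Ω) :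
    (∀ x ∈ S, IsIntegral F x ∧ (minpoly F x).natDegree ≤ D) →
    FiniteDimensional F (IntermediateField.adjoin F (S : Set Ω)) ∧
      finrank F (IntermediateField.adjoin F (S : Set Ω)) ≤ D ^ S.card := by
  classical
  induction S using Finset.induction_on with
  | empty =>
    intro _
    rw [Finset.coe_empty, IntermediateField.adjoin_empty]
    refine ⟨inferInstance, ?_⟩
    rw [IntermediateField.finrank_bot]
    simp
  | insert x S hx ih =>
    intro h
    obtain ⟨h1, h2⟩ := ih fun z hz => h z (Finset.mem_insert_of_mem hz)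
    obtain ⟨h3, h4⟩ := h x (Finset.mem_insert_self x S)
    have h5 : IntermediateField.adjoin F ((insert x S : Finset Ω) : Set Ω) =
        IntermediateField.adjoin F {x} ⊔ IntermediateField.adjoin F (S : Set Ω) := by
      rw [Finset.coe_insert, Set.insert_eq, IntermediateField.adjoin_union]
    have h6 : FiniteDimensional F (IntermediateField.adjoin F {x}) :=
      IntermediateField.adjoin.finiteDimensional h3
    rw [h5]
    refine ⟨inferInstance, ?_⟩
    rw [Finset.card_insert_of_notMem hx, pow_succ, mul_comm]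
    refine le_trans (IntermediateField.finrank_sup_le _ _) (Nat.mul_le_mul ?_ h2)
    rw [IntermediateField.adjoin.finrank h3]
    exact h4

/-- An infinite family of which all finite parts are in fields of bounded degree is in a finite
extension. -/
theorem bounded66 (B : ℕ) (u : ℕ → Ω) (A : Set ℕ)
    (h : ∀ T : Finset ℕ, (T : Set ℕ) ⊆ A → ∃ E : IntermediateField F Ω, FiniteDimensional F E ∧
      finrank F E ≤ B ∧ ∀ l ∈ T, u l ∈ E) :
    ∃ M : IntermediateField F Ω, FiniteDimensional F M ∧ ∀ l ∈ A, u l ∈ M := by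
  classical
  have h0 : ∀ T : Finset ℕ, (T : Set ℕ) ⊆ A →
      FiniteDimensional F (IntermediateField.adjoin F (u '' (T : Set ℕ))) ∧
        finrank F (IntermediateField.adjoin F (u '' (T : Set ℕ))) ≤ B := by
    intro T hT
    obtain ⟨E, hE1, hE2, hE3⟩ := h T hT
    have h1 : IntermediateField.adjoin F (u '' (T : Set ℕ)) ≤ E := by
      rw [IntermediateField.adjoin_le_iff]
      rintro _ ⟨l, hl, rfl⟩
      exact hE3 l hl
    have h2 := Submodule.finrank_mono (R := F) (M := Ω)
      (s := Subalgebra.toSubmodule (IntermediateField.adjoin F (u '' (T : Set ℕ))).toSubalgebra)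
      (t := Subalgebra.toSubmodule E.toSubalgebra) h1
    exact ⟨Module.Finite.of_injective (IntermediateField.inclusion h1).toLinearMap
      (IntermediateField.inclusion h1).injective, le_trans h2 hE2⟩
  let P : ℕ → Prop := fun n => ∃ T : Finset ℕ, (T : Set ℕ) ⊆ A ∧
    finrank F (IntermediateField.adjoin F (u '' (T : Set ℕ))) = n
  have hP : ∃ n, P n := ⟨_, ∅, by simp, rfl⟩
  have hPB : ∀ n, P n → n ≤ B := by
    rintro n ⟨T, hT, rfl⟩
    exact (h0 T hT).2
  obtain ⟨n0, hn0⟩ := hP
  obtain ⟨T, hT, hTn⟩ := Nat.findGreatest_spec (P := P) (hPB n0 hn0) hn0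
  refine ⟨IntermediateField.adjoin F (u '' (T : Set ℕ)), (h0 T hT).1, ?_⟩
  intro l hl
  have hT' : ((insert l T : Finset ℕ) : Set ℕ) ⊆ A := by
    rw [Finset.coe_insert]
    exact Set.insert_subset hl hT
  have h1 : IntermediateField.adjoin F (u '' (T : Set ℕ)) ≤
      IntermediateField.adjoin F (u '' ((insert l T : Finset ℕ) : Set ℕ)) := by
    apply IntermediateField.adjoin.mono
    apply Set.image_mono
    simp
  have h2 : finrank F (IntermediateField.adjoin F (u '' ((insert l T : Finset ℕ) : Set ℕ))) ≤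
      finrank F (IntermediateField.adjoin F (u '' (T : Set ℕ))) := by
    rw [hTn]
    exact Nat.le_findGreatest (h0 _ hT').2 ⟨_, hT', rfl⟩
  have := (h0 _ hT').1
  have h3 := IntermediateField.eq_of_le_of_finrank_le h1 h2
  rw [h3]
  apply IntermediateField.subset_adjoin
  exact ⟨l, by simp, rfl⟩

/-- The choice lemma. -/
theorem choice66 (U : Ultrafilter ℕ) (hU : ∀ s : Set ℕ, s.Finite → s ∉ U) (B : ℕ) (u : ℕ → Ω)
    (hu : ∀ M : IntermediateField F Ω, FiniteDimensional F M → {l | u l ∈ M}.Finite) (h : ℕ) :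
    ∀ (i : Fin h) (E : (Fin h → ℕ) → IntermediateField F Ω),
      (∀ c l, E (Function.update c i l) = E c) →
      (∀ c, FiniteDimensional F (E c) ∧ finrank F (E c) ≤ B) →
      ∀ᶠ c in (W66 U h : Filter (Fin h → ℕ)), u (c i) ∉ E c := by
  induction h with
  | zero => exact fun i => i.elim0
  | succ h ih =>
    intro i E hE hB
    rw [W66_succ]
    refine Fin.cases ?_ (fun i' => ?_) i (motive := fun i => (∀ c l, E (Function.update c i l) = E c) →
      ∀ᶠ l in (U : Filter ℕ), ∀ᶠ c in (W66 U h : Filter (Fin h → ℕ)),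
        u ((Fin.cons l c : Fin (h + 1) → ℕ) i) ∉ E (Fin.cons l c)) hE
    · intro hE0
      by_contra hcon
      rw [← Ultrafilter.eventually_not] at hcon
      have hcon2 : ∀ᶠ l in (U : Filter ℕ), ∀ᶠ c in (W66 U h : Filter (Fin h → ℕ)),
          u l ∈ E (Fin.cons 0 c) := by
        filter_upwards [hcon] with l hl
        rw [← Ultrafilter.eventually_not] at hl
        filter_upwards [hl] with c hc
        rw [not_not] at hc
        have h1 := hE0 (Fin.cons l c) 0
        rw [Fin.update_cons_zero] at h1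
        rw [h1]
        exact hc
      obtain ⟨M, hM1, hM2⟩ := bounded66 B u
        {l | ∀ᶠ c in (W66 U h : Filter (Fin h → ℕ)), u l ∈ E (Fin.cons 0 c)} (by
          intro T hT
          have h1 : ∀ᶠ c in (W66 U h : Filter (Fin h → ℕ)), ∀ l ∈ T, u l ∈ E (Fin.cons 0 c) := by
            rw [Filter.eventually_all_finset]
            exact fun l hl => hT hl
          obtain ⟨c, hc⟩ := h1.exists
          exact ⟨E (Fin.cons 0 c), (hB _).1, (hB _).2, hc⟩)
      exact hU _ ((hu M hM1).subset hM2) hcon2
    · intro hEi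
      refine Eventually.of_forall fun l => ?_
      have h1 := ih i' (fun c => E (Fin.cons l c)) (by
        intro c m
        have h2 := hEi (Fin.cons l c) m
        rw [← Fin.cons_update] at h2
        exact h2) (fun c => hB _)
      simpa using h1

/-- An automorphism cannot translate. -/
theorem no_translation66 [CharZero F] [Algebra.IsAlgebraic F Ω] (σ : Ω ≃ₐ[F] Ω) (x v : Ω)
    (hx : σ x = x + v) (hv : σ v = v) : v = 0 := by
  by_contra hne
  have : CharZero Ω := charZero_of_injective_algebraMap (algebraMap F Ω).injective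
  have h1 : ∀ m : ℕ, Polynomial.aeval (x + m * v) (minpoly F x) = 0 := by
    intro m
    induction m with
    | zero => simp
    | succ m ih =>
      have h2 := congrArg σ ih
      have h2' := Polynomial.aeval_algHom_apply (σ : Ω →ₐ[F] Ω)
        (x + m * v) (minpoly F x)
      rw [map_zero] at h2
      replace h2 := h2'.trans h2
      have h3 : (σ : Ω →ₐ[F] Ω) (x + m * v) = x + ((m + 1 : ℕ) : Ω) * v := by
        change σ (x + m * v) = _
        rw [map_add, map_mul, map_natCast, hx, hv]
        push_cast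
        ring
      rwa [h3] at h2
  have hint : IsIntegral F x := Algebra.IsIntegral.isIntegral x
  have h4 : (minpoly F x).map (algebraMap F Ω) ≠ 0 :=
    Polynomial.map_ne_zero (minpoly.ne_zero hint)
  have h5 : Set.Finite {z : Ω | Polynomial.eval z
      ((minpoly F x).map (algebraMap F Ω)) = 0} :=
    Polynomial.finite_setOfPred_isRoot h4
  refine Set.infinite_of_injective_forall_mem (f := fun m : ℕ => x + m * v) ?_ ?_ h5
  · intro m m' hmm
    simp only [add_right_inj] at hmm
    exact_mod_cast mul_right_cancel₀ hne hmm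
  · intro m
    rw [Set.mem_ofPred_eq, Polynomial.eval_map_algebraMap]
    exact h1 m

/-- The conjugates of an element. -/
noncomputable def conj66 (F : Type) {Ω : Type} [Field F] [Field Ω] [Algebra F Ω] [DecidableEq Ω]
    (z : Ω) : Finset Ω := ((minpoly F z).aroots Ω).toFinset

theorem mem_conj66 [DecidableEq Ω] {z w : Ω} (hz : IsIntegral F z) :
    w ∈ conj66 F z ↔ Polynomial.aeval w (minpoly F z) = 0 := by
  rw [conj66, Multiset.mem_toFinset, Polynomial.mem_aroots]
  exact ⟨fun h => h.2, fun h => ⟨minpoly.ne_zero hz, h⟩⟩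

theorem self_mem_conj66 [DecidableEq Ω] {z : Ω} (hz : IsIntegral F z) : z ∈ conj66 F z := by
  rw [mem_conj66 hz]
  exact minpoly.aeval F z

theorem card_conj66 [DecidableEq Ω] (z : Ω) : (conj66 F z).card ≤ (minpoly F z).natDegree := by
  refine le_trans (Multiset.toFinset_card_le _) ?_
  refine le_trans (Polynomial.card_roots' _) ?_
  exact Polynomial.natDegree_map_le

theorem conj66_deg [DecidableEq Ω] {z w : Ω} (hz : IsIntegral F z) (hw : w ∈ conj66 F z) :
    IsIntegral F w ∧ (minpoly F w).natDegree ≤ (minpoly F z).natDegree := by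
  rw [mem_conj66 hz] at hw
  have h1 : minpoly F w = minpoly F z :=
    (minpoly.eq_of_irreducible_of_monic (minpoly.irreducible hz) hw (minpoly.monic hz)).symm
  exact ⟨⟨minpoly F z, minpoly.monic hz, hw⟩, (congrArg Polynomial.natDegree h1).le⟩

theorem map_mem_conj66 [DecidableEq Ω] {z : Ω} (hz : IsIntegral F z) (σ : Ω ≃ₐ[F] Ω) :
    σ z ∈ conj66 F z := by
  rw [mem_conj66 hz]
  have h := Polynomial.aeval_algHom_apply (σ : Ω →ₐ[F] Ω) z (minpoly F z)
  rw [minpoly.aeval, map_zero] at h
  exact h

/-- The algebraic case. -/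
theorem galAlg66 [CharZero F] [IsAlgClosed Ω] [Algebra.IsAlgebraic F Ω] (h D : ℕ) (y : Ω)
    (v : Fin h → ℕ → Ω) (hD : ∀ i l, (minpoly F (v i l)).natDegree ≤ D)
    (hfin : ∀ i, ∀ M : IntermediateField F Ω, FiniteDimensional F M → {l | v i l ∈ M}.Finite) :
    ∃ c : Fin h → ℕ, 2 ^ h ≤ (minpoly F (y + ∑ i, v i (c i))).natDegree := by
  classical
  have hcl : IsAlgClosure F Ω := ⟨inferInstance, inferInstance⟩
  have hgal : IsGalois F Ω :=
    { to_isSeparable := Algebra.IsAlgebraic.isSeparable_of_perfectField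
      to_normal := IsAlgClosure.normal F Ω }
  have hint : ∀ z : Ω, IsIntegral F z := fun z => Algebra.IsIntegral.isIntegral z
  set D' : ℕ := max D (minpoly F y).natDegree + 1 with hD'
  let S : Fin h → (Fin h → ℕ) → Finset Ω := fun i c =>
    conj66 F y ∪ (Finset.univ.erase i).biUnion (fun j => conj66 F (v j (c j)))
  have hcard : ∀ i c, (S i c).card ≤ D' + h * D' := by
    intro i c
    refine le_trans (Finset.card_union_le _ _) (Nat.add_le_add ?_ ?_)
    · exact le_trans (card_conj66 y) (by omega)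
    · refine le_trans (Finset.card_biUnion_le_card_mul _ _ D' ?_) (Nat.mul_le_mul_right _ ?_)
      · intro j _
        exact le_trans (card_conj66 _) (le_trans (hD j _) (by omega))
      · exact le_trans (Finset.card_le_univ _) (by simp)
  have hdeg : ∀ i c, ∀ x ∈ S i c, IsIntegral F x ∧ (minpoly F x).natDegree ≤ D' := by
    intro i c x hx
    refine ⟨hint x, ?_⟩
    rw [Finset.mem_union, Finset.mem_biUnion] at hx
    rcases hx with hx | ⟨j, _, hx⟩
    · exact le_trans (conj66_deg (hint _) hx).2 (by omega)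
    · exact le_trans (conj66_deg (hint _) hx).2 (le_trans (hD j _) (by omega))
  have hall : ∀ i, ∀ᶠ c in (W66 (hyperfilter ℕ) h : Filter (Fin h → ℕ)),
      v i (c i) ∉ IntermediateField.adjoin F (S i c : Set Ω) := by
    intro i
    refine choice66 (F := F) (hyperfilter ℕ) (fun s hs => hs.notMem_hyperfilter)
      (D' ^ (D' + h * D')) (v i) (hfin i) h i (fun c => IntermediateField.adjoin F (S i c : Set Ω))
      ?_ ?_
    · intro c l
      have h1 : S i (Function.update c i l) = S i c := by
        simp only [S]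
        congr 1
        apply Finset.biUnion_congr rfl
        intro j hj
        rw [Function.update_of_ne (Finset.ne_of_mem_erase hj)]
      simp only [h1]
    · intro c
      obtain ⟨h1, h2⟩ := adjoin_bound66 (F := F) D' (S i c) (hdeg i c)
      exact ⟨h1, le_trans h2 (Nat.pow_le_pow_right (by omega) (hcard i c))⟩
  rw [← Filter.eventually_all] at hall
  obtain ⟨c, hc⟩ := hall.exists
  refine ⟨c, ?_⟩
  set w : Fin h → Ω := fun i => v i (c i) with hw
  have hex : ∀ i, ∃ σ : Ω ≃ₐ[F] Ω, (∀ z ∈ S i c, σ z = z) ∧ σ (w i) ≠ w i := by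
    intro i
    by_contra hcon
    push Not at hcon
    apply hc i
    have h1 := InfiniteGalois.fixedField_fixingSubgroup (k := F) (K := Ω)
      (IntermediateField.adjoin F (S i c : Set Ω))
    rw [← h1, IntermediateField.mem_fixedField_iff]
    intro σ hσ
    apply hcon σ
    intro z hz
    exact (IntermediateField.mem_fixingSubgroup_iff _ σ).1 hσ z
      (IntermediateField.subset_adjoin F _ hz)
  choose σ hσ1 hσ2 using hex
  have hSy : ∀ i, y ∈ S i c := fun i => Finset.mem_union_left _ (self_mem_conj66 (hint y))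
  have hSw : ∀ i j, j ≠ i → ∀ z ∈ conj66 F (w j), z ∈ S i c := by
    intro i j hji z hz
    apply Finset.mem_union_right
    rw [Finset.mem_biUnion]
    exact ⟨j, Finset.mem_erase.2 ⟨hji, Finset.mem_univ j⟩, hz⟩
  have h1 : ∀ i j, j ≠ i → σ i (w j) = w j := fun i j hji =>
    hσ1 i _ (hSw i j hji _ (self_mem_conj66 (hint _)))
  have h2 : ∀ i j, j ≠ i → σ i (σ j (w j)) = σ j (w j) := fun i j hji =>
    hσ1 i _ (hSw i j hji _ (map_mem_conj66 (hint _) _))
  set δ : Fin h → Ω := fun i => σ i (w i) - w i with hδ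
  have h3 : ∀ i j, j ≠ i → σ i (δ j) = δ j := by
    intro i j hji
    simp only [hδ]
    rw [map_sub, h1 i j hji, h2 i j hji]
  have h4 : ∀ i, σ i (δ i) ≠ δ i := by
    intro i hi
    have h5 := no_translation66 (σ i) (w i) (δ i) (by simp only [hδ]; ring) hi
    exact hσ2 i (sub_eq_zero.1 h5)
  -- the automorphisms
  have h5 : ∀ T : Finset (Fin h), ∃ τ : Ω ≃ₐ[F] Ω, τ y = y ∧
      ∀ j, τ (w j) = w j + if j ∈ T then δ j else 0 := by
    intro T
    induction T using Finset.induction_on with
    | empty => exact ⟨AlgEquiv.refl, rfl, fun j => by simp⟩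
    | insert i T hi ih =>
      obtain ⟨τ, hτ1, hτ2⟩ := ih
      refine ⟨τ.trans (σ i), ?_, ?_⟩
      · rw [AlgEquiv.trans_apply, hτ1, hσ1 i y (hSy i)]
      · intro j
        rw [AlgEquiv.trans_apply, hτ2 j]
        rcases eq_or_ne j i with rfl | hji
        · rw [if_neg hi, add_zero, if_pos (Finset.mem_insert_self _ _)]
          simp only [hδ]
          ring
        · rw [map_add, h1 i j hji]
          by_cases hjT : j ∈ T
          · rw [if_pos hjT, h3 i j hji, if_pos (Finset.mem_insert_of_mem hjT)]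
          · rw [if_neg hjT, map_zero, if_neg]
            rw [Finset.mem_insert, not_or]
            exact ⟨hji, hjT⟩
  set x : Ω := y + ∑ i, w i with hx
  have h6 : ∀ T : Finset (Fin h), x + ∑ i ∈ T, δ i ∈ conj66 F x := by
    intro T
    obtain ⟨τ, hτ1, hτ2⟩ := h5 T
    have h7 : τ x = x + ∑ i ∈ T, δ i := by
      rw [hx, map_add, map_sum, hτ1]
      simp_rw [hτ2]
      rw [Finset.sum_add_distrib, Finset.sum_ite_mem, Finset.univ_inter]
      ring
    rw [← h7]
    exact map_mem_conj66 (hint x) τ
  have h7 : ∀ T T' : Finset (Fin h), ∑ i ∈ T, δ i = ∑ i ∈ T', δ i → T ⊆ T' := by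
    intro T T' hTT i hi
    by_contra hi'
    have h8 := congrArg (σ i) hTT
    rw [map_sum, map_sum, ← Finset.add_sum_erase T _ hi] at h8
    have h9 : ∑ j ∈ T.erase i, σ i (δ j) = ∑ j ∈ T.erase i, δ j :=
      Finset.sum_congr rfl fun j hj => h3 i j (Finset.ne_of_mem_erase hj)
    have h10 : ∑ j ∈ T', σ i (δ j) = ∑ j ∈ T', δ j :=
      Finset.sum_congr rfl fun j hj => h3 i j (fun hji => hi' (hji ▸ hj))
    rw [h9, h10, ← hTT, ← Finset.add_sum_erase T _ hi] at h8
    exact h4 i (add_right_cancel h8)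
  have h8 : (Finset.univ : Finset (Finset (Fin h))).card ≤ (conj66 F x).card := by
    apply Finset.card_le_card_of_injOn (fun T => x + ∑ i ∈ T, δ i)
    · intro T _
      exact h6 T
    · intro T _ T' _ hTT
      have h9 : ∑ i ∈ T, δ i = ∑ i ∈ T', δ i := add_left_cancel hTT
      exact Finset.Subset.antisymm (h7 _ _ h9) (h7 _ _ h9.symm)
  rw [Finset.card_univ, Fintype.card_finset, Fintype.card_fin] at h8
  exact le_trans h8 (card_conj66 x)

/-- B4. -/
theorem gal_66 : StGal := by
  intro F Ω _ _ _ _ _ h D y v hy hv hfin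
  let Ω' : IntermediateField F Ω := algebraicClosure F Ω
  have hcl : IsAlgClosure F Ω' := algebraicClosure.isAlgClosure F Ω
  have hcl1 : IsAlgClosed Ω' := hcl.isAlgClosed
  have hcl2 : Algebra.IsAlgebraic F Ω' := hcl.isAlgebraic
  have hv' : ∀ i l, v i l ∈ Ω' := fun i l => mem_algebraicClosure_iff.2 (hv i l).1
  have hy' : y ∈ Ω' := mem_algebraicClosure_iff.2 hy
  have hmin : ∀ z : Ω', (minpoly F (z : Ω)) = minpoly F z := fun z =>
    minpoly.algebraMap_eq (algebraMap Ω' Ω).injective z
  obtain ⟨c, hc⟩ := galAlg66 (F := F) (Ω := Ω') h D ⟨y, hy'⟩ (fun i l => ⟨v i l, hv' i l⟩)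
    (fun i l => by rw [← hmin]; exact (hv i l).2)
    (fun i M hM => by
      have h1 : FiniteDimensional F (IntermediateField.lift M) :=
        LinearEquiv.finiteDimensional (IntermediateField.liftAlgEquiv M).toLinearEquiv
      refine (hfin i (IntermediateField.lift M) h1).subset ?_
      intro l hl
      exact (IntermediateField.mem_lift (⟨v i l, hv' i l⟩ : Ω')).2 hl)
  refine ⟨c, ?_⟩
  rw [← hmin] at hc
  have h2 : (((⟨y, hy'⟩ : Ω') + ∑ i, (⟨v i (c i), hv' i (c i)⟩ : Ω') : Ω') : Ω) =
      y + ∑ i, v i (c i) := by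
    rw [IntermediateField.coe_add, IntermediateField.coe_sum]
  rw [h2] at hc
  exact hc

end Pool.Agent.Lib.MP_c50dba_nt.BX
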