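import Pool.Agent.Lib.MP_c50dba_nt.BX.Stmts

set_option autoImplicit false

/-!
B2 of the BOXES project: elements of bounded complexity of a finitely generated field are
quotients of elements of a finite dimensional space.
-/

namespace Pool.Agent.Lib.MP_c50dba_nt.BX

open Module
open scoped IntermediateField

theorem Cx_mono69 {k Ω : Type} [Field k] [Field Ω] [Algebra k Ω] {U U' : Submodule k Ω}
    {d d' : ℕ} {z : Ω} (hU : U ≤ U') (hd : d ≤ d') (h : Cx U d z) : Cx U' d' z := by
  obtain ⟨P, h0, h1, h2, h3⟩ := h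
  exact ⟨P, h0, h1.trans hd, fun j => hU (h2 j), h3⟩

theorem Cx_map69 {k E Ω : Type} [Field k] [Field E] [Field Ω] [Algebra k E] [Algebra k Ω]
    (f : E →ₐ[k] Ω) {U : Submodule k E} {d : ℕ} {z : E} (h : Cx U d z) :
    Cx (U.map f.toLinearMap) d (f z) := by
  obtain ⟨P, h0, h1, h2, h3⟩ := h
  refine ⟨P.map (f : E →+* Ω), ?_, ?_, ?_, ?_⟩
  · exact (Polynomial.map_ne_zero_iff (f : E →+* Ω).injective).2 h0
  · exact (Polynomial.natDegree_map_le).trans h1
  · intro j
    rw [Polynomial.coeff_map]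
    exact ⟨_, h2 j, rfl⟩
  · have h4 : (P.map (f : E →+* Ω)).eval ((f : E →+* Ω) z) = (f : E →+* Ω) (P.eval z) :=
      Polynomial.eval_map_apply _ _
    change (P.map (f : E →+* Ω)).eval ((f : E →+* Ω) z) = 0
    rw [h4, h3, map_zero]

theorem Cx_const69 {k Ω : Type} [Field k] [Field Ω] [Algebra k Ω] {U : Submodule k Ω}
    {c : Ω} (h1 : (1 : Ω) ∈ U) (hc : c ∈ U) : Cx U 1 c := by
  refine ⟨Polynomial.X - Polynomial.C c, Polynomial.X_sub_C_ne_zero c,
    (Polynomial.natDegree_X_sub_C c).le, ?_, by simp⟩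
  intro j
  rw [Polynomial.coeff_sub, Polynomial.coeff_X, Polynomial.coeff_C]
  refine Submodule.sub_mem _ ?_ ?_
  · split_ifs
    · exact h1
    · exact U.zero_mem
  · split_ifs
    · exact hc
    · exact U.zero_mem

/-- A quotient of two elements of `W`. -/
def QW69 {k Ω : Type} [Field k] [Field Ω] [Algebra k Ω] (W : Submodule k Ω) (z : Ω) : Prop :=
  ∃ A ∈ W, ∃ B ∈ W, B ≠ 0 ∧ z * B = A

theorem QW_mono69 {k Ω : Type} [Field k] [Field Ω] [Algebra k Ω] {W W' : Submodule k Ω}
    {z : Ω} (hW : W ≤ W') (h : QW69 W z) : QW69 W' z := by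
  obtain ⟨A, hA, B, hB, h0, h1⟩ := h
  exact ⟨A, hW hA, B, hW hB, h0, h1⟩

theorem QW_map69 {k E Ω : Type} [Field k] [Field E] [Field Ω] [Algebra k E] [Algebra k Ω]
    (f : E →ₐ[k] Ω) {W : Submodule k E} {z : E} (h : QW69 W z) :
    QW69 (W.map f.toLinearMap) (f z) := by
  obtain ⟨A, hA, B, hB, h0, h1⟩ := h
  refine ⟨f A, ⟨A, hA, rfl⟩, f B, ⟨B, hB, rfl⟩, ?_, ?_⟩
  · exact (map_ne_zero_iff f (f : E →+* Ω).injective).2 h0
  · rw [← map_mul, h1]

theorem QW_add69 {k Ω : Type} [Field k] [Field Ω] [Algebra k Ω] {W W' : Submodule k Ω}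
    {z z' : Ω} (h : QW69 W z) (h' : QW69 W' z') : QW69 (W * W') (z + z') := by
  obtain ⟨A, hA, B, hB, h0, h1⟩ := h
  obtain ⟨A', hA', B', hB', h0', h1'⟩ := h'
  refine ⟨A * B' + B * A', Submodule.add_mem _ (Submodule.mul_mem_mul hA hB')
    (Submodule.mul_mem_mul hB hA'), B * B', Submodule.mul_mem_mul hB hB', mul_ne_zero h0 h0', ?_⟩
  rw [← h1, ← h1']
  ring

theorem QW_cmul69 {k Ω : Type} [Field k] [Field Ω] [Algebra k Ω] {W : Submodule k Ω}
    {z : Ω} (c : Ω) (h : QW69 W z) :
    QW69 (W ⊔ W.map (LinearMap.mulLeft k c)) (z * c) := by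
  obtain ⟨A, hA, B, hB, h0, h1⟩ := h
  refine ⟨c * A, Submodule.mem_sup_right ⟨A, hA, rfl⟩, B, Submodule.mem_sup_left hB, h0, ?_⟩
  rw [← h1]
  ring

theorem QW_sum69 {k Ω : Type} [Field k] [Field Ω] [Algebra k Ω] {ι : Type} (s : Finset ι)
    (W : ι → Submodule k Ω) (hW : ∀ i, FiniteDimensional k (W i)) :
    ∃ W' : Submodule k Ω, FiniteDimensional k W' ∧
      ∀ f : ι → Ω, (∀ i ∈ s, QW69 (W i) (f i)) → QW69 W' (∑ i ∈ s, f i) := by
  classical
  induction s using Finset.induction_on with
  | empty =>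
    refine ⟨Submodule.span k {1}, inferInstance, fun f _ => ?_⟩
    rw [Finset.sum_empty]
    exact ⟨0, Submodule.zero_mem _, 1, Submodule.mem_span_singleton_self 1, one_ne_zero,
      zero_mul _⟩
  | insert a s ha ih =>
    obtain ⟨W', hW', h⟩ := ih
    refine ⟨W a * W', ?_, fun f hf => ?_⟩
    · have h1 := hW a
      rw [← Submodule.fg_iff_finiteDimensional] at h1 hW' ⊢
      exact h1.mul hW'
    · rw [Finset.sum_insert ha]
      exact QW_add69 (hf a (Finset.mem_insert_self _ _))
        (h f fun i hi => hf i (Finset.mem_insert_of_mem hi))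

theorem pow_fd69 {k Ω : Type} [Field k] [Field Ω] [Algebra k Ω] (U : Submodule k Ω)
    (hU : FiniteDimensional k U) (n : ℕ) : FiniteDimensional k (U ^ n : Submodule k Ω) := by
  rw [← Submodule.fg_iff_finiteDimensional] at hU ⊢
  exact hU.pow n

theorem Cx_sum69 (h1 : StCl) {k Ω : Type} [Field k] [Field Ω] [Algebra k Ω] {ι : Type}
    (s : Finset ι) (V : Submodule k Ω) (hV : FiniteDimensional k V) (D : ℕ) :
    ∃ (V' : Submodule k Ω) (D' : ℕ), FiniteDimensional k V' ∧
      ∀ f : ι → Ω, (∀ i ∈ s, Cx V D (f i)) → Cx V' D' (∑ i ∈ s, f i) := by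
  classical
  induction s using Finset.induction_on with
  | empty =>
    refine ⟨Submodule.span k {1}, 1, inferInstance, fun f _ => ?_⟩
    rw [Finset.sum_empty]
    exact Cx_const69 (Submodule.mem_span_singleton_self 1) (Submodule.zero_mem _)
  | insert a s ha ih =>
    obtain ⟨V', D', hV', h⟩ := ih
    refine ⟨(V ⊔ V') ^ (2 * (max D D' * max D D')), max D D' * max D D', ?_, fun f hf => ?_⟩
    · exact pow_fd69 _ inferInstance _
    · rw [Finset.sum_insert ha]
      exact (h1 k Ω (V ⊔ V') (max D D') (f a) (∑ i ∈ s, f i)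
        (Cx_mono69 le_sup_left (le_max_left _ _) (hf a (Finset.mem_insert_self _ _)))
        (Cx_mono69 le_sup_right (le_max_right _ _)
          (h f fun i hi => hf i (Finset.mem_insert_of_mem hi)))).1

/-- Complexity descends to subfields. -/
theorem descent_69 {k E Ω : Type} [Field k] [Field E] [Field Ω] [Algebra k E] [Algebra k Ω]
    [Algebra E Ω] [IsScalarTower k E Ω] (U : Submodule k Ω) (hU : FiniteDimensional k U) :
    ∃ V : Submodule k E, FiniteDimensional k V ∧
      ∀ (d : ℕ) (z : E), Cx U d (algebraMap E Ω z) → Cx V d z := by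
  classical
  let b := Module.Basis.ofVectorSpace E Ω
  obtain ⟨S, hS⟩ := (Submodule.fg_iff_finiteDimensional U).2 hU
  let T : Finset E := S.biUnion (fun u => (b.repr u).support.image (fun j => b.repr u j))
  let V : Submodule k E := Submodule.span k (T : Set E)
  have hcoord : ∀ j, ∀ u ∈ U, b.coord j u ∈ V := by
    intro j u hu
    have h2 : U ≤ V.comap ((b.coord j).restrictScalars k) := by
      rw [← hS, Submodule.span_le]
      intro u hu
      change b.repr u j ∈ V
      by_cases h0 : b.repr u j = 0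
      · rw [h0]
        exact V.zero_mem
      · apply Submodule.subset_span
        exact Finset.mem_coe.2 (Finset.mem_biUnion.2 ⟨u, hu, Finset.mem_image.2
          ⟨j, Finsupp.mem_support_iff.2 h0, rfl⟩⟩)
    exact h2 hu
  refine ⟨V, ?_, ?_⟩
  · rw [← Submodule.fg_iff_finiteDimensional]
    exact ⟨T, rfl⟩
  intro d z h
  obtain ⟨P, h0, h1, h2, h3⟩ := h
  -- a coordinate
  obtain ⟨i0, hi0⟩ : ∃ i, P.coeff i ≠ 0 := by
    by_contra hcon
    push Not at hcon
    exact h0 (Polynomial.ext (by simpa using hcon))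
  obtain ⟨j, hj⟩ : ∃ j, b.coord j (P.coeff i0) ≠ 0 := by
    by_contra hcon
    push Not at hcon
    apply hi0
    have := (Basis.ext_elem_iff b (x := P.coeff i0) (y := 0)).2 (fun j => by
      have := hcon j
      rw [Basis.coord_apply] at this
      rw [this, map_zero]
      rfl)
    exact this
  have hi0d : i0 < d + 1 := by
    have := Polynomial.le_natDegree_of_ne_zero hi0
    omega
  let Q : Polynomial E := ∑ i ∈ Finset.range (d + 1),
    Polynomial.monomial i (b.coord j (P.coeff i))
  have hQc : ∀ m, Q.coeff m = if m < d + 1 then b.coord j (P.coeff m) else 0 := by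
    intro m
    change (∑ i ∈ Finset.range (d + 1),
      Polynomial.monomial i (b.coord j (P.coeff i))).coeff m = _
    rw [Polynomial.finsetSum_coeff]
    simp_rw [Polynomial.coeff_monomial]
    rw [Finset.sum_ite_eq' (Finset.range (d + 1)) m]
    simp [Finset.mem_range]
  refine ⟨Q, ?_, ?_, ?_, ?_⟩
  · intro hQ
    apply hj
    have := hQc i0
    rw [hQ, Polynomial.coeff_zero, if_pos hi0d] at this
    exact this.symm
  · rw [Polynomial.natDegree_le_iff_coeff_eq_zero]
    intro m hm
    rw [hQc, if_neg (by omega)]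
  · intro m
    rw [hQc]
    split_ifs
    · exact hcoord j _ (h2 m)
    · exact V.zero_mem
  · change (∑ i ∈ Finset.range (d + 1),
      Polynomial.monomial i (b.coord j (P.coeff i))).eval z = 0
    rw [Polynomial.eval_finsetSum]
    simp_rw [Polynomial.eval_monomial]
    rw [Polynomial.eval_eq_sum_range' (n := d + 1) (by omega)] at h3
    have h4 := congrArg (b.coord j) h3
    rw [map_sum, map_zero] at h4
    rw [← h4]
    refine Finset.sum_congr rfl fun i _ => ?_
    rw [← map_pow, mul_comm (P.coeff i), ← Algebra.smul_def, map_smul, smul_eq_mul, mul_comm]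

/-- Elements of bounded complexity are quotients from a finite dimensional space. -/
def HQ69 (k F : Type) [Field k] [Field F] [Algebra k F] : Prop :=
  ∀ (V : Submodule k F), FiniteDimensional k V → ∀ D : ℕ,
    ∃ W : Submodule k F, FiniteDimensional k W ∧ ∀ q : F, Cx V D q → QW69 W q

theorem dvd_deg69 {k σ : Type} [Field k] {a b : MvPolynomial σ k} (h : a ∣ b) (hb : b ≠ 0) :
    a.totalDegree ≤ b.totalDegree := by
  obtain ⟨c, rfl⟩ := h
  rw [MvPolynomial.totalDegree_mul_of_isDomain (left_ne_zero_of_mul hb) (right_ne_zero_of_mul hb)]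
  omega

theorem low_69 {k σ K : Type} [Field k] [Field K] [Algebra (MvPolynomial σ k) K] (g : ℕ) (q : K)
    (hq : q ≠ 0) : ∀ (n : ℕ) (p : Polynomial (MvPolynomial σ k)), p.natDegree ≤ n → p ≠ 0 →
      (∀ i, (p.coeff i).totalDegree ≤ g) → Polynomial.aeval q p = 0 →
      ∃ p' : Polynomial (MvPolynomial σ k), p'.coeff 0 ≠ 0 ∧ (p'.coeff 0).totalDegree ≤ g ∧
        Polynomial.aeval q p' = 0 := by
  intro n
  induction n with
  | zero =>
    intro p hp h0 hg hr
    refine ⟨p, ?_, hg 0, hr⟩
    intro h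
    apply h0
    rw [Polynomial.eq_C_of_natDegree_le_zero hp, h, Polynomial.C_0]
  | succ n ih =>
    intro p hp h0 hg hr
    by_cases h : p.coeff 0 = 0
    · refine ih p.divX ?_ ?_ ?_ ?_
      · rw [Polynomial.natDegree_divX_eq_natDegree_tsub_one]
        omega
      · rw [Ne, Polynomial.divX_eq_zero_iff, h, Polynomial.C_0]
        exact h0
      · intro i
        rw [Polynomial.coeff_divX]
        exact hg _
      · have h1 := Polynomial.divX_mul_X_add p
        rw [h, Polynomial.C_0, add_zero] at h1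
        rw [← h1, map_mul, Polynomial.aeval_X] at hr
        exact (mul_eq_zero.1 hr).resolve_right hq
    · exact ⟨p, h, hg 0, hr⟩

theorem ufd_69 (k σ K : Type) [Field k] [Finite σ] [Field K] [Algebra k K]
    [Algebra (MvPolynomial σ k) K] [IsScalarTower k (MvPolynomial σ k) K]
    [IsFractionRing (MvPolynomial σ k) K] : HQ69 k K := by
  classical
  intro V hV D
  obtain ⟨S, hS⟩ := (Submodule.fg_iff_finiteDimensional V).2 hV
  obtain ⟨b, hb⟩ := IsLocalization.exist_integer_multiples_of_finset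
    (nonZeroDivisors (MvPolynomial σ k)) S
  have hb' : ∀ a ∈ S, ∃ r : MvPolynomial σ k,
      algebraMap (MvPolynomial σ k) K r = (b : MvPolynomial σ k) • a := hb
  choose! r hr using hb'
  let g := S.sup (fun a => (r a).totalDegree)
  let ψ : MvPolynomial σ k →ₗ[k] K := (IsScalarTower.toAlgHom k (MvPolynomial σ k) K).toLinearMap
  let L : Submodule k K := (MvPolynomial.restrictTotalDegree σ k g).map ψ
  have hL : FiniteDimensional k L := inferInstance
  have hb0 : algebraMap (MvPolynomial σ k) K b ≠ 0 :=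
    IsFractionRing.to_map_ne_zero_of_mem_nonZeroDivisors b.2
  have hbV : ∀ v ∈ V, algebraMap (MvPolynomial σ k) K b * v ∈ L := by
    have h2 : V ≤ L.comap (LinearMap.mulLeft k (algebraMap (MvPolynomial σ k) K b)) := by
      rw [← hS, Submodule.span_le]
      intro a ha
      refine ⟨r a, ?_, ?_⟩
      · exact (MvPolynomial.mem_restrictTotalDegree _ _ _).2
          (Finset.le_sup (f := fun a => (r a).totalDegree) ha)
      · change algebraMap (MvPolynomial σ k) K (r a) = algebraMap (MvPolynomial σ k) K b * a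
        rw [hr a ha, Algebra.smul_def]
    intro v hv
    exact h2 hv
  refine ⟨L, hL, fun q hq => ?_⟩
  by_cases hq0 : q = 0
  · refine ⟨0, L.zero_mem, 1, ⟨1, ?_, map_one (algebraMap (MvPolynomial σ k) K)⟩, one_ne_zero,
      by rw [hq0, zero_mul]⟩
    rw [SetLike.mem_coe, MvPolynomial.mem_restrictTotalDegree, MvPolynomial.totalDegree_one]
    exact Nat.zero_le _
  obtain ⟨P, h0, h1, h2, h3⟩ := hq
  have h4 : ∀ i, ∃ c : MvPolynomial σ k, c.totalDegree ≤ g ∧
      algebraMap (MvPolynomial σ k) K c = algebraMap (MvPolynomial σ k) K b * P.coeff i := by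
    intro i
    obtain ⟨c, hc, hc'⟩ := hbV _ (h2 i)
    exact ⟨c, (MvPolynomial.mem_restrictTotalDegree _ _ _).1 hc, hc'⟩
  choose c hc hc' using h4
  have hinj := IsFractionRing.injective (MvPolynomial σ k) K
  let p : Polynomial (MvPolynomial σ k) := ∑ i ∈ Finset.range (D + 1),
    Polynomial.monomial i (c i)
  have hpc : ∀ m, p.coeff m = if m < D + 1 then c m else 0 := by
    intro m
    change (∑ i ∈ Finset.range (D + 1), Polynomial.monomial i (c i)).coeff m = _
    rw [Polynomial.finsetSum_coeff]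
    simp_rw [Polynomial.coeff_monomial]
    rw [Finset.sum_ite_eq' (Finset.range (D + 1)) m]
    simp [Finset.mem_range]
  have hpmap : p.map (algebraMap (MvPolynomial σ k) K) =
      Polynomial.C (algebraMap (MvPolynomial σ k) K b) * P := by
    ext m
    rw [Polynomial.coeff_map, Polynomial.coeff_C_mul, hpc]
    split_ifs with hm
    · exact hc' m
    · rw [Polynomial.coeff_eq_zero_of_natDegree_lt (by omega : P.natDegree < m), mul_zero, map_zero]
  have hp0 : p ≠ 0 := by
    intro hp
    rw [hp, Polynomial.map_zero] at hpmap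
    exact mul_ne_zero (Polynomial.C_ne_zero.2 hb0) h0 hpmap.symm
  have hpr : Polynomial.aeval q p = 0 := by
    rw [Polynomial.aeval_def, Polynomial.eval₂_eq_eval_map, hpmap, Polynomial.eval_mul, h3,
      mul_zero]
  have hg : ∀ i, (p.coeff i).totalDegree ≤ g := by
    intro i
    rw [hpc]
    split_ifs
    · exact hc i
    · rw [MvPolynomial.totalDegree_zero]
      exact Nat.zero_le _
  obtain ⟨p', hp'0, hp'g, hp'r⟩ := low_69 g q hq0 p.natDegree p le_rfl hp0 hg hpr
  have hnum := (dvd_deg69 (num_dvd_of_is_root hp'r) hp'0).trans hp'g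
  have hden := (dvd_deg69 (den_dvd_of_is_root hpr) (Polynomial.leadingCoeff_ne_zero.2 hp0)).trans
    (hg p.natDegree)
  have hd0 : algebraMap (MvPolynomial σ k) K (IsFractionRing.den (MvPolynomial σ k) q) ≠ 0 :=
    IsFractionRing.to_map_ne_zero_of_mem_nonZeroDivisors (IsFractionRing.den _ q).2
  refine ⟨algebraMap (MvPolynomial σ k) K (IsFractionRing.num (MvPolynomial σ k) q),
    ⟨_, (MvPolynomial.mem_restrictTotalDegree _ _ _).2 hnum, rfl⟩,
    algebraMap (MvPolynomial σ k) K (IsFractionRing.den (MvPolynomial σ k) q),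
    ⟨_, (MvPolynomial.mem_restrictTotalDegree _ _ _).2 hden, rfl⟩, hd0, ?_⟩
  have h5 := IsFractionRing.mk'_num_den' (MvPolynomial σ k) q
  rw [div_eq_iff hd0] at h5
  exact h5.symm

theorem HQ_equiv69 {k K F : Type} [Field k] [Field K] [Field F] [Algebra k K] [Algebra k F]
    (e : K ≃ₐ[k] F) (h : HQ69 k K) : HQ69 k F := by
  intro V hV D
  obtain ⟨W, hW, hq⟩ := h (V.map (e.symm : F →ₐ[k] K).toLinearMap) inferInstance D
  refine ⟨W.map (e : K →ₐ[k] F).toLinearMap, inferInstance, fun q hqc => ?_⟩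
  have h1 := Cx_map69 (e.symm : F →ₐ[k] K) hqc
  have h2 := QW_map69 (e : K →ₐ[k] F) (hq _ h1)
  simpa using h2

theorem fin_69 (h1 : StCl) (k F M : Type) [Field k] [CharZero k] [Field F] [Field M]
    [Algebra k F] [Algebra k M] [Algebra F M] [IsScalarTower k F M] [FiniteDimensional F M]
    (hF : HQ69 k F) : HQ69 k M := by
  classical
  have : CharZero F := charZero_of_injective_algebraMap (algebraMap k F).injective
  intro V hV D
  let Ω := AlgebraicClosure M
  let n := finrank F M
  let θ := Module.finBasis F M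
  let θ' := (Algebra.traceForm F M).dualBasis (traceForm_nondegenerate F M) θ
  let V1 : Submodule k Ω := ⨆ s : M →ₐ[F] Ω, V.map (s.restrictScalars k).toLinearMap
  have hV1 : FiniteDimensional k V1 := inferInstance
  let V2 : Submodule k Ω := Submodule.span k
    (Set.range (fun x : (M →ₐ[F] Ω) × Fin n => x.1 (θ x.2)) ∪ {1})
  have hV2 : FiniteDimensional k V2 := FiniteDimensional.span_of_finite k
    ((Set.finite_range _).union (Set.finite_singleton _))
  let V3 := V1 ⊔ V2
  let D1 := max D 1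
  let V4 := V3 ^ (2 * (D1 * D1))
  have hV4 : FiniteDimensional k V4 := pow_fd69 V3 inferInstance _
  obtain ⟨V5, D5, hV5, hsum⟩ := Cx_sum69 h1 (Finset.univ : Finset (M →ₐ[F] Ω)) V4 hV4 (D1 * D1)
  obtain ⟨V6, hV6, hdes⟩ := descent_69 (k := k) (E := F) (Ω := Ω) V5 hV5
  obtain ⟨W, hW, hWq⟩ := hF V6 hV6 D5
  let W' : Submodule k M := W.map (IsScalarTower.toAlgHom k F M).toLinearMap
  let Wi : Fin n → Submodule k M := fun i => W' ⊔ W'.map (LinearMap.mulLeft k (θ' i))
  obtain ⟨W'', hW'', hfinal⟩ := QW_sum69 (Finset.univ : Finset (Fin n)) Wi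
    (fun i => (inferInstance : FiniteDimensional k
      (W' ⊔ W'.map (LinearMap.mulLeft k (θ' i)) : Submodule k M)))
  refine ⟨W'', hW'', fun z hz => ?_⟩
  have hz' : z = ∑ i, algebraMap F M (Algebra.trace F M (z * θ i)) * θ' i := by
    conv_lhs => rw [← θ'.sum_repr z]
    refine Finset.sum_congr rfl fun i _ => ?_
    rw [LinearMap.BilinForm.dualBasis_repr_apply, Algebra.traceForm_apply, Algebra.smul_def]
  rw [hz']
  apply hfinal
  intro i _
  apply QW_cmul69
  apply QW_map69 (IsScalarTower.toAlgHom k F M)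
  apply hWq
  apply hdes
  rw [trace_eq_sum_embeddings Ω]
  apply hsum
  intro s _
  rw [map_mul]
  refine (h1 k Ω V3 D1 (s z) (s (θ i)) ?_ ?_).2
  · have h2 : V.map (s.restrictScalars k).toLinearMap ≤ V1 :=
      le_iSup (fun s : M →ₐ[F] Ω => V.map (s.restrictScalars k).toLinearMap) s
    exact Cx_mono69 (h2.trans le_sup_left) (le_max_left _ _) (Cx_map69 (s.restrictScalars k) hz)
  · have h2 : (1 : Ω) ∈ V2 := Submodule.subset_span (Or.inr rfl)
    have h3 : s (θ i) ∈ V2 := Submodule.subset_span (Or.inl ⟨(s, i), rfl⟩)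
    exact Cx_mono69 (le_sup_right) (le_max_right _ _) (Cx_const69 h2 h3)

theorem fg_69 (h1 : StCl) (k M : Type) [Field k] [CharZero k] [Field M] [Algebra k M]
    [Algebra.EssFiniteType k M] : HQ69 k M := by
  obtain ⟨s, hs⟩ := exists_finset_isTranscendenceBasis k M
  let F := IntermediateField.adjoin k (Set.range ((↑) : s → M))
  have hF : HQ69 k F :=
    HQ_equiv69 hs.1.aevalEquivField (ufd_69 k s (FractionRing (MvPolynomial s k)))
  have : Algebra.IsAlgebraic F M := hs.isAlgebraic_field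
  have : Algebra.EssFiniteType F M := Algebra.EssFiniteType.of_comp k F M
  have : FiniteDimensional F M := Algebra.finite_of_essFiniteType_of_isAlgebraic
  exact fin_69 h1 k F M hF

/-- B2. -/
theorem quot_69 (h1 : StCl) : StQuot := by
  intro k Ω _ _ _ _ _ M hM U hU hUM d
  have : Algebra.EssFiniteType k M := IntermediateField.essFiniteType_iff.2 hM
  obtain ⟨V, hV, hdes⟩ := descent_69 (k := k) (E := M) (Ω := Ω) U hU
  obtain ⟨W, hW, hWq⟩ := fg_69 h1 k M V hV d
  refine ⟨W.map M.val.toLinearMap, inferInstance, fun z hz hc => ?_⟩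
  exact QW_map69 M.val (hWq ⟨z, hz⟩ (hdes d ⟨z, hz⟩ hc))

end Pool.Agent.Lib.MP_c50dba_nt.BX
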