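import Pool.Agent.Lib.MP_c50dba_nt.BX.Inf83

set_option autoImplicit false

/-!
B3: a finite extension contains only finitely many of the `v l`, from B2.
-/

namespace Pool.Agent.Lib.MP_c50dba_nt.BX

open Module
open scoped IntermediateField

/-- Sums of multiples of a space. -/
noncomputable def Vr83 {k Ω : Type} [Field k] [Field Ω] [Algebra k Ω] (U : Submodule k Ω)
    (t : ℕ → Ω) : ℕ → Submodule k Ω
  | 0 => U.map (LinearMap.mulRight k (t 0))
  | n + 1 => Vr83 U t n ⊔ U.map (LinearMap.mulRight k (t (n + 1)))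

theorem Vr_fd83 {k Ω : Type} [Field k] [Field Ω] [Algebra k Ω] (U : Submodule k Ω)
    [FiniteDimensional k U] (t : ℕ → Ω) (n : ℕ) : FiniteDimensional k (Vr83 U t n) := by
  induction n with
  | zero =>
    change FiniteDimensional k (U.map (LinearMap.mulRight k (t 0)))
    infer_instance
  | succ n ih =>
    change FiniteDimensional k (Vr83 U t n ⊔ U.map (LinearMap.mulRight k (t (n + 1))) :
      Submodule k Ω)
    infer_instance

theorem Vr_mono83 {k Ω : Type} [Field k] [Field Ω] [Algebra k Ω] (U : Submodule k Ω)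
    (t : ℕ → Ω) (n j : ℕ) (hj : j ≤ n) : U.map (LinearMap.mulRight k (t j)) ≤ Vr83 U t n := by
  induction n with
  | zero =>
    obtain rfl : j = 0 := by omega
    exact le_rfl
  | succ n ih =>
    rcases Nat.lt_or_ge j (n + 1) with h | h
    · exact (ih (by omega)).trans (le_sup_left : Vr83 U t n ≤ _)
    · obtain rfl : j = n + 1 := by omega
      exact (le_sup_right : _ ≤ Vr83 U t n ⊔ U.map (LinearMap.mulRight k (t (n + 1))))

theorem Vr_rank83 {k Ω : Type} [Field k] [Field Ω] [Algebra k Ω] (U : Submodule k Ω)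
    [FiniteDimensional k U] (t : ℕ → Ω) (ht : ∀ j, t j ≠ 0)
    (hrel : ∀ j, ∃ a ∈ U, ∃ b ∈ U, b ≠ 0 ∧ b * t j = a * t 0) (n : ℕ) :
    finrank k (Vr83 U t n) + n ≤ finrank k U * (n + 1) := by
  have hU : ∀ j, finrank k (U.map (LinearMap.mulRight k (t j))) ≤ finrank k U := fun j =>
    Submodule.finrank_map_le _ _
  induction n with
  | zero =>
    have := hU 0
    change finrank k (U.map (LinearMap.mulRight k (t 0))) + 0 ≤ finrank k U * (0 + 1)
    omega
  | succ n ih =>
    have := Vr_fd83 U t n
    obtain ⟨a, ha, b, hb, hb0, hab⟩ := hrel (n + 1)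
    have h1 := Submodule.finrank_sup_add_finrank_inf_eq (Vr83 U t n)
      (U.map (LinearMap.mulRight k (t (n + 1))))
    have h2 : 0 < finrank k
        ((Vr83 U t n ⊓ U.map (LinearMap.mulRight k (t (n + 1))) : Submodule k Ω)) := by
      rw [Module.finrank_pos_iff_exists_ne_zero]
      refine ⟨⟨b * t (n + 1), ?_, ?_⟩, ?_⟩
      · rw [hab]
        exact Vr_mono83 U t n 0 (Nat.zero_le _) ⟨a, ha, rfl⟩
      · exact ⟨b, hb, rfl⟩
      · intro h
        exact mul_ne_zero hb0 (ht _) (congrArg Subtype.val h)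
    have h3 := hU (n + 1)
    have h4 : Vr83 U t (n + 1) = Vr83 U t n ⊔ U.map (LinearMap.mulRight k (t (n + 1))) := rfl
    rw [h4]
    have h5 : finrank k U * (n + 1 + 1) = finrank k U * (n + 1) + finrank k U := by ring
    omega

theorem fg_of_fd83 {k Ω : Type} [Field k] [Field Ω] [Algebra k Ω] (U : Submodule k Ω)
    [FiniteDimensional k U] : (IntermediateField.adjoin k (U : Set Ω)).FG := by
  obtain ⟨s, hs⟩ := (Submodule.fg_iff_finiteDimensional U).2 inferInstance
  have h1 : IntermediateField.adjoin k (U : Set Ω) = IntermediateField.adjoin k (s : Set Ω) := by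
    apply le_antisymm
    · rw [IntermediateField.adjoin_le_iff]
      intro x hx
      rw [← hs] at hx
      have h2 : Submodule.span k (s : Set Ω) ≤
          (IntermediateField.adjoin k (s : Set Ω)).toSubalgebra.toSubmodule := by
        rw [Submodule.span_le]
        intro z hz
        exact IntermediateField.subset_adjoin k _ hz
      exact h2 hx
    · apply IntermediateField.adjoin.mono
      rw [← hs]
      exact Submodule.subset_span
  rw [h1]
  exact IntermediateField.fg_adjoin_finset s

theorem star_83 (h2 : StQuot) : StStar := by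
  intro k Ω _ _ _ _ _ U _ d y v hy hv hSR M _
  by_contra hinf
  have hinf' : {l | v l ∈ M}.Infinite := hinf
  let F := IntermediateField.adjoin k (U : Set Ω)
  have hyalg : IsAlgebraic F y := (alg_of_Cx83 U d y hy).1
  have : FiniteDimensional F F⟮y⟯ := IntermediateField.adjoin.finiteDimensional hyalg.isIntegral
  let M' : IntermediateField F Ω := M ⊔ F⟮y⟯
  have hfd : FiniteDimensional F M' := inferInstance
  have hess1 : Algebra.EssFiniteType k F :=
    IntermediateField.essFiniteType_iff.2 (fg_of_fd83 U)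
  have hess2 : Algebra.EssFiniteType F M' := inferInstance
  have hess3 : Algebra.EssFiniteType k M' := Algebra.EssFiniteType.comp k F M'
  have hFG : (M'.restrictScalars k).FG := by
    rw [← IntermediateField.essFiniteType_iff]
    exact hess3
  have hUM : ∀ u ∈ U, u ∈ M'.restrictScalars k := by
    intro u hu
    rw [IntermediateField.mem_restrictScalars]
    exact M'.algebraMap_mem (⟨u, IntermediateField.subset_adjoin k _ hu⟩ : F)
  obtain ⟨W, hW, hWq⟩ := h2 k Ω (M'.restrictScalars k) hFG U hUM d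
  have hyM : y ∈ M'.restrictScalars k := by
    rw [IntermediateField.mem_restrictScalars]
    exact (le_sup_right : F⟮y⟯ ≤ M') (IntermediateField.mem_adjoin_simple_self F y)
  obtain ⟨A0, hA0, B0, hB0, hB00, hAB0⟩ := hWq y hyM hy
  -- all `v l` in `M` are quotients
  have hq : ∀ l, v l ∈ M → ∃ A ∈ W * W, ∃ B ∈ W * W, B ≠ 0 ∧ v l * B = A := by
    intro l hl
    have h3 : y + v l ∈ M'.restrictScalars k := by
      rw [IntermediateField.mem_restrictScalars]
      exact M'.add_mem hyM ((le_sup_left : M ≤ M') hl)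
    obtain ⟨A, hA, B, hB, hB', hAB⟩ := hWq _ h3 (hv l)
    refine ⟨A * B0 - B * A0, Submodule.sub_mem _ (Submodule.mul_mem_mul hA hB0)
      (Submodule.mul_mem_mul hB hA0), B * B0, Submodule.mul_mem_mul hB hB0,
      mul_ne_zero hB' hB00, ?_⟩
    rw [← hAB, ← hAB0]
    ring
  -- the sequence
  let g : ℕ ↪ {l | v l ∈ M} := hinf'.natEmbedding
  let t : ℕ → Ω := fun j => v (g j)
  have ht : ∀ j, t j ≠ 0 := by
    intro j h0
    have h3 := hSR 1 (fun _ => (g j : ℕ)) (fun a b _ => Subsingleton.elim a b) 1 (fun _ => 1)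
      (LinearIndependent.of_subsingleton (R := k) (0 : Fin 1) (v := fun _ => (1 : Ω)) one_ne_zero)
    have h4 : Submodule.span k (Set.range (fun ij : Fin 1 × Fin 1 => (1 : Ω) * v (g j))) = ⊥ := by
      rw [Submodule.span_eq_bot]
      rintro x ⟨ij, rfl⟩
      change 1 * v (g j) = 0
      rw [one_mul]
      exact h0
    rw [h4, finrank_bot] at h3
    omega
  have hWWfd : FiniteDimensional k (W * W : Submodule k Ω) := by
    rw [← Submodule.fg_iff_finiteDimensional] at hW ⊢
    exact hW.mul hW
  let U' : Submodule k Ω := (W * W).map (LinearMap.mulRight k (t 0)) ⊔ (W * W)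
  have hU'fd : FiniteDimensional k U' := inferInstance
  have hrel : ∀ j, ∃ a ∈ U', ∃ b ∈ U', b ≠ 0 ∧ b * t j = a * t 0 := by
    intro j
    obtain ⟨A, hA, B, hB, hB', hAB⟩ := hq (g j) (g j).2
    refine ⟨A, (le_sup_right : W * W ≤ U') hA, B * t 0,
      (le_sup_left : (W * W).map (LinearMap.mulRight k (t 0)) ≤ U') ⟨B, hB, rfl⟩,
      mul_ne_zero hB' (ht 0), ?_⟩
    rw [← hAB]
    change B * t 0 * t j = t j * B * t 0
    ring
  set d' := finrank k U' with hd'
  let b := Module.finBasis k U'
  have hSR' := hSR (d' * d' + 1 + 1) (fun j => (g (j : ℕ) : ℕ)) (by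
    intro i j hij
    exact Fin.ext (g.injective (Subtype.ext hij))) d' (fun i => (b i : Ω)) (by
    have := b.linearIndependent
    exact this.map' U'.subtype (Submodule.ker_subtype U'))
  have hVr := Vr_rank83 U' t ht hrel (d' * d' + 1)
  have hVrfd := Vr_fd83 U' t (d' * d' + 1)
  have hle : Submodule.span k (Set.range (fun ij : Fin d' × Fin (d' * d' + 1 + 1) =>
      (b ij.1 : Ω) * v (g (ij.2 : ℕ)))) ≤ Vr83 U' t (d' * d' + 1) := by
    rw [Submodule.span_le]
    rintro x ⟨ij, rfl⟩
    exact Vr_mono83 U' t (d' * d' + 1) ij.2 (by omega) ⟨b ij.1, (b ij.1).2, rfl⟩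
  have h5 := Submodule.finrank_mono hle
  have h6 : d' * (d' * d' + 1 + 1 + 1) = d' * (d' * d' + 1 + 1) + d' := by ring
  rw [← hd'] at hVr
  omega

end Pool.Agent.Lib.MP_c50dba_nt.BX
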