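import Pool.Agent.Lib.MP_c50dba_nt.BX.One83
import Pool.Agent.Lib.MP_c50dba_nt.BX.Star83
import Pool.Agent.Lib.MP_c50dba_nt.BX.Quot69
import Pool.Agent.Lib.MP_c50dba_nt.BX.Cl42
import Pool.Agent.Lib.MP_c50dba_nt.BX.Gal66
import Pool.Agent.Lib.MP_c50dba_nt.BX.Fin47

set_option autoImplicit false

/-!
BOXES project: assembly.
-/

namespace Pool.Agent.Lib.MP_c50dba_nt.BX

open Module
open Pool.Agent.Lib.MP_c50dba_nt Pool.Agent.Lib.MP_c50dba_nt.Gen Pool.Agent.Lib.MP_c50dba_nt.Gen.G2
open Pool.Agent.Lib.MP_c50dba_nt.GC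

theorem finB_all83 : StFinB := fin_47 (infB_83 (star_83 (quot_69 cl_42)) gal_66)

/-- One step: the conjugates contain a box of side `m` and dimension `h`. -/
def BoxStep83 (N d h m : ℕ) : Prop :=
  ∀ (p : ℕ) [Fact p.Prime] (L : PadicAlgCl p → PadicAlgCl p), IsIwasawaLog p L →
    ∀ (ι : Type) [Fintype ι], Fintype.card ι = N → ∀ f : ι → PadicAlgCl p,
    LinearIndependent (AN p) f → ∀ a : PadicAlgCl p, a ≠ 0 → IsAlgebraic ℚ a →
    ∀ y u : PadicAlgCl p, u ≠ 0 → ∀ v : Fin h → Fin m → PadicAlgCl p,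
    LinearIndependent ℚ (fun x : Fin h × Fin m => v x.1 x.2) →
    (∀ (S : Finset (Fin h)) (c : Fin h → Fin m), ∃ σ : PadicAlgCl p ≃ₐ[ℚ_[p]] PadicAlgCl p,
      (∀ x, σ (f x) = f x) ∧ σ y = y ∧ σ u = u ∧ σ (L a) = L a + ∑ i ∈ S, v i (c i)) →
    LinearIndependent (AN p) (fun x : ι × Fin (d + 1) => f x.1 * (y + u * L a) ^ (x.2 : ℕ))

theorem boxStep_exists83 (N d h : ℕ) (hdh : d < 2 ^ h) : ∃ m, BoxStep83 N d h m := by
  obtain ⟨m, hm⟩ := finB_all83 N d h hdh
  refine ⟨m, ?_⟩
  intro p _ L hL ι _ hι f hf a ha halg y u hu v hv hσ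
  subst hι
  exact stepB83 hL f hf d h m hm a ha halg y u hu v hv hσ

theorem boxStep_one83 (N h m : ℕ) (hm : N ^ 2 + N ≤ h * m) : BoxStep83 N 1 h m := by
  intro p _ L hL ι _ hι f hf a ha halg y u hu v hv hσ
  subst hι
  rcases Nat.eq_zero_or_pos (Fintype.card ι) with h0 | h0
  · have := Fintype.card_eq_zero_iff.1 h0
    exact linearIndependent_empty_type
  · exact stepB83 hL f hf 1 h _ (finB_one83 _ h m h0 hm) a ha halg y u hu v hv hσ

theorem boxStep_cube83 (N d h : ℕ) (hh : d * N ^ 2 * (d + 1) ^ 2 ≤ h) : BoxStep83 N d h 1 := by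
  intro p _ L hL ι _ hι f hf a ha halg y u hu v hv hσ
  subst hι
  refine step83 hL f hf d h hh a ha halg y u hu (fun i => v i 0) ?_ ?_
  · exact hv.comp (fun i : Fin h => (i, (0 : Fin 1))) (fun i j hij => (Prod.mk.inj hij).1)
  · intro S
    obtain ⟨σ, h1, h2, h3, h4⟩ := hσ S (fun _ => 0)
    exact ⟨σ, h1, h2, h3, h4⟩

open Classical in
/-- The side of the box. -/
noncomputable def side83 (N d h : ℕ) : ℕ := sInf {m | BoxStep83 N d h m}

theorem side_spec83 (N d h : ℕ) (hdh : d < 2 ^ h) : BoxStep83 N d h (side83 N d h) :=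
  Nat.sInf_mem (s := {m | BoxStep83 N d h m}) (boxStep_exists83 N d h hdh)

theorem side_one83 (N h m : ℕ) (hm : N ^ 2 + N ≤ h * m) : side83 N 1 h ≤ m :=
  Nat.sInf_le (boxStep_one83 N h m hm)

theorem side_cube83 (N d h : ℕ) (hh : d * N ^ 2 * (d + 1) ^ 2 ≤ h) : side83 N d h ≤ 1 :=
  Nat.sInf_le (boxStep_cube83 N d h hh)

theorem boxStep_mono83 {N d h m m' : ℕ} (hm : m ≤ m') (H : BoxStep83 N d h m) :
    BoxStep83 N d h m' := by
  intro p _ L hL ι _ hι f hf a ha halg y u hu v hv hσ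
  refine H p L hL ι hι f hf a ha halg y u hu (fun i l => v i (Fin.castLE hm l)) ?_ ?_
  · exact hv.comp (fun x : Fin h × Fin m => (x.1, Fin.castLE hm x.2)) (by
      intro i j hij
      simp only [Prod.mk.injEq] at hij
      exact Prod.ext hij.1 ((Fin.castLEEmb hm).injective hij.2))
  · intro S c
    exact hσ S (fun i => Fin.castLE hm (c i))

theorem iterBox83 (p : ℕ) [Fact p.Prime] (L : PadicAlgCl p → PadicAlgCl p)
    (hL : IsIwasawaLog p L) (N : ℕ) (f : Fin N → PadicAlgCl p)
    (hf : LinearIndependent (AN p) f) : ∀ (n : ℕ) (d h m : Fin n → ℕ)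
    (_ : ∀ j, d j < 2 ^ h j ∧ side83
      (N * ∏ i ∈ Finset.univ.filter (fun i => i < j), (d i + 1)) (d j) (h j) ≤ m j)
    (a y u : Fin n → PadicAlgCl p)
    (_ : ∀ i, a i ≠ 0 ∧ IsAlgebraic ℚ (a i) ∧ u i ≠ 0)
    (_ : ∀ j : Fin n, ∃ v : Fin (h j) → Fin (m j) → PadicAlgCl p,
      LinearIndependent ℚ (fun x : Fin (h j) × Fin (m j) => v x.1 x.2) ∧
      ∀ (S : Finset (Fin (h j))) (c : Fin (h j) → Fin (m j)),
        ∃ σ : PadicAlgCl p ≃ₐ[ℚ_[p]] PadicAlgCl p,
        (∀ x, σ (f x) = f x) ∧ (∀ i, i < j → σ (y i + u i * L (a i)) = y i + u i * L (a i)) ∧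
        σ (y j) = y j ∧ σ (u j) = u j ∧ σ (L (a j)) = L (a j) + ∑ i ∈ S, v i (c i)),
    LinearIndependent (AN p) (fun x : Fin N × ((j : Fin n) → Fin (d j + 1)) =>
      f x.1 * ∏ i, (y i + u i * L (a i)) ^ (x.2 i : ℕ)) := by
  intro n
  induction n with
  | zero =>
    intro d h m _ a y u _ _
    have hinj : Function.Injective (fun x : Fin N × ((j : Fin 0) → Fin (d j + 1)) => x.1) := by
      rintro ⟨x, k⟩ ⟨y, k'⟩ h
      simp only at h
      rw [h, Subsingleton.elim k k']
    have h1 := hf.comp _ hinj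
    convert h1 using 2 with x
    simp
  | succ n ih =>
    intro d h m hdh a y u ha hcube
    have hfil : ∀ j : Fin n, ∏ i ∈ Finset.univ.filter (fun i : Fin (n + 1) => i < j.castSucc),
        (d i + 1) = ∏ i ∈ Finset.univ.filter (fun i : Fin n => i < j), (d i.castSucc + 1) := by
      intro j
      have h1 : Finset.univ.filter (fun i : Fin (n + 1) => i < j.castSucc) =
          (Finset.univ.filter (fun i : Fin n => i < j)).map Fin.castSuccEmb := by
        ext i
        simp only [Finset.mem_filter, Finset.mem_univ, true_and, Finset.mem_map,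
          Fin.coe_castSuccEmb]
        constructor
        · intro hi
          refine ⟨⟨i, lt_trans (Fin.lt_def.1 hi) (by simp)⟩, ?_, ?_⟩
          · rw [Fin.lt_def] at hi ⊢
            exact hi
          · exact Fin.ext rfl
        · rintro ⟨i', hi', rfl⟩
          exact Fin.castSucc_lt_castSucc_iff.2 hi'
      rw [h1, Finset.prod_map]
      rfl
    have hlast : ∏ i ∈ Finset.univ.filter (fun i : Fin (n + 1) => i < Fin.last n), (d i + 1) =
        ∏ i : Fin n, (d i.castSucc + 1) := by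
      have h1 : Finset.univ.filter (fun i : Fin (n + 1) => i < Fin.last n) =
          (Finset.univ : Finset (Fin n)).map Fin.castSuccEmb := by
        ext i
        simp only [Finset.mem_filter, Finset.mem_univ, true_and, Finset.mem_map,
          Fin.coe_castSuccEmb]
        constructor
        · intro hi
          exact ⟨⟨i, Fin.lt_def.1 hi⟩, Fin.ext rfl⟩
        · rintro ⟨i', rfl⟩
          exact Fin.castSucc_lt_last i'
      rw [h1, Finset.prod_map]
      rfl
    have h1 := ih (fun i => d i.castSucc) (fun i => h i.castSucc) (fun i => m i.castSucc)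
      (fun j => ⟨(hdh j.castSucc).1, by
        rw [← hfil j]
        exact (hdh j.castSucc).2⟩)
      (fun i => a i.castSucc) (fun i => y i.castSucc)
      (fun i => u i.castSucc) (fun i => ha i.castSucc) (by
      intro j
      obtain ⟨v, hv, hS⟩ := hcube j.castSucc
      refine ⟨v, hv, fun S c => ?_⟩
      obtain ⟨σ, h1, h2, h3, h4, h5⟩ := hS S c
      exact ⟨σ, h1, fun i hi => h2 i.castSucc (by simpa using hi), h3, h4, h5⟩)
    obtain ⟨v, hv, hS⟩ := hcube (Fin.last n)
    have hside := (hdh (Fin.last n)).2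
    rw [hlast] at hside
    have h2 := boxStep_mono83 hside (side_spec83 _ _ _ (hdh (Fin.last n)).1) p L hL
      (Fin N × ((j : Fin n) → Fin (d j.castSucc + 1))) (by
        rw [Fintype.card_prod, Fintype.card_pi, Fintype.card_fin]
        simp only [Fintype.card_fin])
      (fun x => f x.1 * ∏ i : Fin n, (y i.castSucc + u i.castSucc * L (a i.castSucc)) ^
        (x.2 i : ℕ)) h1 (a (Fin.last n)) (ha _).1 (ha _).2.1 (y (Fin.last n))
      (u (Fin.last n)) (ha _).2.2 v hv (by
        intro S c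
        obtain ⟨σ, h1, h2, h3, h4, h5⟩ := hS S c
        refine ⟨σ, fun x => ?_, h3, h4, h5⟩
        rw [map_mul, map_prod, h1]
        congr 1
        apply Finset.prod_congr rfl
        intro i _
        rw [map_pow, h2 i.castSucc (Fin.castSucc_lt_last i)])
    have hinj : Function.Injective (fun x : Fin N × ((j : Fin (n + 1)) → Fin (d j + 1)) =>
        (((x.1, fun i : Fin n => x.2 i.castSucc), x.2 (Fin.last n)) :
          (Fin N × ((j : Fin n) → Fin (d j.castSucc + 1))) × Fin (d (Fin.last n) + 1))) := by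
      rintro ⟨x, k⟩ ⟨y, k'⟩ h
      simp only [Prod.mk.injEq] at h
      obtain ⟨⟨h3, h4⟩, h5⟩ := h
      rw [h3]
      congr 1
      funext i
      refine Fin.lastCases h5 (fun j => ?_) i
      exact congrFun h4 j
    have h3 := h2.comp _ hinj
    convert h3 using 2 with x
    rw [Fin.prod_univ_castSucc]
    simp only [Function.comp]
    ring

end Pool.Agent.Lib.MP_c50dba_nt.BX
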