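import Pool.Agent.Lib.MP_c50dba_nt.BX.StmtsV
import Pool.Agent.Lib.MP_c50dba_nt.BX.Gal66

set_option autoImplicit false

/-!
BOXES, phase 2, module V5: the Galois part. Choice of the arrays with an iterated ultrafilter (linear
independence over the fields of all the others), conjugates with commuting moves.
-/

namespace Pool.Agent.Lib.MP_c50dba_nt.BX

open Module Filter

variable {F Ω : Type} [Field F] [Field Ω] [Algebra F Ω]

/-- A set of elements of which all finite parts are in fields of bounded degree is in a finite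
extension. -/
theorem bounded90 (B : ℕ) (A : Set Ω)
    (h : ∀ T : Finset Ω, (T : Set Ω) ⊆ A → ∃ E : IntermediateField F Ω, FiniteDimensional F E ∧
      finrank F E ≤ B ∧ ∀ l ∈ T, l ∈ E) :
    ∃ M : IntermediateField F Ω, FiniteDimensional F M ∧ ∀ l ∈ A, l ∈ M := by
  classical
  have h0 : ∀ T : Finset Ω, (T : Set Ω) ⊆ A →
      FiniteDimensional F (IntermediateField.adjoin F (T : Set Ω)) ∧
        finrank F (IntermediateField.adjoin F (T : Set Ω)) ≤ B := by
    intro T hT
    obtain ⟨E, hE1, hE2, hE3⟩ := h T hT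
    have h1 : IntermediateField.adjoin F (T : Set Ω) ≤ E := by
      rw [IntermediateField.adjoin_le_iff]
      intro l hl
      exact hE3 l hl
    have h2 := Submodule.finrank_mono (R := F) (M := Ω)
      (s := Subalgebra.toSubmodule (IntermediateField.adjoin F (T : Set Ω)).toSubalgebra)
      (t := Subalgebra.toSubmodule E.toSubalgebra) h1
    exact ⟨Module.Finite.of_injective (IntermediateField.inclusion h1).toLinearMap
      (IntermediateField.inclusion h1).injective, le_trans h2 hE2⟩
  let P : ℕ → Prop := fun n => ∃ T : Finset Ω, (T : Set Ω) ⊆ A ∧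
    finrank F (IntermediateField.adjoin F (T : Set Ω)) = n
  have hP : ∃ n, P n := ⟨_, ∅, by simp, rfl⟩
  have hPB : ∀ n, P n → n ≤ B := by
    rintro n ⟨T, hT, rfl⟩
    exact (h0 T hT).2
  obtain ⟨n0, hn0⟩ := hP
  obtain ⟨T, hT, hTn⟩ := Nat.findGreatest_spec (P := P) (hPB n0 hn0) hn0
  refine ⟨IntermediateField.adjoin F (T : Set Ω), (h0 T hT).1, ?_⟩
  intro l hl
  have hT' : ((insert l T : Finset Ω) : Set Ω) ⊆ A := by
    rw [Finset.coe_insert]
    exact Set.insert_subset hl hT
  have h1 : IntermediateField.adjoin F (T : Set Ω) ≤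
      IntermediateField.adjoin F ((insert l T : Finset Ω) : Set Ω) := by
    apply IntermediateField.adjoin.mono
    simp
  have h2 : finrank F (IntermediateField.adjoin F ((insert l T : Finset Ω) : Set Ω)) ≤
      finrank F (IntermediateField.adjoin F (T : Set Ω)) := by
    rw [hTn]
    exact Nat.le_findGreatest (h0 _ hT').2 ⟨_, hT', rfl⟩
  have := (h0 _ hT').1
  have h3 := IntermediateField.eq_of_le_of_finrank_le h1 h2
  rw [h3]
  apply IntermediateField.subset_adjoin
  simp

/-- Linear dependence over almost all fields gives a relation with coefficients in almost all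
fields. -/
theorem rel90 [CharZero F] [IsAlgClosed Ω] [Algebra.IsAlgebraic F Ω] {X κ : Type} [Fintype κ]
    (W : Ultrafilter X) (E : X → IntermediateField F Ω) (z : κ → Ω)
    (hz : ∀ᶠ x in (W : Filter X), ¬ LinearIndependent (E x) z) :
    ∃ β : κ → Ω, (∃ i, β i ≠ 0) ∧ ∑ i, β i * z i = 0 ∧
      ∀ i, ∀ᶠ x in (W : Filter X), β i ∈ E x := by
  classical
  have hcl : IsAlgClosure F Ω := ⟨inferInstance, inferInstance⟩
  have hgal : IsGalois F Ω :=
    { to_isSeparable := Algebra.IsAlgebraic.isSeparable_of_perfectField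
      to_normal := IsAlgClosure.normal F Ω }
  have hint : ∀ z : Ω, IsIntegral F z := fun z => Algebra.IsIntegral.isIntegral z
  let T0 : Finset (κ → Ω) := Fintype.piFinset fun i => conj66 F (z i)
  let R : X → Finset (κ → Ω) := fun x => T0.filter fun w =>
    ∃ γ : Ω ≃ₐ[F] Ω, (∀ e ∈ E x, γ e = e) ∧ w = fun i => γ (z i)
  have hR : ∀ x w, w ∈ R x ↔ ∃ γ : Ω ≃ₐ[F] Ω, (∀ e ∈ E x, γ e = e) ∧ w = fun i => γ (z i) := by
    intro x w
    simp only [R, Finset.mem_filter, and_iff_right_iff_imp]
    rintro ⟨γ, -, rfl⟩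
    rw [Fintype.mem_piFinset]
    exact fun i => map_mem_conj66 (hint _) γ
  have h1 : ∀ᶠ x in (W : Filter X), ∃ Q : T0.powerset, R x = Q.1 :=
    Eventually.of_forall fun x => ⟨⟨R x, Finset.mem_powerset.2 (Finset.filter_subset _ _)⟩, rfl⟩
  obtain ⟨Q, hQ⟩ := Ultrafilter.eventually_exists_iff.1 h1
  -- solutions
  let Sol : (κ → Ω) → Prop := fun c => ∀ w ∈ Q.1, ∑ i, c i * w i = 0
  let supp : (κ → Ω) → ℕ := fun c => (Finset.univ.filter fun i => c i ≠ 0).card
  have h2 : ∃ n, ∃ c : κ → Ω, (∃ i, c i ≠ 0) ∧ Sol c ∧ supp c = n := by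
    obtain ⟨x, hx1, hx2⟩ := (hz.and hQ).exists
    obtain ⟨b, hb1, i, hb2⟩ := Fintype.not_linearIndependent_iff.1 hx1
    refine ⟨_, fun i => (b i : Ω), ⟨i, ?_⟩, ?_, rfl⟩
    · simpa using hb2
    · intro w hw
      rw [← hx2, hR] at hw
      obtain ⟨γ, hγ, rfl⟩ := hw
      have h3 := congrArg γ hb1
      rw [map_sum, map_zero] at h3
      rw [← h3]
      refine Finset.sum_congr rfl fun i _ => ?_
      rw [Algebra.smul_def, map_mul]
      congr 1
      exact (hγ _ (b i).2).symm
  obtain ⟨c, ⟨i0, hi0⟩, hcS, hcn⟩ := Nat.find_spec h2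
  have hmin : ∀ c' : κ → Ω, Sol c' → supp c' < Nat.find h2 → c' = 0 := by
    intro c' hc' hlt
    by_contra hne
    refine Nat.find_min h2 hlt ⟨c', ?_, hc', rfl⟩
    by_contra hcon
    push Not at hcon
    exact hne (funext hcon)
  -- normalise
  set β : κ → Ω := fun i => (c i0)⁻¹ * c i with hβ
  have hβS : Sol β := by
    intro w hw
    have h3 := hcS w hw
    simp only [hβ, mul_assoc]
    rw [← Finset.mul_sum, h3, mul_zero]
  have hβ0 : β i0 = 1 := inv_mul_cancel₀ hi0
  have hfix : ∀ x, R x = Q.1 → ∀ γ : Ω ≃ₐ[F] Ω, (∀ e ∈ E x, γ e = e) → ∀ i, γ (β i) = β i := by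
    intro x hx γ hγ
    have h3 : (fun i => γ (β i) - β i) = 0 := by
      apply hmin
      · intro w hw
        have h4 := hβS w hw
        have h5 : ∑ i, γ (β i) * w i = 0 := by
          rw [← hx, hR] at hw
          obtain ⟨δ, hδ, rfl⟩ := hw
          have h6 : (fun i => (δ.trans γ.symm) (z i)) ∈ Q.1 := by
            rw [← hx, hR]
            refine ⟨δ.trans γ.symm, fun e he => ?_, rfl⟩
            rw [AlgEquiv.trans_apply, hδ e he, AlgEquiv.symm_apply_eq]
            exact (hγ e he).symm
          have h7 := congrArg γ (hβS _ h6)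
          rw [map_sum, map_zero] at h7
          rw [← h7]
          refine Finset.sum_congr rfl fun i _ => ?_
          show γ (β i) * δ (z i) = γ (β i * γ.symm (δ (z i)))
          rw [map_mul γ (β i) (γ.symm (δ (z i))), AlgEquiv.apply_symm_apply]
        simp only [sub_mul]
        rw [Finset.sum_sub_distrib, h5, h4, sub_zero]
      · rw [← hcn]
        apply Finset.card_lt_card
        refine Finset.ssubset_iff_subset_ne.2 ⟨?_, ?_⟩
        · intro i hi
          rw [Finset.mem_filter] at hi ⊢
          refine ⟨Finset.mem_univ _, fun h4 => hi.2 ?_⟩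
          simp only [hβ, h4, mul_zero, map_zero, sub_zero]
        · intro h4
          have h5 : i0 ∈ Finset.univ.filter fun i => c i ≠ 0 :=
            Finset.mem_filter.2 ⟨Finset.mem_univ _, hi0⟩
          rw [← h4, Finset.mem_filter] at h5
          apply h5.2
          show γ (β i0) - β i0 = 0
          rw [hβ0, map_one, sub_self]
    intro i
    exact sub_eq_zero.1 (congrFun h3 i)
  refine ⟨β, ⟨i0, by rw [hβ0]; exact one_ne_zero⟩, ?_, ?_⟩
  · obtain ⟨x, hx⟩ := hQ.exists
    apply hβS
    rw [← hx, hR]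
    exact ⟨AlgEquiv.refl, fun _ _ => rfl, rfl⟩
  · intro i
    filter_upwards [hQ] with x hx
    have h3 := InfiniteGalois.fixedField_fixingSubgroup (k := F) (K := Ω) (E x)
    rw [← h3, IntermediateField.mem_fixedField_iff]
    intro σ hσ
    exact hfix x hx σ (fun e he => (IntermediateField.mem_fixingSubgroup_iff _ σ).1 hσ e he) i

/-- The choice lemma for a property that passes to limits. -/
theorem choice90 (U : Ultrafilter ℕ) (hU : ∀ s : Set ℕ, s.Finite → s ∉ U) (B : ℕ)
    (P : ℕ → IntermediateField F Ω → Prop)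
    (hlim : ∀ (X : Type) (W : Ultrafilter X) (E : X → IntermediateField F Ω),
      (∀ x, FiniteDimensional F (E x) ∧ finrank F (E x) ≤ B) →
      ∃ M : IntermediateField F Ω, FiniteDimensional F M ∧
        ∀ l, (∀ᶠ x in (W : Filter X), P l (E x)) → P l M)
    (hu : ∀ M : IntermediateField F Ω, FiniteDimensional F M → {l | P l M}.Finite) (h : ℕ) :
    ∀ (i : Fin h) (E : (Fin h → ℕ) → IntermediateField F Ω),
      (∀ c l, E (Function.update c i l) = E c) →
      (∀ c, FiniteDimensional F (E c) ∧ finrank F (E c) ≤ B) →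
      ∀ᶠ c in (W66 U h : Filter (Fin h → ℕ)), ¬ P (c i) (E c) := by
  induction h with
  | zero => exact fun i => i.elim0
  | succ h ih =>
    intro i E hE hB
    rw [W66_succ]
    refine Fin.cases ?_ (fun i' => ?_) i (motive := fun i => (∀ c l, E (Function.update c i l) = E c) →
      ∀ᶠ l in (U : Filter ℕ), ∀ᶠ c in (W66 U h : Filter (Fin h → ℕ)),
        ¬ P ((Fin.cons l c : Fin (h + 1) → ℕ) i) (E (Fin.cons l c))) hE
    · intro hE0
      by_contra hcon
      rw [← Ultrafilter.eventually_not] at hcon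
      have hcon2 : ∀ᶠ l in (U : Filter ℕ), ∀ᶠ c in (W66 U h : Filter (Fin h → ℕ)),
          P l (E (Fin.cons 0 c)) := by
        filter_upwards [hcon] with l hl
        rw [← Ultrafilter.eventually_not] at hl
        filter_upwards [hl] with c hc
        rw [not_not] at hc
        have h1 := hE0 (Fin.cons l c) 0
        rw [Fin.update_cons_zero] at h1
        rw [h1]
        exact hc
      obtain ⟨M, hM1, hM2⟩ := hlim (Fin h → ℕ) (W66 U h) (fun c => E (Fin.cons 0 c))
        (fun c => hB _)
      exact hU _ ((hu M hM1).subset fun l hl => hM2 l hl) hcon2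
    · intro hEi
      refine Eventually.of_forall fun l => ?_
      have h1 := ih i' (fun c => E (Fin.cons l c)) (by
        intro c m
        have h2 := hEi (Fin.cons l c) m
        rw [← Fin.cons_update] at h2
        exact h2) (fun c => hB _)
      simpa using h1

/-- Linear dependence passes to limits. -/
theorem lim90 [CharZero F] [IsAlgClosed Ω] [Algebra.IsAlgebraic F Ω] {κ : Type} [Fintype κ]
    (B : ℕ) (z : ℕ → κ → Ω) (X : Type) (W : Ultrafilter X) (E : X → IntermediateField F Ω)
    (hB : ∀ x, FiniteDimensional F (E x) ∧ finrank F (E x) ≤ B) :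
    ∃ M : IntermediateField F Ω, FiniteDimensional F M ∧
      ∀ l, (∀ᶠ x in (W : Filter X), ¬ LinearIndependent (E x) (z l)) →
        ¬ LinearIndependent M (z l) := by
  obtain ⟨M, hM1, hM2⟩ := bounded90 B {w : Ω | ∀ᶠ x in (W : Filter X), w ∈ E x} (by
    intro T hT
    have h1 : ∀ᶠ x in (W : Filter X), ∀ l ∈ T, l ∈ E x := by
      rw [Filter.eventually_all_finset]
      exact fun l hl => hT hl
    obtain ⟨x, hx⟩ := h1.exists
    exact ⟨E x, (hB x).1, (hB x).2, hx⟩)
  refine ⟨M, hM1, fun l hl => ?_⟩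
  obtain ⟨β, ⟨i, hi⟩, hβ2, hβ3⟩ := rel90 W E (z l) hl
  rw [Fintype.not_linearIndependent_iff]
  refine ⟨fun i => ⟨β i, hM2 _ (hβ3 i)⟩, ?_, i, ?_⟩
  · rw [← hβ2]
    rfl
  · intro h0
    exact hi (congrArg Subtype.val h0)

/-- Moves over a field. -/
theorem moves90 [CharZero F] [IsAlgClosed Ω] [Algebra.IsAlgebraic F Ω]
    (E : IntermediateField F Ω) (w : Ω) (D : ℕ) (hD : D ≤ (minpoly E w).natDegree) :
    ∃ T : Fin D → (Ω ≃ₐ[F] Ω), (∀ a, ∀ e ∈ E, T a e = e) ∧
      Function.Injective fun a => T a w := by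
  classical
  have hcharE : CharZero E := charZero_of_injective_algebraMap (algebraMap F E).injective
  have hcl : IsAlgClosure F Ω := ⟨inferInstance, inferInstance⟩
  have hnor : Normal F Ω := IsAlgClosure.normal F Ω
  have hnorE : Normal E Ω := Normal.tower_top_of_normal F E Ω
  have halgE : Algebra.IsAlgebraic E Ω := Algebra.IsAlgebraic.tower_top (K := F) E
  have hint : IsIntegral E w := Algebra.IsIntegral.isIntegral w
  have hsep : (minpoly E w).Separable := (minpoly.irreducible hint).separable
  have hcard := Polynomial.card_rootSet_eq_natDegree (K := Ω) hsep (IsAlgClosed.splits _)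
  have h1 : D ≤ Fintype.card ((minpoly E w).rootSet Ω) := by rw [hcard]; exact hD
  have h2 : Nonempty (Fin D ↪ (minpoly E w).rootSet Ω) := by
    apply Function.Embedding.nonempty_of_card_le
    rw [Fintype.card_fin]
    exact h1
  obtain ⟨f⟩ := h2
  have h3 : ∀ a, ∃ σ : Ω ≃ₐ[E] Ω, σ w = (f a : Ω) := by
    intro a
    have h4 := (Polynomial.mem_rootSet.1 (f a).2).2
    obtain ⟨σ, hσ⟩ := minpoly.exists_algEquiv_of_root' (K := E) (L := Ω) (x := (f a : Ω)) (y := w)
      hint.isAlgebraic h4
    exact ⟨σ, hσ⟩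
  choose σ hσ using h3
  refine ⟨fun a => AlgEquiv.restrictScalars F (σ a), ?_, ?_⟩
  · intro a e he
    exact (σ a).commutes ⟨e, he⟩
  · intro a b hab
    have h4 : σ a w = σ b w := hab
    rw [hσ, hσ] at h4
    exact f.injective (Subtype.ext h4)

/-- The algebraic case. -/
theorem galAlgV90 (hdeg : StDeg) [CharZero F] [IsAlgClosed Ω] [Algebra.IsAlgebraic F Ω] (h B : ℕ)
    (r : Fin h → ℕ) (q : (i : Fin h) → Fin (r i) → ℕ) (D : Fin h → ℕ)
    (y : ((i : Fin h) → Ix (q i)) → Ω) (v : (i : Fin h) → ℕ → Ix (q i) → Ω)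
    (hB : ∀ i l t, (minpoly F (v i l t)).natDegree ≤ B)
    (hZL : ∀ i l, ZL (q i) (v i l))
    (hD : ∀ i, (D i - 1) * ∏ s, q i s < 2 ^ r i * ∏ s, (q i s - 1))
    (hfin : ∀ i, ∀ M : IntermediateField F Ω, FiniteDimensional F M →
      {l | ¬ LinearIndependent M (wone (fun t => v i l (bas (q i) t)))}.Finite) :
    ∃ (c : Fin h → ℕ) (t : (i : Fin h) → Ix (q i)),
      ∏ i, (D i + 1) ≤ (minpoly F (y t + ∑ i, v i (c i) (t i))).natDegree := by
  classical
  have hint : ∀ z : Ω, IsIntegral F z := fun z => Algebra.IsIntegral.isIntegral z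
  set D' : ℕ := B + ∑ t, (minpoly F (y t)).natDegree + 1 with hD'
  let S : Fin h → (Fin h → ℕ) → Finset Ω := fun i c =>
    (Finset.univ.biUnion fun t => conj66 F (y t)) ∪
      (Finset.univ.erase i).biUnion (fun j => Finset.univ.biUnion fun t => conj66 F (v j (c j) t))
  have hydeg : ∀ t, (minpoly F (y t)).natDegree ≤ D' := by
    intro t
    have h1 := Finset.single_le_sum (f := fun t => (minpoly F (y t)).natDegree)
      (fun _ _ => Nat.zero_le _) (Finset.mem_univ t)
    omega
  have hvdeg : ∀ i l t, (minpoly F (v i l t)).natDegree ≤ D' := fun i l t =>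
    le_trans (hB i l t) (by omega)
  set C : ℕ := (∑ _t : (i : Fin h) → Ix (q i), D') + ∑ j, ∑ _t : Ix (q j), D' with hC
  have hcard : ∀ i c, (S i c).card ≤ C := by
    intro i c
    refine le_trans (Finset.card_union_le _ _) (Nat.add_le_add ?_ ?_)
    · refine le_trans Finset.card_biUnion_le (Finset.sum_le_sum fun t _ => ?_)
      exact le_trans (card_conj66 _) (hydeg t)
    · refine le_trans Finset.card_biUnion_le ?_
      refine le_trans (Finset.sum_le_sum_of_subset (Finset.erase_subset i Finset.univ)) ?_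
      refine Finset.sum_le_sum fun j _ => ?_
      refine le_trans Finset.card_biUnion_le (Finset.sum_le_sum fun t _ => ?_)
      exact le_trans (card_conj66 _) (hvdeg j _ t)
  have hdegS : ∀ i c, ∀ x ∈ S i c, IsIntegral F x ∧ (minpoly F x).natDegree ≤ D' := by
    intro i c x hx
    refine ⟨hint x, ?_⟩
    simp only [S, Finset.mem_union, Finset.mem_biUnion] at hx
    rcases hx with ⟨t, _, hx⟩ | ⟨j, _, t, _, hx⟩
    · exact le_trans (conj66_deg (hint _) hx).2 (hydeg t)
    · exact le_trans (conj66_deg (hint _) hx).2 (hvdeg _ _ _)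
  have hall : ∀ i, ∀ᶠ c in (W66 (hyperfilter ℕ) h : Filter (Fin h → ℕ)),
      ¬ ¬ LinearIndependent (IntermediateField.adjoin F (S i c : Set Ω))
        (wone (fun t => v i (c i) (bas (q i) t))) := by
    intro i
    refine choice90 (F := F) (hyperfilter ℕ) (fun s hs => hs.notMem_hyperfilter)
      (D' ^ C) (fun l M => ¬ LinearIndependent M (wone (fun t => v i l (bas (q i) t))))
      (fun X W E hE => lim90 (D' ^ C) (fun l => wone (fun t => v i l (bas (q i) t))) X W E hE)
      (hfin i) h i (fun c => IntermediateField.adjoin F (S i c : Set Ω)) ?_ ?_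
    · intro c l
      have h1 : S i (Function.update c i l) = S i c := by
        simp only [S]
        congr 1
        apply Finset.biUnion_congr rfl
        intro j hj
        rw [Function.update_of_ne (Finset.ne_of_mem_erase hj)]
      simp only [h1]
    · intro c
      obtain ⟨h1, h2⟩ := adjoin_bound66 (F := F) D' (S i c) (hdegS i c)
      exact ⟨h1, le_trans h2 (Nat.pow_le_pow_right (by omega) (hcard i c))⟩
  rw [← Filter.eventually_all] at hall
  obtain ⟨c, hc⟩ := hall.exists
  have ht : ∀ i, ∃ t, D i + 1 ≤ (minpoly (IntermediateField.adjoin F (S i c : Set Ω))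
      (v i (c i) t)).natDegree := by
    intro i
    have hcharE : CharZero (IntermediateField.adjoin F (S i c : Set Ω)) :=
      charZero_of_injective_algebraMap
        (algebraMap F (IntermediateField.adjoin F (S i c : Set Ω))).injective
    have halgE : Algebra.IsAlgebraic (IntermediateField.adjoin F (S i c : Set Ω)) Ω :=
      Algebra.IsAlgebraic.tower_top (K := F) _
    exact hdeg (IntermediateField.adjoin F (S i c : Set Ω)) Ω (r i) (q i) (v i (c i)) (hZL i (c i))
      (fun t => Algebra.IsAlgebraic.isAlgebraic _) (not_not.1 (hc i)) (D i) (hD i)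
  choose t ht using ht
  refine ⟨c, t, ?_⟩
  set w : Fin h → Ω := fun i => v i (c i) (t i) with hw
  have hmv := fun i => moves90 (IntermediateField.adjoin F (S i c : Set Ω)) (w i) (D i + 1) (ht i)
  choose σ hσ1 hσ2 using hmv
  have hfix : ∀ i a, ∀ z ∈ S i c, σ i a z = z := fun i a z hz =>
    hσ1 i a z (IntermediateField.subset_adjoin F _ hz)
  have hSy : ∀ i, y t ∈ S i c := fun i => by
    simp only [S, Finset.mem_union, Finset.mem_biUnion]
    exact Or.inl ⟨t, Finset.mem_univ _, self_mem_conj66 (hint _)⟩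
  have hSw : ∀ i j, j ≠ i → ∀ z ∈ conj66 F (w j), z ∈ S i c := by
    intro i j hji z hz
    simp only [S, Finset.mem_union, Finset.mem_biUnion]
    exact Or.inr ⟨j, Finset.mem_erase.2 ⟨hji, Finset.mem_univ j⟩, t j, Finset.mem_univ _, hz⟩
  -- the automorphisms
  have h5 : ∀ (a : (i : Fin h) → Fin (D i + 1)) (T : Finset (Fin h)), ∃ τ : Ω ≃ₐ[F] Ω,
      τ (y t) = y t ∧ ∀ j, τ (w j) = if j ∈ T then σ j (a j) (w j) else w j := by
    intro a T
    induction T using Finset.induction_on with
    | empty => exact ⟨AlgEquiv.refl, rfl, fun j => by simp⟩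
    | insert i T hi ih =>
      obtain ⟨τ, hτ1, hτ2⟩ := ih
      refine ⟨τ.trans (σ i (a i)), ?_, ?_⟩
      · rw [AlgEquiv.trans_apply, hτ1, hfix i _ _ (hSy i)]
      · intro j
        rw [AlgEquiv.trans_apply]
        rcases eq_or_ne j i with rfl | hji
        · rw [hτ2 j, if_neg hi, if_pos (Finset.mem_insert_self _ _)]
        · rw [hfix i _ _ (hSw i j hji _ (map_mem_conj66 (hint _) τ)), hτ2 j]
          by_cases hjT : j ∈ T
          · rw [if_pos hjT, if_pos (Finset.mem_insert_of_mem hjT)]
          · rw [if_neg hjT, if_neg]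
            rw [Finset.mem_insert, not_or]
            exact ⟨hji, hjT⟩
  set x : Ω := y t + ∑ i, w i with hx
  have h6 : ∀ a : (i : Fin h) → Fin (D i + 1), y t + ∑ j, σ j (a j) (w j) ∈ conj66 F x := by
    intro a
    obtain ⟨τ, hτ1, hτ2⟩ := h5 a Finset.univ
    have h7 : τ x = y t + ∑ j, σ j (a j) (w j) := by
      rw [hx, map_add, map_sum, hτ1]
      simp_rw [hτ2]
      simp
    rw [← h7]
    exact map_mem_conj66 (hint x) τ
  have h7 : ∀ a b : (i : Fin h) → Fin (D i + 1),
      ∑ j, σ j (a j) (w j) = ∑ j, σ j (b j) (w j) → ∀ i, a i = b i := by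
    intro a b hab i
    by_contra hne
    have h8 : σ i (a i) (w i) - σ i (b i) (w i) =
        ∑ j ∈ Finset.univ.erase i, (σ j (b j) (w j) - σ j (a j) (w j)) := by
      rw [← Finset.add_sum_erase Finset.univ _ (Finset.mem_univ i),
        ← Finset.add_sum_erase Finset.univ (fun j => σ j (b j) (w j)) (Finset.mem_univ i)] at hab
      rw [Finset.sum_sub_distrib]
      linear_combination hab
    set η := σ i (a i) (w i) - σ i (b i) (w i) with hη
    have h9 : ∀ k, σ i k η = η := by
      intro k
      rw [h8, map_sum]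
      refine Finset.sum_congr rfl fun j hj => ?_
      have hji := Finset.ne_of_mem_erase hj
      rw [map_sub, hfix i k _ (hSw i j hji _ (map_mem_conj66 (hint _) (σ j (b j)))),
        hfix i k _ (hSw i j hji _ (map_mem_conj66 (hint _) (σ j (a j))))]
    have h10 : η = 0 := by
      refine no_translation66 ((σ i (b i)).symm.trans (σ i (a i))) (σ i (b i) (w i)) η ?_ ?_
      · rw [AlgEquiv.trans_apply, AlgEquiv.symm_apply_apply, hη]
        ring
      · rw [AlgEquiv.trans_apply]
        have h11 : (σ i (b i)).symm η = η := by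
          rw [AlgEquiv.symm_apply_eq]
          exact (h9 _).symm
        rw [h11]
        exact h9 _
    exact hne (hσ2 i (sub_eq_zero.1 h10))
  have h8 : (Finset.univ : Finset ((i : Fin h) → Fin (D i + 1))).card ≤ (conj66 F x).card := by
    apply Finset.card_le_card_of_injOn (fun a => y t + ∑ j, σ j (a j) (w j))
    · intro a _
      exact h6 a
    · intro a _ b _ hab
      exact funext (h7 a b (add_left_cancel hab))
  rw [Finset.card_univ, Fintype.card_pi] at h8
  simp only [Fintype.card_fin] at h8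
  exact le_trans h8 (card_conj66 x)

/-- V5. -/
theorem galv_90 (hdeg : StDeg) : StGalV := by
  intro F Ω _ _ _ _ _ h B r q D y v hy hv hZL hD hfin
  let Ω' : IntermediateField F Ω := algebraicClosure F Ω
  have hcl : IsAlgClosure F Ω' := algebraicClosure.isAlgClosure F Ω
  have hcl1 : IsAlgClosed Ω' := hcl.isAlgClosed
  have hcl2 : Algebra.IsAlgebraic F Ω' := hcl.isAlgebraic
  have hv' : ∀ i l t, v i l t ∈ Ω' := fun i l t => mem_algebraicClosure_iff.2 (hv i l t).1
  have hy' : ∀ t, y t ∈ Ω' := fun t => mem_algebraicClosure_iff.2 (hy t)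
  have hmin : ∀ z : Ω', (minpoly F (z : Ω)) = minpoly F z := fun z =>
    minpoly.algebraMap_eq (algebraMap Ω' Ω).injective z
  obtain ⟨c, t, hc⟩ := galAlgV90 (F := F) (Ω := Ω') hdeg h B r q D (fun t => ⟨y t, hy' t⟩)
    (fun i l t => ⟨v i l t, hv' i l t⟩)
    (fun i l t => by rw [← hmin]; exact (hv i l t).2)
    (fun i l s t => by
      apply Subtype.ext
      rw [IntermediateField.coe_sum]
      exact hZL i l s t)
    hD
    (fun i M hM => by
      have h1 : FiniteDimensional F (IntermediateField.lift M) :=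
        LinearEquiv.finiteDimensional (IntermediateField.liftAlgEquiv M).toLinearEquiv
      refine (hfin i (IntermediateField.lift M) h1).subset ?_
      intro l hl
      have hl' : ¬ LinearIndependent M
        (wone (fun t => (⟨v i l (bas (q i) t), hv' i l _⟩ : Ω'))) := hl
      show ¬ LinearIndependent (IntermediateField.lift M) (wone (fun t => v i l (bas (q i) t)))
      rw [Fintype.not_linearIndependent_iff] at hl' ⊢
      obtain ⟨g, hg1, o, hg2⟩ := hl'
      refine ⟨fun o => ⟨((g o : Ω') : Ω), (IntermediateField.mem_lift (g o : Ω')).2 (g o).2⟩,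
        ?_, o, ?_⟩
      · have h2 := congrArg (Subtype.val : Ω' → Ω) hg1
        rw [IntermediateField.coe_sum] at h2
        rw [IntermediateField.coe_zero] at h2
        rw [← h2]
        refine Finset.sum_congr rfl fun o' _ => ?_
        rcases o' with _ | t'
        · rfl
        · rfl
      · intro h0
        apply hg2
        have h2 := congrArg Subtype.val h0
        exact Subtype.ext (Subtype.ext h2))
  refine ⟨c, t, ?_⟩
  rw [← hmin] at hc
  have h2 : (((⟨y t, hy' t⟩ : Ω') + ∑ i, (⟨v i (c i) (t i), hv' i (c i) (t i)⟩ : Ω') : Ω') : Ω) =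
      y t + ∑ i, v i (c i) (t i) := by
    rw [IntermediateField.coe_add, IntermediateField.coe_sum]
  rw [h2] at hc
  exact hc

end Pool.Agent.Lib.MP_c50dba_nt.BX
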