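import Pool.Agent.Lib.MP_c50dba_nt.BX.StmtsV
import Pool.Agent.Lib.MP_c50dba_nt.BX.Star83

set_option autoImplicit false

/-!
V1: for almost all `l` the numbers `1, e_l` are linearly independent over `M`, from V0 and B2.
-/

namespace Pool.Agent.Lib.MP_c50dba_nt.BX

open Module
open scoped IntermediateField

/-- One step: a linear relation lowers the dimension. -/
theorem step77 {k Ω κ : Type} [Field k] [Field Ω] [Algebra k Ω] [Fintype κ]
    (X U : Submodule k Ω) [FiniteDimensional k X] [FiniteDimensional k U] (t : κ → Ω) (x0 : Ω)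
    (hx0 : x0 ∈ X) (u0 : κ → Ω) (hu0 : ∀ s, u0 s ∈ U) (hne : ∃ s, u0 s ≠ 0)
    (hrel : x0 + ∑ s, u0 s * t s = 0) :
    finrank k (X ⊔ ⨆ s, U.map (LinearMap.mulRight k (t s)) : Submodule k Ω) + 1 ≤
      finrank k X + Fintype.card κ * finrank k U := by
  classical
  let Φ : (X × (κ → U)) →ₗ[k] Ω :=
    X.subtype.coprod (∑ s, ((LinearMap.mulRight k (t s)).comp U.subtype).comp
      (LinearMap.proj s))
  have hΦ : ∀ (x : X) (u : κ → U), Φ (x, u) = (x : Ω) + ∑ s, (u s : Ω) * t s := by
    intro x u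
    simp [Φ, LinearMap.coprod_apply]
  have hle : (X ⊔ ⨆ s, U.map (LinearMap.mulRight k (t s)) : Submodule k Ω) ≤
      LinearMap.range Φ := by
    refine sup_le ?_ (iSup_le fun s => ?_)
    · intro x hx
      refine ⟨(⟨x, hx⟩, 0), ?_⟩
      rw [hΦ]
      simp
    · rintro x ⟨u, hu, rfl⟩
      refine ⟨(0, Pi.single s ⟨u, hu⟩), ?_⟩
      rw [hΦ, Finset.sum_eq_single s]
      · simp
      · intro b _ hb
        rw [Pi.single_eq_of_ne hb]
        simp
      · intro h
        exact absurd (Finset.mem_univ s) h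
  have h1 := Submodule.finrank_mono hle
  have h2 := LinearMap.finrank_range_add_finrank_ker Φ
  have h3 : finrank k (X × (κ → U)) = finrank k X + Fintype.card κ * finrank k U := by
    rw [finrank_prod, Module.finrank_pi_fintype]
    simp
  have h4 : 0 < finrank k (LinearMap.ker Φ) := by
    refine (Module.finrank_pos_iff_exists_ne_zero (R := k) (M := LinearMap.ker Φ)).2
      ⟨⟨(⟨x0, hx0⟩, fun s => ⟨u0 s, hu0 s⟩), ?_⟩, ?_⟩
    · rw [LinearMap.mem_ker, hΦ]
      exact hrel
    · intro h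
      obtain ⟨s, hs⟩ := hne
      have h5 := congrArg (fun z : LinearMap.ker Φ => ((z : X × (κ → U)).2 s : Ω)) h
      exact hs h5
  omega

/-- The spaces. -/
noncomputable def Xr77 {k Ω κ : Type} [Field k] [Field Ω] [Algebra k Ω] (U : Submodule k Ω)
    (t0 : Ω) (t : ℕ → κ → Ω) : ℕ → Submodule k Ω
  | 0 => U.map (LinearMap.mulRight k t0)
  | n + 1 => Xr77 U t0 t n ⊔ ⨆ s, U.map (LinearMap.mulRight k (t n s))

theorem Xr_fd77 {k Ω κ : Type} [Field k] [Field Ω] [Algebra k Ω] [Fintype κ] (U : Submodule k Ω)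
    [FiniteDimensional k U] (t0 : Ω) (t : ℕ → κ → Ω) (n : ℕ) :
    FiniteDimensional k (Xr77 U t0 t n) := by
  induction n with
  | zero =>
    change FiniteDimensional k (U.map (LinearMap.mulRight k t0))
    infer_instance
  | succ n ih =>
    change FiniteDimensional k
      (Xr77 U t0 t n ⊔ ⨆ s, U.map (LinearMap.mulRight k (t n s)) : Submodule k Ω)
    infer_instance

theorem Xr_zero77 {k Ω κ : Type} [Field k] [Field Ω] [Algebra k Ω] (U : Submodule k Ω)
    (t0 : Ω) (t : ℕ → κ → Ω) (n : ℕ) : U.map (LinearMap.mulRight k t0) ≤ Xr77 U t0 t n := by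
  induction n with
  | zero => exact le_rfl
  | succ n ih =>
    exact ih.trans (le_sup_left : Xr77 U t0 t n ≤
      Xr77 U t0 t n ⊔ ⨆ s, U.map (LinearMap.mulRight k (t n s)))

theorem Xr_mono77 {k Ω κ : Type} [Field k] [Field Ω] [Algebra k Ω] (U : Submodule k Ω)
    (t0 : Ω) (t : ℕ → κ → Ω) (n j : ℕ) (hj : j < n) (s : κ) :
    U.map (LinearMap.mulRight k (t j s)) ≤ Xr77 U t0 t n := by
  induction n with
  | zero => omega
  | succ n ih =>
    rcases Nat.lt_or_ge j n with h | h
    · exact (ih h).trans (le_sup_left : Xr77 U t0 t n ≤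
        Xr77 U t0 t n ⊔ ⨆ s, U.map (LinearMap.mulRight k (t n s)))
    · obtain rfl : j = n := by omega
      exact (le_iSup (fun s => U.map (LinearMap.mulRight k (t j s))) s).trans
        (le_sup_right : _ ≤ Xr77 U t0 t j ⊔ ⨆ s, U.map (LinearMap.mulRight k (t j s)))

theorem Xr_rank77 {k Ω κ : Type} [Field k] [Field Ω] [Algebra k Ω] [Fintype κ]
    (U : Submodule k Ω) [FiniteDimensional k U] (t0 : Ω) (t : ℕ → κ → Ω)
    (hrel : ∀ j, ∃ a ∈ U, ∃ u : κ → Ω, (∀ s, u s ∈ U) ∧ (∃ s, u s ≠ 0) ∧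
      a * t0 + ∑ s, u s * t j s = 0) (n : ℕ) :
    finrank k (Xr77 U t0 t n) + n ≤ finrank k U * (n * Fintype.card κ + 1) := by
  induction n with
  | zero =>
    have : finrank k (U.map (LinearMap.mulRight k t0)) ≤ finrank k U :=
      Submodule.finrank_map_le _ _
    change finrank k (U.map (LinearMap.mulRight k t0)) + 0 ≤
      finrank k U * (0 * Fintype.card κ + 1)
    rw [Nat.zero_mul, Nat.zero_add, Nat.mul_one]
    exact this
  | succ n ih =>
    have := Xr_fd77 U t0 t n
    obtain ⟨a, ha, u, hu, hne, hr⟩ := hrel n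
    have h1 := step77 (Xr77 U t0 t n) U (t n) (a * t0)
      (Xr_zero77 U t0 t n ⟨a, ha, rfl⟩) u hu hne hr
    have h4 : Xr77 U t0 t (n + 1) =
      Xr77 U t0 t n ⊔ ⨆ s, U.map (LinearMap.mulRight k (t n s)) := rfl
    rw [h4]
    have h5 : finrank k U * ((n + 1) * Fintype.card κ + 1) =
      finrank k U * (n * Fintype.card κ + 1) + Fintype.card κ * finrank k U := by ring
    omega

theorem prod_mem77 {k Ω κ : Type} [Field k] [Field Ω] [Algebra k Ω] (W : Submodule k Ω)
    (x : κ → Ω) (hx : ∀ i, x i ∈ W) (s : Finset κ) : ∏ i ∈ s, x i ∈ W ^ s.card := by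
  classical
  induction s using Finset.induction_on with
  | empty =>
    rw [Finset.prod_empty, Finset.card_empty, pow_zero]
    exact Submodule.one_le.1 le_rfl
  | insert a s ha ih =>
    rw [Finset.prod_insert ha, Finset.card_insert_of_notMem ha, pow_succ']
    exact Submodule.mul_mem_mul (hx a) ih

theorem Cx_mono77 {k Ω : Type} [Field k] [Field Ω] [Algebra k Ω] {U V : Submodule k Ω} {d d' : ℕ}
    {z : Ω} (hUV : U ≤ V) (hd : d ≤ d') (h : Cx U d z) : Cx V d' z := by
  obtain ⟨P, hP, h1, h2, h3⟩ := h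
  exact ⟨P, hP, h1.trans hd, fun j => hUV (h2 j), h3⟩

theorem Cx_one77 {k Ω : Type} [Field k] [Field Ω] [Algebra k Ω] {V : Submodule k Ω} {d' : ℕ}
    (h1 : (1 : Ω) ∈ V) (hd : 1 ≤ d') : Cx V d' (1 : Ω) := by
  refine ⟨Polynomial.X - Polynomial.C 1, Polynomial.X_sub_C_ne_zero 1, ?_, ?_, ?_⟩
  · rw [Polynomial.natDegree_X_sub_C]
    exact hd
  · intro j
    rw [Polynomial.coeff_sub, Polynomial.coeff_X, Polynomial.coeff_C]
    apply Submodule.sub_mem
    · split_ifs
      · exact h1
      · exact Submodule.zero_mem _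
    · split_ifs
      · exact h1
      · exact Submodule.zero_mem _
  · simp

/-- From quotients to a relation with coefficients in a finite dimensional space. -/
theorem clear77 {k Ω κ : Type} [Field k] [Field Ω] [Algebra k Ω] [Fintype κ] (W : Submodule k Ω)
    (β z : Option κ → Ω) (hz : z none = 1)
    (hβ : ∀ i, ∃ A ∈ W, ∃ B ∈ W, B ≠ 0 ∧ β i * B = A)
    (hsum : ∑ i, β i * z i = 0) (hne : ∃ i, β i ≠ 0) :
    ∃ a ∈ W ^ (Fintype.card (Option κ)), ∃ u : κ → Ω,
      (∀ s, u s ∈ W ^ (Fintype.card (Option κ))) ∧ (∃ s, u s ≠ 0) ∧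
      a + ∑ s, u s * z (some s) = 0 := by
  classical
  choose A hA B hB hB0 hAB using hβ
  let b : Option κ → Ω := fun i => ∏ j, Function.update B i (A i) j
  have hbW : ∀ i, b i ∈ W ^ (Fintype.card (Option κ)) := by
    intro i
    refine prod_mem77 W _ (fun j => ?_) Finset.univ
    by_cases h : j = i
    · subst h
      rw [Function.update_self]
      exact hA j
    · rw [Function.update_of_ne h]
      exact hB j
  have hb : ∀ i, b i = β i * ∏ j, B j := by
    intro i
    change ∏ j, Function.update B i (A i) j = β i * ∏ j, B j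
    rw [Finset.prod_update_of_mem (Finset.mem_univ i), ← hAB, mul_assoc]
    congr 1
    rw [← Finset.mul_prod_erase Finset.univ B (Finset.mem_univ i), Finset.sdiff_singleton_eq_erase]
  have hP : ∏ j, B j ≠ 0 := Finset.prod_ne_zero_iff.2 fun j _ => hB0 j
  have hs : b none + ∑ s, b (some s) * z (some s) = 0 := by
    have h1 : ∑ i, b i * z i = 0 := by
      have h2 : ∀ i, b i * z i = (∏ j, B j) * (β i * z i) := fun i => by
        rw [hb]
        ring
      rw [Finset.sum_congr rfl fun i _ => h2 i, ← Finset.mul_sum, hsum, mul_zero]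
    rw [Fintype.sum_option, hz, mul_one] at h1
    exact h1
  refine ⟨b none, hbW none, fun s => b (some s), fun s => hbW _, ?_, hs⟩
  by_contra hno
  push Not at hno
  have h0 : b none = 0 := by
    rw [Finset.sum_eq_zero fun s _ => by rw [hno s, zero_mul], add_zero] at hs
    exact hs
  obtain ⟨i, hi⟩ := hne
  rcases i with _ | s
  · rw [hb] at h0
    exact mul_ne_zero hi hP h0
  · have h1 := hno s
    rw [hb] at h1
    exact mul_ne_zero hi hP h1

theorem ind_77 (h1 : StRel) (h2 : StQuot) : StInd := by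
  classical
  intro k Ω _ _ _ _ _ U _ d κ _ e he hSR M _
  by_contra hinf
  have hinf' : {l | ¬ LinearIndependent M (wone (e l))}.Infinite := hinf
  let F := IntermediateField.adjoin k (U : Set Ω)
  have hess1 : Algebra.EssFiniteType k F :=
    IntermediateField.essFiniteType_iff.2 (fg_of_fd83 U)
  have hess2 : Algebra.EssFiniteType F M := inferInstance
  have hess3 : Algebra.EssFiniteType k M := Algebra.EssFiniteType.comp k F M
  have hFG : (M.restrictScalars k).FG := by
    rw [← IntermediateField.essFiniteType_iff]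
    exact hess3
  have hUM : ∀ u ∈ U, u ∈ M.restrictScalars k := by
    intro u hu
    rw [IntermediateField.mem_restrictScalars]
    exact M.algebraMap_mem (⟨u, IntermediateField.subset_adjoin k _ hu⟩ : F)
  let U1 : Submodule k Ω := U ⊔ Submodule.span k {(1 : Ω)}
  have hU1fd : FiniteDimensional k U1 := inferInstance
  have h1U1 : (1 : Ω) ∈ U1 :=
    (le_sup_right : _ ≤ U ⊔ Submodule.span k {(1 : Ω)}) (Submodule.mem_span_singleton_self 1)
  have hU1M : ∀ u ∈ U1, u ∈ M.restrictScalars k := by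
    have h3 : U1 ≤ (M.restrictScalars k).toSubalgebra.toSubmodule := by
      refine sup_le (fun u hu => hUM u hu) ?_
      rw [Submodule.span_le]
      rintro x hx
      rw [Set.mem_singleton_iff] at hx
      subst hx
      exact (M.restrictScalars k).one_mem
    exact fun u hu => h3 hu
  obtain ⟨U', d', hU'fd, hU'M, hrel⟩ := h1 k Ω U1 (max d 1) (Option κ)
  obtain ⟨W, hW, hWq⟩ := h2 k Ω (M.restrictScalars k) hFG U' (hU'M _ hU1M) d'
  let W' : Submodule k Ω := W ^ (Fintype.card (Option κ))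
  have hW'fd : FiniteDimensional k W' := by
    rw [← Submodule.fg_iff_finiteDimensional] at hW ⊢
    exact hW.pow _
  have hkey : ∀ l, ¬ LinearIndependent M (wone (e l)) → ∃ a ∈ W', ∃ u : κ → Ω,
      (∀ s, u s ∈ W') ∧ (∃ s, u s ≠ 0) ∧ a + ∑ s, u s * e l s = 0 := by
    intro l hl
    have hl' : ¬ LinearIndependent (M.restrictScalars k) (wone (e l)) := hl
    obtain ⟨β, hβ, hs, hne⟩ := hrel (M.restrictScalars k) hU1M (wone (e l)) (by
      intro i
      rcases i with _ | s
      · exact Cx_one77 h1U1 (le_max_right _ _)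
      · exact Cx_mono77 le_sup_left (le_max_left _ _) (he l s)) hl'
    exact clear77 W β (wone (e l)) rfl (fun i => hWq _ (hβ i).1 (hβ i).2) hs hne
  -- the sequence
  let g : ℕ ↪ {l | ¬ LinearIndependent M (wone (e l))} := hinf'.natEmbedding
  have hκ : Nonempty κ := by
    obtain ⟨a, _, u, _, ⟨s, _⟩, _⟩ := hkey (g 0) (g 0).2
    exact ⟨s⟩
  obtain ⟨s0⟩ := hκ
  let t0 : Ω := e (g 0) s0
  let t : ℕ → κ → Ω := fun j s => e (g (j + 1)) s
  have ht0 : t0 ≠ 0 := by
    intro h0
    have h3 := hSR 1 (fun _ => ((g 0 : ℕ), s0)) (fun a b _ => Subsingleton.elim a b) 1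
      (fun _ => 1)
      (LinearIndependent.of_subsingleton (R := k) (0 : Fin 1) (v := fun _ => (1 : Ω)) one_ne_zero)
    have h4 : Submodule.span k (Set.range (fun ij : Fin 1 × Fin 1 => (1 : Ω) * e (g 0) s0)) =
        ⊥ := by
      rw [Submodule.span_eq_bot]
      rintro x ⟨ij, rfl⟩
      change 1 * e (g 0) s0 = 0
      rw [one_mul]
      exact h0
    rw [h4, finrank_bot] at h3
    omega
  let U2 : Submodule k Ω := W'.map (LinearMap.mulRight k t0) ⊔ W'
  have hU2fd : FiniteDimensional k U2 := inferInstance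
  have hrel2 : ∀ j, ∃ a ∈ U2, ∃ u : κ → Ω, (∀ s, u s ∈ U2) ∧ (∃ s, u s ≠ 0) ∧
      a * t0 + ∑ s, u s * t j s = 0 := by
    intro j
    obtain ⟨a, ha, u, hu, ⟨s, hs⟩, hsum⟩ := hkey (g (j + 1)) (g (j + 1)).2
    refine ⟨a, (le_sup_right : W' ≤ U2) ha, fun s => u s * t0,
      fun s => (le_sup_left : W'.map (LinearMap.mulRight k t0) ≤ U2) ⟨u s, hu s, rfl⟩,
      ⟨s, mul_ne_zero hs ht0⟩, ?_⟩
    have h3 : a * t0 + ∑ s, u s * t0 * t j s = (a + ∑ s, u s * e (g (j + 1)) s) * t0 := by
      rw [add_mul, Finset.sum_mul]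
      congr 1
      exact Finset.sum_congr rfl fun s _ => by
        change u s * t0 * e (g (j + 1)) s = u s * e (g (j + 1)) s * t0
        ring
    rw [h3, hsum, zero_mul]
  set D := finrank k U2 with hD
  set n := D * D + 1 with hn
  let b := Module.finBasis k U2
  let ι : Type := Option (Fin n × κ)
  let f : ι → ℕ × κ := fun o => o.elim ((g 0 : ℕ), s0) (fun x => ((g ((x.1 : ℕ) + 1) : ℕ), x.2))
  have hf : Function.Injective f := by
    intro x y hxy
    rcases x with _ | x <;> rcases y with _ | y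
    · rfl
    · exfalso
      have h3 : ((g 0 : ℕ)) = (g ((y.1 : ℕ) + 1) : ℕ) := congrArg Prod.fst hxy
      have h4 := g.injective (Subtype.ext h3)
      omega
    · exfalso
      have h3 : ((g ((x.1 : ℕ) + 1) : ℕ)) = (g 0 : ℕ) := congrArg Prod.fst hxy
      have h4 := g.injective (Subtype.ext h3)
      omega
    · have h3 : ((g ((x.1 : ℕ) + 1) : ℕ)) = (g ((y.1 : ℕ) + 1) : ℕ) := congrArg Prod.fst hxy
      have h4 := g.injective (Subtype.ext h3)
      have h5 : x.2 = y.2 := congrArg (fun z : ℕ × κ => z.2) hxy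
      have h6 : x = y := Prod.ext (Fin.ext (by omega)) h5
      rw [h6]
  have hcard : Fintype.card ι = n * Fintype.card κ + 1 := by
    simp [ι]
  let eqv : Fin (Fintype.card ι) ≃ ι := (Fintype.equivFin ι).symm
  have hSR' := hSR (Fintype.card ι) (fun j => f (eqv j)) (hf.comp eqv.injective) D
    (fun i => (b i : Ω)) (by
    have := b.linearIndependent
    exact this.map' U2.subtype (Submodule.ker_subtype U2))
  have hXr := Xr_rank77 U2 t0 t hrel2 n
  have hXrfd := Xr_fd77 U2 t0 t n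
  have hle : Submodule.span k (Set.range (fun ij : Fin D × Fin (Fintype.card ι) =>
      (b ij.1 : Ω) * e (f (eqv ij.2)).1 (f (eqv ij.2)).2)) ≤ Xr77 U2 t0 t n := by
    rw [Submodule.span_le]
    rintro x ⟨ij, rfl⟩
    change (b ij.1 : Ω) * e (f (eqv ij.2)).1 (f (eqv ij.2)).2 ∈ Xr77 U2 t0 t n
    rcases hq : eqv ij.2 with _ | y
    · exact Xr_zero77 U2 t0 t n ⟨b ij.1, (b ij.1).2, rfl⟩
    · exact Xr_mono77 U2 t0 t n y.1 y.1.2 y.2 ⟨b ij.1, (b ij.1).2, rfl⟩
  have h5 := Submodule.finrank_mono hle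
  rw [← hD] at hXr
  have h7 : D * (Fintype.card ι + 1) = D * (n * Fintype.card κ + 1) + D := by
    rw [hcard]
    ring
  have h8 : D * (Fintype.card ι + 1) ≤ finrank k (Xr77 U2 t0 t n) + D * D :=
    hSR'.trans (Nat.add_le_add_right h5 _)
  omega

end Pool.Agent.Lib.MP_c50dba_nt.BX
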