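import Pool.Agent.Lib.MP_c50dba_nt.BX.Stmts

set_option autoImplicit false

/-!
B5: the infinite form, from the star property and the Galois part.
-/

namespace Pool.Agent.Lib.MP_c50dba_nt.BX

open Module
open scoped IntermediateField

theorem alg_of_Cx83 {k Ω : Type} [Field k] [Field Ω] [Algebra k Ω] (U : Submodule k Ω) (d : ℕ)
    (z : Ω) (h : Cx U d z) : IsAlgebraic (IntermediateField.adjoin k (U : Set Ω)) z ∧
      (minpoly (IntermediateField.adjoin k (U : Set Ω)) z).natDegree ≤ d := by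
  obtain ⟨P, hP, hd, hU, hz⟩ := h
  have h1 : P ∈ Polynomial.lifts (algebraMap (IntermediateField.adjoin k (U : Set Ω)) Ω) := by
    rw [Polynomial.lifts_iff_coeff_lifts]
    intro j
    exact ⟨⟨P.coeff j, IntermediateField.subset_adjoin k _ (hU j)⟩, rfl⟩
  obtain ⟨Q, hQ, hQd⟩ := Polynomial.exists_natDegree_eq_of_mem_lifts h1
  have hQ0 : Q ≠ 0 := by
    rintro rfl
    exact hP (by rw [← hQ, Polynomial.map_zero])
  have h2 : Polynomial.aeval z Q = 0 := by
    rw [← Polynomial.eval_map_algebraMap, hQ]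
    exact hz
  refine ⟨⟨Q, hQ0, h2⟩, ?_⟩
  have h3 := Polynomial.natDegree_le_of_dvd
    (minpoly.dvd (IntermediateField.adjoin k (U : Set Ω)) z h2) hQ0
  omega

theorem deg_of_mem83 {F Ω : Type} [Field F] [Field Ω] [Algebra F Ω] (E : IntermediateField F Ω)
    [FiniteDimensional F E] (z : Ω) (hz : z ∈ E) : IsAlgebraic F z ∧
      (minpoly F z).natDegree ≤ finrank F E := by
  have h1 : minpoly F z = minpoly F (⟨z, hz⟩ : E) :=
    (minpoly.algebraMap_eq (algebraMap E Ω).injective (⟨z, hz⟩ : E))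
  have h3 : IsIntegral F (⟨z, hz⟩ : E) := IsIntegral.of_finite F _
  refine ⟨?_, ?_⟩
  · have h2 : IsIntegral F (algebraMap E Ω ⟨z, hz⟩) := h3.algebraMap
    exact h2.isAlgebraic
  · rw [h1]
    exact minpoly.natDegree_le _

theorem deg_sub83 {F Ω : Type} [Field F] [Field Ω] [Algebra F Ω] (x y : Ω) (d : ℕ)
    (hx : IsAlgebraic F x ∧ (minpoly F x).natDegree ≤ d)
    (hy : IsAlgebraic F y ∧ (minpoly F y).natDegree ≤ d) :
    IsAlgebraic F (x - y) ∧ (minpoly F (x - y)).natDegree ≤ d * d := by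
  have : FiniteDimensional F F⟮x⟯ := IntermediateField.adjoin.finiteDimensional hx.1.isIntegral
  have : FiniteDimensional F F⟮y⟯ := IntermediateField.adjoin.finiteDimensional hy.1.isIntegral
  have hfx := IntermediateField.adjoin.finrank hx.1.isIntegral
  have hfy := IntermediateField.adjoin.finrank hy.1.isIntegral
  have h1 := IntermediateField.finrank_sup_le F⟮x⟯ F⟮y⟯
  have hmem : x - y ∈ F⟮x⟯ ⊔ F⟮y⟯ := by
    apply IntermediateField.sub_mem
    · exact (le_sup_left : F⟮x⟯ ≤ F⟮x⟯ ⊔ F⟮y⟯) (IntermediateField.mem_adjoin_simple_self F x)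
    · exact (le_sup_right : F⟮y⟯ ≤ F⟮x⟯ ⊔ F⟮y⟯) (IntermediateField.mem_adjoin_simple_self F y)
  obtain ⟨h2, h3⟩ := deg_of_mem83 (F⟮x⟯ ⊔ F⟮y⟯) (x - y) hmem
  refine ⟨h2, h3.trans (h1.trans ?_)⟩
  rw [hfx, hfy]
  exact Nat.mul_le_mul hx.2 hy.2

theorem infB_83 (h3 : StStar) (h4 : StGal) : StInfB := by
  intro k Ω _ _ _ _ _ U _ d h y v hCx hSR
  have hchar : CharZero (IntermediateField.adjoin k (U : Set Ω)) :=
    charZero_of_injective_algebraMap (algebraMap k (IntermediateField.adjoin k (U : Set Ω))).injective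
  have hy : Cx U d y := by
    have := hCx ∅ (fun _ => 0)
    simpa using this
  have hyv : ∀ i l, Cx U d (y + v i l) := by
    intro i l
    have := hCx {i} (fun _ => l)
    simpa using this
  obtain ⟨c, hc⟩ := h4 (IntermediateField.adjoin k (U : Set Ω)) Ω h (d * d) y v
    (alg_of_Cx83 U d y hy).1 (by
      intro i l
      have h5 := deg_sub83 (y + v i l) y d (alg_of_Cx83 U d _ (hyv i l)) (alg_of_Cx83 U d y hy)
      rwa [add_sub_cancel_left] at h5) (by
      intro i M hM
      apply h3 k Ω U d y (v i) hy (hyv i) ?_ M hM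
      intro n g hg d' u hu
      exact hSR n (fun j => (i, g j)) (fun j j' hj => hg (Prod.mk.inj hj).2) d' u hu)
  have h6 := (alg_of_Cx83 U d _ (hCx Finset.univ c)).2
  exact hc.trans h6

end Pool.Agent.Lib.MP_c50dba_nt.BX
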