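import Pool.Agent.Lib.MP_c50dba_nt.BX.StmtsV
import Pool.Agent.Lib.MP_c50dba_nt.BX.Inf83
import Pool.Agent.Lib.MP_c50dba_nt.BX.Quot69

set_option autoImplicit false

/-!
V6: the infinite form for arrays, from V1 and V5.
-/

namespace Pool.Agent.Lib.MP_c50dba_nt.BX

open Module

theorem Cx_neg83 {k Ω : Type} [Field k] [Field Ω] [Algebra k Ω] {U : Submodule k Ω} {d : ℕ}
    {z : Ω} (h : Cx U d z) : Cx U d (-z) := by
  obtain ⟨P, hP, hd, hU, hz⟩ := h
  have hcoef : ∀ j, (P.comp (Polynomial.C (-1) * Polynomial.X)).coeff j =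
      P.coeff j * (-1) ^ j := fun j => Polynomial.comp_C_mul_X_coeff
  refine ⟨P.comp (Polynomial.C (-1) * Polynomial.X), ?_, ?_, ?_, ?_⟩
  · intro h0
    apply hP
    ext j
    have h1 := hcoef j
    rw [h0, Polynomial.coeff_zero] at h1
    rcases neg_one_pow_eq_or Ω j with h | h
    · rw [h, mul_one] at h1
      rw [← h1, Polynomial.coeff_zero]
    · rw [h, mul_neg_one, eq_comm, neg_eq_zero] at h1
      rw [h1, Polynomial.coeff_zero]
  · rw [Polynomial.natDegree_le_iff_coeff_eq_zero]
    intro j hj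
    rw [hcoef, Polynomial.coeff_eq_zero_of_natDegree_lt (by omega), zero_mul]
  · intro j
    rw [hcoef]
    rcases neg_one_pow_eq_or Ω j with h | h
    · rw [h, mul_one]
      exact hU j
    · rw [h, mul_neg_one]
      exact U.neg_mem (hU j)
  · rw [Polynomial.eval_comp, Polynomial.eval_mul, Polynomial.eval_C, Polynomial.eval_X,
      neg_one_mul, neg_neg]
    exact hz

theorem infV_83 (h0 : StCl) (h1 : StInd) (h5 : StGalV) : StInfV := by
  intro k Ω _ _ _ _ _ U _ d h r q D y v hCx hZL hcond hSR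
  let U1 : Submodule k Ω := U ⊔ U ^ (2 * (d * d))
  have hUfg : (U : Submodule k Ω).FG := (Submodule.fg_iff_finiteDimensional U).2 inferInstance
  have hpow : FiniteDimensional k (U ^ (2 * (d * d)) : Submodule k Ω) :=
    pow_fd69 U inferInstance _
  have hU1 : FiniteDimensional k U1 := inferInstance
  have hchar : CharZero (IntermediateField.adjoin k (U1 : Set Ω)) :=
    charZero_of_injective_algebraMap
      (algebraMap k (IntermediateField.adjoin k (U1 : Set Ω))).injective
  have hCx1 : ∀ (S : Finset (Fin h)) (c : Fin h → ℕ) (t : (i : Fin h) → Ix (q i)),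
      Cx U1 d (y t + ∑ i ∈ S, v i (c i) (t i)) := fun S c t =>
    Cx_mono69 le_sup_left le_rfl (hCx S c t)
  have hy : ∀ t, Cx U d (y t) := by
    intro t
    have := hCx ∅ (fun _ => 0) t
    rwa [Finset.sum_empty, add_zero] at this
  have hyv : ∀ i l (t : (i : Fin h) → Ix (q i)), Cx U d (y t + v i l (t i)) := by
    intro i l t
    have := hCx {i} (fun _ => l) t
    rwa [Finset.sum_singleton] at this
  -- the index sets are nonempty
  have hne : ∀ i, Nonempty (Ix (q i)) := by
    intro i
    have h2 : 0 < 2 ^ r i * ∏ s, (q i s - 1) := lt_of_le_of_lt (Nat.zero_le _) (hcond i)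
    have h3 : ∀ s, 0 < q i s := by
      intro s
      have h4 : ∏ s, (q i s - 1) ≠ 0 := by
        intro h5
        rw [h5] at h2
        omega
      have h5 := Finset.prod_ne_zero_iff.1 h4 s (Finset.mem_univ s)
      omega
    exact ⟨fun s => ⟨0, h3 s⟩⟩
  have hv : ∀ i l t, Cx U1 (d * d) (v i l t) := by
    intro i l t
    let t' : (i : Fin h) → Ix (q i) := Function.update (fun i => (hne i).some) i t
    have ht' : t' i = t := Function.update_self _ _ _
    have h2 := (h0 k Ω U d (y t' + v i l (t' i)) (-(y t')) (hyv i l t') (Cx_neg83 (hy t'))).1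
    have h3 : y t' + v i l (t' i) + -(y t') = v i l t := by
      rw [ht']
      ring
    rw [h3] at h2
    exact Cx_mono69 le_sup_right le_rfl h2
  obtain ⟨c, t, hct⟩ := h5 (IntermediateField.adjoin k (U1 : Set Ω)) Ω h (d * d) r q D y v
    (fun t => (alg_of_Cx83 U1 d _ (Cx_mono69 le_sup_left le_rfl (hy t))).1)
    (fun i l t => alg_of_Cx83 U1 (d * d) _ (hv i l t)) hZL hcond (by
      intro i M hM
      exact h1 k Ω U1 (d * d) (Ix (fun s => q i s - 1)) (fun l s => v i l (bas (q i) s))
        (fun l s => hv i l _) (hSR i) M hM)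
  exact hct.trans (alg_of_Cx83 U1 d _ (hCx1 Finset.univ c t)).2

end Pool.Agent.Lib.MP_c50dba_nt.BX
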