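import Pool.Agent.Lib.MP_c50dba_nt.BX.StmtsV
import Mathlib.RingTheory.SimpleModule.Isotypic
import Mathlib.FieldTheory.Galois.NormalBasis
import Mathlib.RepresentationTheory.Maschke

set_option autoImplicit false
set_option linter.unusedSectionVars false

/-!
BOXES project, phase 2, module V2 (helper38): isotypic components of a finite Galois extension.
-/

namespace Pool.Agent.Lib.MP_c50dba_nt.BX

open Module

namespace Iso38

section core

variable {M R V : Type} [Field M] [Ring R] [Algebra M R] [AddCommGroup V] [Module M V]
  [Module R V] [IsScalarTower M R V] [FiniteDimensional M V] [IsSemisimpleModule R V]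

omit [FiniteDimensional M V] in
/-- projections on the isotypic components -/
lemma exists_pr (_hN : IsNoetherian R V) [Fintype (isotypicComponents R V)] :
    ∃ pr : isotypicComponents R V → V →ₗ[R] V,
      (∀ (c : isotypicComponents R V) (x : V), pr c x ∈ (c : Submodule R V)) ∧
      (∀ (c : isotypicComponents R V), ∀ x ∈ (c : Submodule R V), pr c x = x) ∧
      (∀ (c c' : isotypicComponents R V), c' ≠ c → ∀ x ∈ (c' : Submodule R V), pr c x = 0) ∧
      ∀ x, ∑ c, pr c x = x := by
  classical
  have hint : DirectSum.IsInternal (fun c : isotypicComponents R V => (c : Submodule R V)) := by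
    rw [DirectSum.isInternal_submodule_iff_iSupIndep_and_iSup_eq_top]
    refine ⟨(sSupIndep_iff _).mp (sSupIndep_isotypicComponents R V), ?_⟩
    rw [← sSup_eq_iSup']
    exact sSup_isotypicComponents R V
  let _ := hint.chooseDecomposition
  refine ⟨fun c => (c : Submodule R V).subtype ∘ₗ
    (DirectSum.component R (isotypicComponents R V)
      (fun c : isotypicComponents R V => (c : Submodule R V)) c) ∘ₗ
    (DirectSum.decomposeLinearEquiv (fun c : isotypicComponents R V => (c : Submodule R V))).toLinearMap,
    ?_, ?_, ?_, ?_⟩
  · intro c x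
    exact Subtype.property _
  · intro c x hx
    exact DirectSum.decompose_of_mem_same
      (fun c : isotypicComponents R V => (c : Submodule R V)) hx
  · intro c c' hne x hx
    exact DirectSum.decompose_of_mem_ne
      (fun c : isotypicComponents R V => (c : Submodule R V)) hx hne
  · intro x
    have h := DirectSum.sum_support_decompose
      (fun c : isotypicComponents R V => (c : Submodule R V)) x
    conv_rhs => rw [← h]
    symm
    apply Finset.sum_subset (Finset.subset_univ _)
    intro c _ hc
    rw [DFinsupp.notMem_support_iff] at hc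
    rw [hc]
    rfl

/-- a simple submodule is in its own component -/
lemma pr_simple (pr : isotypicComponents R V → V →ₗ[R] V)
    (h2 : ∀ (c : isotypicComponents R V), ∀ x ∈ (c : Submodule R V), pr c x = x)
    (h3 : ∀ (c c' : isotypicComponents R V), c' ≠ c → ∀ x ∈ (c' : Submodule R V), pr c x = 0)
    (N : Submodule R V) (c : isotypicComponents R V) : N.map (pr c) ≤ N := by
  have hN := IsSemisimpleModule.sSup_simples_le N
  rw [Submodule.map_le_iff_le_comap]
  conv_lhs => rw [← hN]
  apply sSup_le
  rintro S ⟨hS, hle⟩
  intro x hx
  rw [Submodule.mem_comap]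
  by_cases hc : (c : Submodule R V) = isotypicComponent R V S
  · have hx' : x ∈ (c : Submodule R V) := by
      rw [hc]
      exact S.le_isotypicComponent hx
    rw [h2 c x hx']
    exact hle hx
  · have hmem : isotypicComponent R V S ∈ isotypicComponents R V := ⟨S, hS, rfl⟩
    have hne : (⟨isotypicComponent R V S, hmem⟩ : isotypicComponents R V) ≠ c := by
      intro h
      apply hc
      rw [← h]
    rw [h3 c (⟨isotypicComponent R V S, hmem⟩ : isotypicComponents R V) hne x
      (S.le_isotypicComponent hx)]
    exact N.zero_mem

/-- the dimension of a submodule from below -/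
lemma dim_ge (pr : isotypicComponents R V → V →ₗ[R] V)
    (h1 : ∀ (c : isotypicComponents R V) (x : V), pr c x ∈ (c : Submodule R V))
    (h2 : ∀ (c : isotypicComponents R V), ∀ x ∈ (c : Submodule R V), pr c x = x)
    (h3 : ∀ (c c' : isotypicComponents R V), c' ≠ c → ∀ x ∈ (c' : Submodule R V), pr c x = 0)
    (D : isotypicComponents R V → ℕ)
    (hD : ∀ (c : isotypicComponents R V), ∀ S : Submodule R V, IsSimpleModule R S → S ≤ (c : Submodule R V) →
      finrank M S = D c)
    (N : Submodule R V) (T : Finset (isotypicComponents R V))
    (hT : ∀ c ∈ T, ∃ z ∈ N, pr c z ≠ 0) : ∑ c ∈ T, D c ≤ finrank M N := by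
  classical
  have hS : ∀ c : T, ∃ S : Submodule R V, IsSimpleModule R S ∧
      S ≤ N ⊓ ((c : isotypicComponents R V) : Submodule R V) := by
    intro c
    obtain ⟨z, hz, hz0⟩ := hT c.1 c.2
    have hne : N ⊓ ((c : isotypicComponents R V) : Submodule R V) ≠ ⊥ := by
      intro h
      apply hz0
      have : pr c.1 z ∈ N ⊓ ((c : isotypicComponents R V) : Submodule R V) :=
        ⟨pr_simple pr h2 h3 N c.1 (Submodule.mem_map_of_mem hz), h1 c.1 z⟩
      rw [h] at this
      exact (Submodule.mem_bot R).mp this
    obtain ⟨S, hle, hs⟩ := (IsSemisimpleModule.eq_bot_or_exists_simple_le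
      (N ⊓ ((c : isotypicComponents R V) : Submodule R V))).resolve_left hne
    exact ⟨S, hs, hle⟩
  choose S hs hle using hS
  have hfin : ∀ S : Submodule R V, Module.Finite M S := fun S =>
    inferInstanceAs (Module.Finite M (S.restrictScalars M))
  -- the sum map
  let f : ((c : T) → S c) →ₗ[M] V :=
    { toFun := fun x => ∑ c : T, ((x c : S c) : V)
      map_add' := by
        intro x y
        simp [Finset.sum_add_distrib]
      map_smul' := by
        intro m x
        simp [Finset.smul_sum] }
  have hrange : LinearMap.range f ≤ N.restrictScalars M := by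
    rintro _ ⟨x, rfl⟩
    show ∑ c : T, ((x c : S c) : V) ∈ N
    exact Submodule.sum_mem _ (fun c _ => (hle c (x c).2).1)
  have hinj : Function.Injective f := by
    rw [← LinearMap.ker_eq_bot, LinearMap.ker_eq_bot']
    intro x hx
    funext c
    have h4 : pr c.1 (f x) = ((x c : S c) : V) := by
      show pr c.1 (∑ c : T, ((x c : S c) : V)) = _
      rw [map_sum, Finset.sum_eq_single c]
      · exact h2 c.1 _ (hle c (x c).2).2
      · intro c' _ hc'
        apply h3 c.1 c'.1 _ _ (hle c' (x c').2).2
        intro h
        exact hc' (Subtype.ext h)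
      · intro h
        exact absurd (Finset.mem_univ c) h
    rw [hx, map_zero] at h4
    apply Subtype.ext
    exact h4.symm
  have h5 : finrank M ((c : T) → S c) ≤ finrank M N := by
    have h6 : finrank M ((c : T) → S c) = finrank M (LinearMap.range f) :=
      (LinearMap.finrank_range_of_inj hinj).symm
    rw [h6]
    exact Submodule.finrank_mono hrange
  rw [Module.finrank_pi_fintype] at h5
  calc ∑ c ∈ T, D c = ∑ c : T, D c.1 := (Finset.sum_coe_sort T D).symm
    _ = ∑ c : T, finrank M (S c) := by
        apply Finset.sum_congr rfl
        intro c _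
        exact (hD c.1 (S c) (hs c) ((hle c).trans inf_le_right)).symm
    _ ≤ _ := h5

/-- multiplicities are at most the dimension -/
lemma mult_le (pr : isotypicComponents R V → V →ₗ[R] V)
    (h1 : ∀ (c : isotypicComponents R V) (x : V), pr c x ∈ (c : Submodule R V))
    (h2 : ∀ (c : isotypicComponents R V), ∀ x ∈ (c : Submodule R V), pr c x = x)
    (θ : V) (hθ : Submodule.span R {θ} = ⊤) (c : isotypicComponents R V)
    (S : Submodule R V) (hS : IsSimpleModule R S) (hle : S ≤ (c : Submodule R V)) :
    finrank M (c : Submodule R V) ≤ (finrank M S) ^ 2 := by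
  classical
  have hfin : ∀ S : Submodule R V, Module.Finite M S := fun S =>
    inferInstanceAs (Module.Finite M (S.restrictScalars M))
  have htype : IsIsotypicOfType R (c : Submodule R V) S := by
    rw [eq_isotypicComponent_of_le c.2 hle]
    exact IsIsotypicOfType.isotypicComponent R V S
  have : Module.Finite R (c : Submodule R V) :=
    Module.Finite.of_restrictScalars_finite M R (c : Submodule R V)
  obtain ⟨n, ⟨e⟩⟩ := htype.linearEquiv_fun
  have hdim : finrank M (c : Submodule R V) = n * finrank M S := by
    rw [LinearEquiv.finrank_eq (e.restrictScalars M), Module.finrank_pi_fintype]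
    simp
  let F : V →ₗ[R] (Fin n → S) := e.toLinearMap ∘ₗ ((pr c).codRestrict (c : Submodule R V) (h1 c))
  have hsurj : Function.Surjective F := by
    intro y
    refine ⟨(e.symm y : (c : Submodule R V)), ?_⟩
    show e _ = y
    have h3 : (pr c).codRestrict (c : Submodule R V) (h1 c) (e.symm y : (c : Submodule R V)) =
        e.symm y := by
      apply Subtype.ext
      exact h2 c _ (e.symm y).2
    rw [h3, LinearEquiv.apply_symm_apply]
  have hli : LinearIndependent M (fun i : Fin n => F θ i) := by
    rw [Fintype.linearIndependent_iff]
    intro g hg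
    let K : Submodule R V :=
      { carrier := {x | ∑ i, g i • F x i = 0}
        add_mem' := by
          intro x y hx hy
          simp only [Set.mem_ofPred_eq] at hx hy ⊢
          simp only [map_add, Pi.add_apply, smul_add, Finset.sum_add_distrib, hx, hy, add_zero]
        zero_mem' := by simp
        smul_mem' := by
          intro r x hx
          simp only [Set.mem_ofPred_eq] at hx ⊢
          have : ∑ i, g i • F (r • x) i = r • ∑ i, g i • F x i := by
            rw [Finset.smul_sum]
            apply Finset.sum_congr rfl
            intro i _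
            rw [map_smul, Pi.smul_apply, smul_comm]
          rw [this, hx, smul_zero] }
    have hK : K = ⊤ := by
      rw [eq_top_iff, ← hθ, Submodule.span_singleton_le_iff_mem]
      exact hg
    intro i
    have hn : Nontrivial S := IsSimpleModule.nontrivial R S
    obtain ⟨s, hs⟩ := exists_ne (0 : S)
    obtain ⟨x, hx⟩ := hsurj (Pi.single i s)
    have hxK : x ∈ K := by rw [hK]; trivial
    have h4 : ∑ j, g j • F x j = 0 := hxK
    rw [hx, Finset.sum_eq_single i] at h4
    · rw [Pi.single_eq_same] at h4
      exact (smul_eq_zero.mp h4).resolve_right hs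
    · intro j _ hj
      rw [Pi.single_eq_of_ne hj, smul_zero]
    · intro h
      exact absurd (Finset.mem_univ i) h
  have hn : n ≤ finrank M S := by
    have := hli.fintype_card_le_finrank
    rwa [Fintype.card_fin] at this
  rw [hdim, sq]
  exact Nat.mul_le_mul_right _ hn

theorem core_38 (θ : V) (hθ : Submodule.span R {θ} = ⊤) (c0 : isotypicComponents R V) :
    ∃ (P : Type) (_ : Fintype P) (_ : DecidableEq P) (D : P → ℕ) (π : P → V →ₗ[M] V)
      (π0 : V →ₗ[R] V),
      (∀ ρ, finrank M (LinearMap.range (π ρ)) ≤ D ρ ^ 2) ∧
      (∀ z, (∀ ρ, π ρ z = 0) → z ∈ (c0 : Submodule R V)) ∧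
      (∀ z ∈ (c0 : Submodule R V), π0 z = z) ∧
      ∀ (z : V) (T : Finset P), (∀ ρ ∈ T, π ρ z ≠ 0) →
        ∑ ρ ∈ T, D ρ ≤ finrank M (Submodule.span R {z}) ∧
        (π0 z ≠ 0 → ∑ ρ ∈ T, D ρ + 1 ≤ finrank M (Submodule.span R {z})) := by
  classical
  have hfin : ∀ S : Submodule R V, Module.Finite M S := fun S =>
    inferInstanceAs (Module.Finite M (S.restrictScalars M))
  have hN : IsNoetherian R V := isNoetherian_of_tower M inferInstance
  have _ : Fintype (isotypicComponents R V) := Fintype.ofFinite _
  obtain ⟨pr, h1, h2, h3, h4⟩ := exists_pr (R := R) (V := V) hN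
  have hS : ∀ c : isotypicComponents R V, ∃ S : Submodule R V, IsSimpleModule R S ∧
      (c : Submodule R V) = isotypicComponent R V S := fun c => c.2
  choose S hs hc using hS
  have hD : ∀ (c : isotypicComponents R V), ∀ S' : Submodule R V, IsSimpleModule R S' →
      S' ≤ (c : Submodule R V) → finrank M S' = finrank M (S c) := by
    intro c S' hs' hle
    have htype := IsIsotypicOfType.isotypicComponent R V (S c)
    rw [← hc c] at htype
    obtain ⟨e⟩ := isIsotypicOfType_submodule_iff.mp htype S' hle
    exact LinearEquiv.finrank_eq (e.restrictScalars M)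
  refine ⟨{c : isotypicComponents R V // c ≠ c0}, inferInstance, inferInstance,
    fun c => finrank M (S c.1), fun c => (pr c.1).restrictScalars M, pr c0, ?_, ?_, ?_, ?_⟩
  · rintro ⟨c, hcne⟩
    show finrank M (LinearMap.range ((pr c).restrictScalars M)) ≤ finrank M (S c) ^ 2
    have hle : S c ≤ (c : Submodule R V) := by
      rw [hc c]
      exact (S c).le_isotypicComponent
    refine le_trans ?_ (mult_le pr h1 h2 θ hθ c (S c) (hs c) hle)
    have hsub : LinearMap.range ((pr c).restrictScalars M) ≤
        (c : Submodule R V).restrictScalars M := by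
      rintro _ ⟨x, rfl⟩
      exact h1 c x
    exact Submodule.finrank_mono hsub
  · intro z hz
    have h5 : z = pr c0 z := by
      conv_lhs => rw [← h4 z]
      rw [Finset.sum_eq_single c0]
      · intro c _ hcne
        exact hz ⟨c, hcne⟩
      · intro h
        exact absurd (Finset.mem_univ c0) h
    rw [h5]
    exact h1 c0 z
  · exact h2 c0
  · intro z T hT
    have hz : z ∈ Submodule.span R {z} := Submodule.mem_span_singleton_self z
    have hT' : ∀ c ∈ T.map (Function.Embedding.subtype _), ∃ y ∈ Submodule.span R {z},
        pr c y ≠ 0 := by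
      intro c hc'
      rw [Finset.mem_map] at hc'
      obtain ⟨c', hc', rfl⟩ := hc'
      exact ⟨z, hz, hT c' hc'⟩
    have hsum : ∑ c ∈ T, finrank M (S c.1) =
        ∑ c ∈ T.map (Function.Embedding.subtype _), finrank M (S c) := by
      rw [Finset.sum_map]
      rfl
    constructor
    · show ∑ c ∈ T, finrank M (S c.1) ≤ _
      rw [hsum]
      exact dim_ge pr h1 h2 h3 (fun c => finrank M (S c)) hD _ _ hT'
    · intro hz0
      show ∑ c ∈ T, finrank M (S c.1) + 1 ≤ _
      have hnot : c0 ∉ T.map (Function.Embedding.subtype _) := by
        intro h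
        rw [Finset.mem_map] at h
        obtain ⟨c', _, hc'⟩ := h
        exact c'.2 hc'
      have h6 := dim_ge pr h1 h2 h3 (fun c => finrank M (S c)) hD (Submodule.span R {z})
        (insert c0 (T.map (Function.Embedding.subtype _))) (by
          intro c hc'
          rw [Finset.mem_insert] at hc'
          rcases hc' with rfl | hc'
          · exact ⟨z, hz, hz0⟩
          · exact hT' c hc')
      rw [Finset.sum_insert hnot, ← hsum] at h6
      have h7 : 1 ≤ finrank M (S c0) := by
        have hn : Nontrivial (S c0) := IsSimpleModule.nontrivial R (S c0)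
        exact Module.finrank_pos
      omega

end core

end Iso38

open Iso38

/-- V2 -/
theorem iso_38 : StIso := by
  intro M E _ _ _ _ _ _
  classical
  let G := E ≃ₐ[M] E
  let ρ : Representation M G E := Representation.ofDistribMulAction M G E
  have hρ : ∀ (g : G) (x : E), ρ g x = g x := fun g x => rfl
  let V := ρ.asModule
  let ε : V ≃ₗ[M] E := ρ.asModuleEquiv
  have hof : ∀ (g : G) (x : V), ε (MonoidAlgebra.of M G g • x) = g (ε x) := by
    intro g x
    have h := ρ.asModuleEquiv_symm_map_rho g (ε x)
    rw [hρ] at h
    have h' : ε (ε.symm (g (ε x))) = ε (MonoidAlgebra.of M G g • ε.symm (ε x)) :=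
      congrArg ε h
    rw [LinearEquiv.apply_symm_apply, LinearEquiv.symm_apply_apply] at h'
    exact h'.symm
  have hmem : ∀ (W : Submodule M E) (x : V), (∀ g : G, g (ε x) ∈ W) →
      ∀ r : MonoidAlgebra M G, ε (r • x) ∈ W := by
    intro W x hW r
    induction r using MonoidAlgebra.induction_on with
    | of g =>
      rw [hof g x]
      exact hW g
    | add a b ha hb =>
      rw [add_smul, map_add]
      exact W.add_mem ha hb
    | smul m a ha =>
      rw [smul_assoc, map_smul]
      exact W.smul_mem m ha
  have hNZ : NeZero (Nat.card G : M) := ⟨by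
    have : Nat.card G ≠ 0 := Nat.card_pos.ne'
    exact_mod_cast this⟩
  have hss : IsSemisimpleModule (MonoidAlgebra M G) V := inferInstance
  -- the generator
  let θ : V := ε.symm (IsGalois.normalBasis M E 1)
  have hθ : Submodule.span (MonoidAlgebra M G) {θ} = ⊤ := by
    rw [eq_top_iff]
    intro x _
    have hx : x = ∑ g : G, (IsGalois.normalBasis M E).repr (ε x) g •
        (MonoidAlgebra.of M G g • θ) := by
      apply ε.injective
      rw [map_sum]
      conv_lhs => rw [← (IsGalois.normalBasis M E).sum_repr (ε x)]
      apply Finset.sum_congr rfl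
      intro g _
      rw [map_smul, hof, LinearEquiv.apply_symm_apply, ← IsGalois.normalBasis_apply]
    rw [hx]
    apply Submodule.sum_mem
    intro g _
    rw [← smul_assoc]
    exact Submodule.smul_mem _ _ (Submodule.mem_span_singleton_self θ)
  -- the trivial component
  let one : V := ε.symm 1
  let S0 : Submodule (MonoidAlgebra M G) V := Submodule.span (MonoidAlgebra M G) {one}
  have hS0 : ∀ x ∈ S0, ∃ c : M, algebraMap M E c = ε x := by
    intro x hx
    obtain ⟨r, rfl⟩ := Submodule.mem_span_singleton.mp hx
    have h := hmem (Submodule.span M {(1 : E)}) one (by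
      intro g
      rw [LinearEquiv.apply_symm_apply, map_one]
      exact Submodule.mem_span_singleton_self _) r
    obtain ⟨c, hc⟩ := Submodule.mem_span_singleton.mp h
    exact ⟨c, by rw [← hc, Algebra.smul_def, mul_one]⟩
  have hS0' : ∀ c : M, ε.symm (algebraMap M E c) ∈ S0 := by
    intro c
    have h1 : ε.symm (algebraMap M E c) = c • one := by
      apply ε.injective
      rw [LinearEquiv.apply_symm_apply, map_smul, LinearEquiv.apply_symm_apply,
        Algebra.smul_def, mul_one]
    rw [h1]
    have h2 : c • one = (algebraMap M (MonoidAlgebra M G) c) • one := by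
      rw [algebraMap_smul]
    rw [h2]
    exact Submodule.smul_mem _ _ (Submodule.mem_span_singleton_self one)
  have hone : one ≠ 0 := by
    intro h
    have h1 : ε one = ε 0 := congrArg ε h
    rw [LinearEquiv.apply_symm_apply, map_zero] at h1
    exact one_ne_zero h1
  have hsimple : IsSimpleModule (MonoidAlgebra M G) S0 := by
    rw [isSimpleModule_iff_isAtom]
    constructor
    · intro h
      apply hone
      have : one ∈ S0 := Submodule.mem_span_singleton_self one
      rw [h] at this
      exact (Submodule.mem_bot _).mp this
    · intro N hN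
      by_contra hne
      obtain ⟨x, hx, hx0⟩ := Submodule.exists_mem_ne_zero_of_ne_bot hne
      obtain ⟨c, hc⟩ := hS0 x (hN.le hx)
      have hc0 : c ≠ 0 := by
        rintro rfl
        rw [map_zero] at hc
        apply hx0
        apply ε.injective
        rw [← hc, map_zero]
      apply hN.not_ge
      show Submodule.span _ _ ≤ N
      rw [Submodule.span_singleton_le_iff_mem]
      have h1 : one = (algebraMap M (MonoidAlgebra M G) c⁻¹) • x := by
        rw [algebraMap_smul]
        apply ε.injective
        rw [LinearEquiv.apply_symm_apply, map_smul, ← hc, Algebra.smul_def, ← map_mul,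
          inv_mul_cancel₀ hc0, map_one]
      rw [h1]
      exact N.smul_mem _ hx
  let c0 : isotypicComponents (MonoidAlgebra M G) V :=
    ⟨isotypicComponent (MonoidAlgebra M G) V S0, S0, hsimple, rfl⟩
  have hS0c : S0 ≤ (c0 : Submodule (MonoidAlgebra M G) V) := S0.le_isotypicComponent
  have hfix : ∀ y : E, (∀ g : G, g y = y) → ∃ c : M, algebraMap M E c = y := by
    intro y hy
    exact (IsGalois.mem_range_algebraMap_iff_fixed y).mpr hy
  have hc0S : (c0 : Submodule (MonoidAlgebra M G) V) ≤ S0 := by
    show isotypicComponent (MonoidAlgebra M G) V S0 ≤ S0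
    apply sSup_le
    rintro m ⟨e⟩
    intro x hx
    have h1 : ∀ g : G, g (ε x) = ε x := by
      intro g
      rw [← hof g x]
      congr 1
      have h2 : (MonoidAlgebra.of M G g) • (⟨x, hx⟩ : m) = ⟨x, hx⟩ := by
        apply e.injective
        rw [map_smul]
        apply Subtype.ext
        obtain ⟨c, hc⟩ := hS0 _ (e ⟨x, hx⟩).2
        show MonoidAlgebra.of M G g • ((e ⟨x, hx⟩ : S0) : V) = ((e ⟨x, hx⟩ : S0) : V)
        apply ε.injective
        rw [hof, ← hc]
        exact g.commutes c
      exact congrArg (fun t : m => (t : V)) h2
    obtain ⟨c, hc⟩ := hfix _ h1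
    have := hS0' c
    rw [hc, LinearEquiv.symm_apply_apply] at this
    exact this
  obtain ⟨P, fP, dP, D, π, π0, k1, k2, k3, k4⟩ := core_38 (M := M) θ hθ c0
  refine ⟨P, fP, dP, D, fun p => ε.toLinearMap ∘ₗ π p ∘ₗ ε.symm.toLinearMap, ?_, ?_, ?_⟩
  · intro p
    refine le_trans ?_ (k1 p)
    have h1 : LinearMap.range (ε.toLinearMap ∘ₗ π p ∘ₗ ε.symm.toLinearMap) =
        (LinearMap.range (π p)).map ε.toLinearMap := by
      rw [LinearMap.range_comp, LinearMap.range_comp_of_range_eq_top]
      exact LinearMap.range_eq_top.mpr ε.symm.surjective
    rw [h1]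
    exact Submodule.finrank_map_le _ _
  · intro z hz
    have h1 : ε.symm z ∈ (c0 : Submodule (MonoidAlgebra M G) V) := by
      apply k2
      intro p
      apply ε.injective
      rw [map_zero]
      exact hz p
    obtain ⟨c, hc⟩ := hS0 _ (hc0S h1)
    exact ⟨c, by rw [hc, LinearEquiv.apply_symm_apply]⟩
  · intro z T hT
    have hT' : ∀ p ∈ T, π p (ε.symm z) ≠ 0 := by
      intro p hp h
      apply hT p hp
      show ε (π p (ε.symm z)) = 0
      rw [h, map_zero]
    obtain ⟨k5, k6⟩ := k4 (ε.symm z) T hT'
    -- the orbit
    let O : Finset E := Finset.univ.image (fun g : G => g z)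
    have hO : ∀ g : G, g z ∈ O := fun g => Finset.mem_image_of_mem _ (Finset.mem_univ g)
    have hzO : z ∈ O := by
      have := hO 1
      rwa [AlgEquiv.one_apply] at this
    have hcard : O.card ≤ (minpoly M z).natDegree := by
      have hne : (minpoly M z).map (algebraMap M E) ≠ 0 :=
        Polynomial.map_ne_zero (minpoly.ne_zero (Algebra.IsIntegral.isIntegral z))
      have hsub : O ⊆ ((minpoly M z).map (algebraMap M E)).roots.toFinset := by
        intro y hy
        obtain ⟨g, _, rfl⟩ := Finset.mem_image.mp hy
        rw [Multiset.mem_toFinset, Polynomial.mem_roots hne, Polynomial.IsRoot.def,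
          Polynomial.eval_map_algebraMap]
        have h1 : Polynomial.aeval (g z) (minpoly M z) = g (Polynomial.aeval z (minpoly M z)) :=
          Polynomial.aeval_algHom_apply g.toAlgHom z (minpoly M z)
        rw [h1, minpoly.aeval, map_zero]
      calc O.card ≤ ((minpoly M z).map (algebraMap M E)).roots.toFinset.card :=
            Finset.card_le_card hsub
        _ ≤ Multiset.card ((minpoly M z).map (algebraMap M E)).roots :=
            Multiset.toFinset_card_le _
        _ ≤ ((minpoly M z).map (algebraMap M E)).natDegree := Polynomial.card_roots' _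
        _ = (minpoly M z).natDegree := Polynomial.natDegree_map _
    have hNW : ∀ W : Submodule M E, (∀ g : G, g z ∈ W) →
        finrank M (Submodule.span (MonoidAlgebra M G) {ε.symm z}) ≤ finrank M W := by
      intro W hW
      let f : Submodule.span (MonoidAlgebra M G) {ε.symm z} →ₗ[M] W :=
        { toFun := fun x => ⟨ε x, by
            obtain ⟨r, hr⟩ := Submodule.mem_span_singleton.mp x.2
            rw [← hr]
            exact hmem W (ε.symm z) (by
              intro g
              rw [LinearEquiv.apply_symm_apply]
              exact hW g) r⟩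
          map_add' := by
            intro x y
            apply Subtype.ext
            show ε ((x : V) + (y : V)) = ε x + ε y
            exact map_add ε _ _
          map_smul' := by
            intro a x
            apply Subtype.ext
            show ε (a • (x : V)) = a • ε x
            exact map_smul ε _ _ }
      apply LinearMap.finrank_le_finrank_of_injective (f := f)
      intro x y hxy
      apply Subtype.ext
      apply ε.injective
      exact congrArg (fun t : W => (t : E)) hxy
    by_cases h0 : π0 (ε.symm z) = 0
    · -- the trace is zero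
      have hsum : ∑ w ∈ O, w = 0 := by
        have hfixs : ∀ g : G, g (∑ w ∈ O, w) = ∑ w ∈ O, w := by
          intro g
          rw [map_sum]
          apply Finset.sum_bij (fun w _ => g w)
          · intro w hw
            obtain ⟨g', _, rfl⟩ := Finset.mem_image.mp hw
            exact hO (g * g')
          · intro a _ b _ hab
            exact g.injective hab
          · intro b hb
            obtain ⟨g', _, rfl⟩ := Finset.mem_image.mp hb
            refine ⟨(g⁻¹ * g') z, hO _, ?_⟩
            show g ((g⁻¹ * g') z) = g' z
            rw [← AlgEquiv.mul_apply, mul_inv_cancel_left]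
          · intro a _
            rfl
        obtain ⟨c, hc⟩ := hfix _ hfixs
        have h1 : ε.symm (∑ w ∈ O, w) ∈ S0 := by
          rw [← hc]
          exact hS0' c
        have h2 := k3 _ (hS0c h1)
        have h3 : π0 (ε.symm (∑ w ∈ O, w)) = 0 := by
          have hK : Submodule.span (MonoidAlgebra M G) {ε.symm z} ≤ LinearMap.ker π0 := by
            rw [Submodule.span_singleton_le_iff_mem]
            exact h0
          apply hK
          rw [map_sum]
          apply Submodule.sum_mem
          intro w hw
          obtain ⟨g, _, rfl⟩ := Finset.mem_image.mp hw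
          have h4 : ε.symm (g z) = MonoidAlgebra.of M G g • ε.symm z := by
            apply ε.injective
            rw [hof, LinearEquiv.apply_symm_apply, LinearEquiv.apply_symm_apply]
          rw [h4]
          exact Submodule.smul_mem _ _ (Submodule.mem_span_singleton_self _)
        rw [h3] at h2
        have h5 : ε (ε.symm (∑ w ∈ O, w)) = ε 0 := congrArg ε h2.symm
        rw [LinearEquiv.apply_symm_apply, map_zero] at h5
        exact h5
      have h6 := hNW (Submodule.span M ((O.erase z : Finset E) : Set E)) (by
        intro g
        by_cases hg : g z = z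
        · rw [hg]
          have h7 : z = - ∑ w ∈ O.erase z, w := by
            have := Finset.add_sum_erase O (fun w => w) hzO
            rw [hsum] at this
            exact eq_neg_of_add_eq_zero_left this
          have h11 : - ∑ w ∈ O.erase z, w ∈ Submodule.span M ((O.erase z : Finset E) : Set E) := by
            apply Submodule.neg_mem
            apply Submodule.sum_mem
            intro w hw
            exact Submodule.subset_span (Finset.mem_coe.mpr hw)
          rwa [← h7] at h11
        · exact Submodule.subset_span (Finset.mem_coe.mpr (Finset.mem_erase.mpr ⟨hg, hO g⟩)))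
      have h8 := finrank_span_finset_le_card (R := M) (O.erase z)
      rw [Finset.card_erase_of_mem hzO] at h8
      have h9 : 0 < O.card := Finset.card_pos.mpr ⟨z, hzO⟩
      have h10 : (Set.finrank M ((O.erase z : Finset E) : Set E)) =
        finrank M (Submodule.span M ((O.erase z : Finset E) : Set E)) := rfl
      omega
    · have h5 := k6 h0
      have h6 := hNW (Submodule.span M ((O : Finset E) : Set E)) (fun g =>
        Submodule.subset_span (Finset.mem_coe.mpr (hO g)))
      have h8 := finrank_span_finset_le_card (R := M) O
      have h10 : (Set.finrank M ((O : Finset E) : Set E)) =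
        finrank M (Submodule.span M ((O : Finset E) : Set E)) := rfl
      omega

end Pool.Agent.Lib.MP_c50dba_nt.BX
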