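import Pool.Agent.Lib.MP_c50dba_nt.BX.StmtsV
import Pool.Agent.Lib.MP_c50dba_nt.BX.Cl42

set_option autoImplicit false

/-!
BOXES, phase 2, module V0: bounded coefficients of a linear dependence.
-/

namespace Pool.Agent.Lib.MP_c50dba_nt.BX

open Module Polynomial

namespace Rel42

/-! ### Artin's independence argument -/

/-- Linearly independent elements have a conjugate matrix of nonzero determinant. -/
theorem artin {K L ι : Type} [Field K] [Field L] [Algebra K L] [Fintype ι] [DecidableEq ι]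
    (hfix : ∀ x : L, (∀ σ : L ≃ₐ[K] L, σ x = x) → ∃ c : K, algebraMap K L c = x)
    (w : ι → L) (hw : LinearIndependent K w) :
    ∃ σ : ι → (L ≃ₐ[K] L), (Matrix.of fun j i => σ j (w i)).det ≠ 0 := by
  classical
  have key : ∀ (n : ℕ) (c : ι → L), (Finset.univ.filter (fun i => c i ≠ 0)).card ≤ n →
      (∀ σ : L ≃ₐ[K] L, ∑ i, c i * σ (w i) = 0) → c = 0 := by
    intro n
    induction n with
    | zero =>
      intro c hc _
      have h1 : Finset.univ.filter (fun i => c i ≠ 0) = ∅ := Finset.card_eq_zero.1 (by omega)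
      funext i
      by_contra h
      have : i ∈ Finset.univ.filter (fun i => c i ≠ 0) := by
        rw [Finset.mem_filter]; exact ⟨Finset.mem_univ _, h⟩
      rw [h1] at this
      simp at this
    | succ n ih =>
      intro c hc hσ
      by_contra hne
      obtain ⟨i0, hi0⟩ : ∃ i, c i ≠ 0 := Function.ne_iff.1 hne
      obtain ⟨b, hb⟩ : ∃ b : ι → L, b = fun i => (c i0)⁻¹ * c i := ⟨_, rfl⟩
      have hb0 : b i0 = 1 := by rw [hb]; exact inv_mul_cancel₀ hi0
      have hbσ : ∀ σ : L ≃ₐ[K] L, ∑ i, b i * σ (w i) = 0 := by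
        intro σ
        have h1 : ∑ i, b i * σ (w i) = (c i0)⁻¹ * ∑ i, c i * σ (w i) := by
          rw [hb, Finset.mul_sum]
          exact Finset.sum_congr rfl (fun i _ => by ring)
        rw [h1, hσ, mul_zero]
      have hfixb : ∀ i, ∀ τ : L ≃ₐ[K] L, τ (b i) = b i := by
        intro i τ
        have h1 : (fun i => b i - τ (b i)) = 0 := by
          refine ih _ ?_ ?_
          · have h2 : Finset.univ.filter (fun i => b i - τ (b i) ≠ 0) ⊆
                (Finset.univ.filter (fun i => c i ≠ 0)).erase i0 := by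
              intro i hi
              rw [Finset.mem_filter] at hi
              rw [Finset.mem_erase, Finset.mem_filter]
              refine ⟨?_, Finset.mem_univ _, ?_⟩
              · rintro rfl
                apply hi.2
                rw [hb0, map_one, sub_self]
              · intro h
                apply hi.2
                have : b i = 0 := by rw [hb]; simp only [h, mul_zero]
                rw [this, map_zero, sub_self]
            refine (Finset.card_le_card h2).trans ?_
            rw [Finset.card_erase_of_mem (by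
              rw [Finset.mem_filter]; exact ⟨Finset.mem_univ _, hi0⟩)]
            omega
          · intro σ
            have h2 : ∑ i, τ (b i) * σ (w i) = τ (∑ i, b i * (σ.trans τ.symm) (w i)) := by
              rw [map_sum]
              refine Finset.sum_congr rfl (fun i _ => ?_)
              rw [map_mul, AlgEquiv.trans_apply, AlgEquiv.apply_symm_apply]
            have h3 : ∑ i, (b i - τ (b i)) * σ (w i) =
                ∑ i, b i * σ (w i) - ∑ i, τ (b i) * σ (w i) := by
              rw [← Finset.sum_sub_distrib]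
              exact Finset.sum_congr rfl (fun i _ => by ring)
            rw [h3, h2, hbσ, hbσ, map_zero, sub_zero]
        have := congrFun h1 i
        simp only [Pi.zero_apply] at this
        exact (sub_eq_zero.1 this).symm
      choose a ha using fun i => hfix (b i) (hfixb i)
      have h1 := hbσ AlgEquiv.refl
      have h2 : ∑ i, a i • w i = 0 := by
        rw [← h1]
        refine Finset.sum_congr rfl (fun i _ => ?_)
        rw [Algebra.smul_def, ha]
        rfl
      have h3 := Fintype.linearIndependent_iff.1 hw a h2 i0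
      have h4 := ha i0
      rw [h3, map_zero, hb0] at h4
      exact zero_ne_one h4
  have htop : Submodule.span L (Set.range (fun σ : L ≃ₐ[K] L => (fun i => σ (w i) : ι → L))) =
      ⊤ := by
    by_contra hne
    obtain ⟨f, hf0, hf⟩ := Submodule.exists_le_ker_of_lt_top _ (lt_top_iff_ne_top.2 hne)
    apply hf0
    have h1 : (fun i => f (Pi.single i 1)) = 0 := by
      refine key _ _ le_rfl (fun σ => ?_)
      have h2 : (fun i => σ (w i) : ι → L) ∈ LinearMap.ker f :=
        hf (Submodule.subset_span ⟨σ, rfl⟩)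
      rw [LinearMap.mem_ker, LinearMap.pi_apply_eq_sum_univ] at h2
      rw [← h2]
      refine Finset.sum_congr rfl (fun i _ => ?_)
      rw [smul_eq_mul, mul_comm]
      congr 2
      funext j
      rw [Pi.single_apply]
      by_cases h : j = i
      · rw [if_pos h, if_pos h.symm]
      · rw [if_neg h, if_neg (fun t => h t.symm)]
    refine LinearMap.pi_ext' (fun i => LinearMap.ext_ring ?_)
    have := congrFun h1 i
    simpa using this
  obtain ⟨κ', a, -, hspan, hli⟩ := exists_linearIndependent' (K := L)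
    (fun σ : L ≃ₐ[K] L => (fun i => σ (w i) : ι → L))
  have hb := Basis.mk hli (by rw [hspan, htop])
  have e : ι ≃ κ' := (Pi.basisFun L ι).indexEquiv hb
  refine ⟨fun j => a (e j), ?_⟩
  have h1 : LinearIndependent L
      (Matrix.of fun j i => (a (e j)) (w i) : Matrix ι ι L).row := by
    have h2 := hli.comp e e.injective
    exact h2
  have h3 := Matrix.linearIndependent_rows_iff_isUnit.1 h1
  rw [Matrix.isUnit_iff_isUnit_det] at h3
  exact h3.ne_zero

/-! ### uniformly bounded predicates -/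

variable {k Ω : Type} [Field k] [Field Ω] [Algebra k Ω]

/-- the elements satisfying `Q` are of bounded complexity, with bounds depending on `U` only -/
def Bdd (U : Submodule k Ω) (Q : Ω → Prop) : Prop :=
  ∃ (U' : Submodule k Ω) (d' : ℕ), FiniteDimensional k U' ∧
    (∀ M : IntermediateField k Ω, (∀ u ∈ U, u ∈ M) → ∀ u ∈ U', u ∈ M) ∧
    ∀ x, Q x → Cx U' d' x

theorem cx_le {U U' : Submodule k Ω} {d d' : ℕ} (hU : U ≤ U') (hd : d ≤ d') {x : Ω}
    (h : Cx U d x) : Cx U' d' x := by
  obtain ⟨P, h1, h2, h3, h4⟩ := h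
  exact ⟨P, h1, h2.trans hd, fun j => hU (h3 j), h4⟩

theorem Bdd.mono {U : Submodule k Ω} {Q Q' : Ω → Prop} (h : Bdd U Q) (hQ : ∀ x, Q' x → Q x) :
    Bdd U Q' := by
  obtain ⟨U', d', h1, h2, h3⟩ := h
  exact ⟨U', d', h1, h2, fun x hx => h3 x (hQ x hx)⟩

theorem Bdd.or {U : Submodule k Ω} {Q Q' : Ω → Prop} (h : Bdd U Q) (h' : Bdd U Q') :
    ∃ (U' : Submodule k Ω) (d' : ℕ), FiniteDimensional k U' ∧
    (∀ M : IntermediateField k Ω, (∀ u ∈ U, u ∈ M) → ∀ u ∈ U', u ∈ M) ∧
    (∀ x, Q x → Cx U' d' x) ∧ ∀ x, Q' x → Cx U' d' x := by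
  obtain ⟨U1, d1, h1, h2, h3⟩ := h
  obtain ⟨U2, d2, h1', h2', h3'⟩ := h'
  refine ⟨U1 ⊔ U2, max d1 d2, inferInstance, ?_, ?_, ?_⟩
  · intro M hM u hu
    obtain ⟨a, ha, b, hb, rfl⟩ := Submodule.mem_sup.1 hu
    exact M.add_mem (h2 M hM a ha) (h2' M hM b hb)
  · intro x hx
    exact cx_le le_sup_left (le_max_left _ _) (h3 x hx)
  · intro x hx
    exact cx_le le_sup_right (le_max_right _ _) (h3' x hx)

theorem Bdd.union {U : Submodule k Ω} {Q Q' : Ω → Prop} (h : Bdd U Q) (h' : Bdd U Q') :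
    Bdd U (fun x => Q x ∨ Q' x) := by
  obtain ⟨U', d', h1, h2, h3, h4⟩ := h.or h'
  exact ⟨U', d', h1, h2, fun x hx => hx.elim (h3 x) (h4 x)⟩

theorem pow_mem' {U' : Submodule k Ω} (M : IntermediateField k Ω) (h : ∀ u ∈ U', u ∈ M) (n : ℕ) :
    ∀ u ∈ U' ^ n, u ∈ M := by
  have h1 : U' ^ n ≤ M.toSubalgebra.toSubmodule := by
    induction n with
    | zero =>
      rw [pow_zero, Submodule.one_le]
      exact M.one_mem
    | succ n ih =>
      rw [pow_succ, Submodule.mul_le]
      intro a ha b hb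
      exact M.mul_mem (ih ha) (h b hb)
  intro u hu
  exact h1 hu

theorem fd_pow {U' : Submodule k Ω} [FiniteDimensional k U'] (n : ℕ) :
    FiniteDimensional k ↥(U' ^ n) := by
  have h : U'.FG := Module.Finite.iff_fg.1 inferInstance
  exact Module.Finite.iff_fg.2 (h.pow n)

theorem Bdd.add_mul (hcl : StCl) {U : Submodule k Ω} {Q Q' : Ω → Prop} (h : Bdd U Q)
    (h' : Bdd U Q') :
    Bdd U (fun x => ∃ y z, Q y ∧ Q' z ∧ x = y + z) ∧
      Bdd U (fun x => ∃ y z, Q y ∧ Q' z ∧ x = y * z) := by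
  obtain ⟨U', d', h1, h2, h3, h4⟩ := h.or h'
  constructor
  · refine ⟨U' ^ (2 * (d' * d')), d' * d', fd_pow _, fun M hM => pow_mem' M (h2 M hM) _, ?_⟩
    rintro x ⟨y, z, hy, hz, rfl⟩
    exact (hcl k Ω U' d' y z (h3 y hy) (h4 z hz)).1
  · refine ⟨U' ^ (2 * (d' * d')), d' * d', fd_pow _, fun M hM => pow_mem' M (h2 M hM) _, ?_⟩
    rintro x ⟨y, z, hy, hz, rfl⟩
    exact (hcl k Ω U' d' y z (h3 y hy) (h4 z hz)).2

theorem bdd_const (U : Submodule k Ω) (c : k) : Bdd U (fun x => x = algebraMap k Ω c) := by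
  refine ⟨1, 1, ?_, ?_, ?_⟩
  · have h := (fd_pow (k := k) (Ω := Ω) (U' := ⊥) 0)
    rwa [pow_zero] at h
  · intro M _ u hu
    obtain ⟨a, rfl⟩ := Submodule.mem_one.1 hu
    exact M.algebraMap_mem a
  · rintro x rfl
    refine ⟨X - C (algebraMap k Ω c), X_sub_C_ne_zero _, (natDegree_X_sub_C _).le, ?_, by simp⟩
    intro j
    rw [coeff_sub, coeff_X, coeff_C]
    refine Submodule.sub_mem _ ?_ ?_
    · split_ifs
      · exact Submodule.one_le.1 le_rfl
      · exact Submodule.zero_mem _
    · split_ifs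
      · exact Submodule.mem_one.2 ⟨c, rfl⟩
      · exact Submodule.zero_mem _

theorem Bdd.neg (hcl : StCl) {U : Submodule k Ω} {Q : Ω → Prop} (h : Bdd U Q) :
    Bdd U (fun x => ∃ y, Q y ∧ x = -y) := by
  refine ((bdd_const U (-1)).add_mul hcl h).2.mono ?_
  rintro x ⟨y, hy, rfl⟩
  exact ⟨algebraMap k Ω (-1), y, rfl, hy, by simp⟩

theorem Bdd.inv {U : Submodule k Ω} {Q : Ω → Prop} (h : Bdd U Q) :
    Bdd U (fun x => ∃ y, Q y ∧ y ≠ 0 ∧ x = y⁻¹) := by
  obtain ⟨U', d', h1, h2, h3⟩ := h
  refine ⟨U', d', h1, h2, ?_⟩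
  rintro x ⟨y, hy, hy0, rfl⟩
  obtain ⟨P, p1, p2, p3, p4⟩ := h3 y hy
  refine ⟨P.reverse, ?_, (reverse_natDegree_le P).trans p2, ?_, ?_⟩
  · intro h
    exact p1 (by simpa using h)
  · intro j
    rw [coeff_reverse]
    exact p3 _
  · letI : Invertible y := invertibleOfNonzero hy0
    have h5 := (eval₂_reverse_eq_zero_iff (RingHom.id Ω) y P).2 p4
    rw [invOf_eq_inv] at h5
    exact h5

/-- finite sums and products -/
theorem Bdd.sum_prod (hcl : StCl) {U : Submodule k Ω} {Q : Ω → Prop} (h : Bdd U Q) {ι : Type}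
    (s : Finset ι) :
    Bdd U (fun x => ∃ y : ι → Ω, (∀ i, Q (y i)) ∧ x = ∑ i ∈ s, y i) ∧
      Bdd U (fun x => ∃ y : ι → Ω, (∀ i, Q (y i)) ∧ x = ∏ i ∈ s, y i) := by
  classical
  induction s using Finset.induction_on with
  | empty =>
    constructor
    · refine (bdd_const U 0).mono ?_
      rintro x ⟨y, -, rfl⟩
      simp
    · refine (bdd_const U 1).mono ?_
      rintro x ⟨y, -, rfl⟩
      simp
  | insert a s ha ih =>
    constructor
    · refine (h.add_mul hcl ih.1).1.mono ?_
      rintro x ⟨y, hy, rfl⟩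
      exact ⟨y a, ∑ i ∈ s, y i, hy a, ⟨y, hy, rfl⟩, Finset.sum_insert ha⟩
    · refine (h.add_mul hcl ih.2).2.mono ?_
      rintro x ⟨y, hy, rfl⟩
      exact ⟨y a, ∏ i ∈ s, y i, hy a, ⟨y, hy, rfl⟩, Finset.prod_insert ha⟩

/-- determinants -/
theorem Bdd.det (hcl : StCl) {U : Submodule k Ω} {Q : Ω → Prop} (h : Bdd U Q) (ι : Type)
    [Fintype ι] [DecidableEq ι] :
    Bdd U (fun x => ∃ A : Matrix ι ι Ω, (∀ i j, Q (A i j)) ∧ x = A.det) := by
  have h1 := (h.sum_prod hcl (Finset.univ : Finset ι)).2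
  have h2 := (h1.union (h1.neg hcl)).sum_prod hcl (Finset.univ : Finset (Equiv.Perm ι))
  refine h2.1.mono ?_
  rintro x ⟨A, hA, rfl⟩
  refine ⟨fun σ => Equiv.Perm.sign σ • ∏ i, A (σ i) i, fun σ => ?_, Matrix.det_apply A⟩
  rcases Int.units_eq_one_or (Equiv.Perm.sign σ) with h | h
  · left
    refine ⟨fun i => A (σ i) i, fun i => hA _ _, ?_⟩
    show Equiv.Perm.sign σ • ∏ i, A (σ i) i = ∏ i, A (σ i) i
    rw [h, one_smul]
  · right
    refine ⟨∏ i, A (σ i) i, ⟨fun i => A (σ i) i, fun i => hA _ _, rfl⟩, ?_⟩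
    show Equiv.Perm.sign σ • ∏ i, A (σ i) i = -∏ i, A (σ i) i
    rw [h, Units.neg_smul, one_smul]

/-- finite unions -/
theorem bdd_iUnion {U : Submodule k Ω} {ι : Type} (s : Finset ι) (Q : ι → Ω → Prop)
    (h : ∀ i, Bdd U (Q i)) : Bdd U (fun x => ∃ i ∈ s, Q i x) := by
  classical
  induction s using Finset.induction_on with
  | empty =>
    refine (bdd_const U 0).mono ?_
    rintro x ⟨i, hi, -⟩
    simp at hi
  | insert a s ha ih =>
    refine ((h a).union ih).mono ?_
    rintro x ⟨i, hi, hx⟩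
    rcases Finset.mem_insert.1 hi with rfl | hi
    · exact Or.inl hx
    · exact Or.inr ⟨i, hi, hx⟩

/-! ### conjugates -/

/-- conjugates over `M` satisfy the same polynomials -/
theorem cx_conj [IsAlgClosed Ω] (U : Submodule k Ω) (d : ℕ) (M : IntermediateField k Ω)
    (hM : ∀ u ∈ U, u ∈ M) (σ : algebraicClosure M Ω ≃ₐ[M] algebraicClosure M Ω)
    (w : algebraicClosure M Ω) (h : Cx U d (w : Ω)) : Cx U d ((σ w : algebraicClosure M Ω) : Ω) := by
  obtain ⟨P, p1, p2, p3, p4⟩ := h
  refine ⟨P, p1, p2, p3, ?_⟩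
  have hw : ∀ x : algebraicClosure M Ω, P.eval (x : Ω) =
      ((∑ j ∈ Finset.range (P.natDegree + 1),
        algebraMap M (algebraicClosure M Ω) ⟨P.coeff j, hM _ (p3 j)⟩ * x ^ j :
          algebraicClosure M Ω) : Ω) := by
    intro x
    rw [eval_eq_sum_range]
    push_cast
    refine Finset.sum_congr rfl (fun j _ => ?_)
    rfl
  rw [hw] at p4 ⊢
  have h1 : (∑ j ∈ Finset.range (P.natDegree + 1),
        algebraMap M (algebraicClosure M Ω) ⟨P.coeff j, hM _ (p3 j)⟩ * w ^ j :
          algebraicClosure M Ω) = 0 := by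
    exact_mod_cast p4
  have h2 := congrArg σ h1
  rw [map_sum, map_zero] at h2
  have h3 : ∑ j ∈ Finset.range (P.natDegree + 1),
        algebraMap M (algebraicClosure M Ω) ⟨P.coeff j, hM _ (p3 j)⟩ * (σ w) ^ j = 0 := by
    rw [← h2]
    refine Finset.sum_congr rfl (fun j _ => ?_)
    rw [map_mul, map_pow, AlgEquiv.commutes]
  rw [h3]
  rfl

end Rel42

open Rel42 in
/-- V0 -/
theorem rel_42 (hcl : StCl) : StRel := by
  classical
  intro k Ω _ _ _ _ _ U _ d κ _
  -- the bound
  have hbase : Bdd U (fun x => Cx U d x) :=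
    ⟨U, d, inferInstance, fun M hM => hM, fun x hx => hx⟩
  have hb0 := hbase.union (hbase.neg hcl)
  have hJ : ∀ J : Finset κ, Bdd U (fun x => ∃ y z : Ω,
      (∃ A : Matrix J J Ω, (∀ i j, Cx U d (A i j) ∨ ∃ y, Cx U d y ∧ A i j = -y) ∧ y = A.det) ∧
      (∃ z', (∃ A : Matrix J J Ω, (∀ i j, Cx U d (A i j) ∨ ∃ y, Cx U d y ∧ A i j = -y) ∧
        z' = A.det) ∧ z' ≠ 0 ∧ z = z'⁻¹) ∧ x = y * z) := by
    intro J
    have h1 := hb0.det hcl J
    exact (h1.add_mul hcl h1.inv).2
  have hall := (bdd_iUnion (Finset.univ : Finset (Finset κ)) _ hJ).union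
    ((bdd_const U 0).union (bdd_const U (-1)))
  obtain ⟨U', d', h1, h2, h3⟩ := hall
  refine ⟨U', d', h1, h2, ?_⟩
  intro M hM z hz hdep
  -- the algebraic closure of `M`
  have halg : ∀ i, IsAlgebraic M (z i) := by
    intro i
    obtain ⟨P, p1, p2, p3, p4⟩ := hz i
    refine ⟨∑ j ∈ Finset.range (P.natDegree + 1), monomial j (⟨P.coeff j, hM _ (p3 j)⟩ : M), ?_, ?_⟩
    · intro h
      have h4 := congrArg (fun Q : Polynomial M => Q.coeff P.natDegree) h
      simp only [finset_sum_coeff, coeff_monomial, coeff_zero] at h4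
      rw [Finset.sum_eq_single P.natDegree] at h4
      · rw [if_pos rfl] at h4
        have h5 : P.coeff P.natDegree = 0 := congrArg Subtype.val h4
        exact p1 (leadingCoeff_eq_zero.1 h5)
      · intro j _ hj
        rw [if_neg hj]
      · intro h; simp at h
    · rw [map_sum]
      rw [eval_eq_sum_range] at p4
      rw [← p4]
      refine Finset.sum_congr rfl (fun j _ => ?_)
      rw [aeval_monomial]
      rfl
  obtain ⟨w, hw⟩ : ∃ w : κ → algebraicClosure M Ω, ∀ i, (w i : Ω) = z i :=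
    ⟨fun i => ⟨z i, (mem_algebraicClosure_iff).2 (halg i)⟩, fun i => rfl⟩
  have hwcx : ∀ i, Cx U d (w i : Ω) := fun i => by rw [hw]; exact hz i
  have hfix : ∀ x : algebraicClosure M Ω, (∀ σ : algebraicClosure M Ω ≃ₐ[M] algebraicClosure M Ω,
      σ x = x) → ∃ c : M, algebraMap M (algebraicClosure M Ω) c = x := by
    intro x hx
    have := (InfiniteGalois.mem_bot_iff_fixed x).2 hx
    exact IntermediateField.mem_bot.1 this
  -- a maximal independent subset
  obtain ⟨s, hs, hmax⟩ := exists_maximal_linearIndepOn M z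
  obtain ⟨i0, hi0⟩ : ∃ i0, i0 ∉ s := by
    by_contra h
    push Not at h
    apply hdep
    have hu : s = Set.univ := Set.eq_univ_of_forall h
    rw [hu] at hs
    exact linearIndepOn_univ.1 hs
  obtain ⟨a, ha0, ha⟩ := hmax i0 hi0
  obtain ⟨J, hJs⟩ : ∃ J : Finset κ, (J : Set κ) = s := ⟨s.toFinite.toFinset, s.toFinite.coe_toFinset⟩
  have hzi0 : z i0 ∈ Submodule.span M (z '' (J : Set κ)) := by
    have h4 := Submodule.smul_mem _ (a⁻¹) ha
    rw [smul_smul, inv_mul_cancel₀ ha0, one_smul, ← hJs] at h4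
    exact h4
  have hind : LinearIndependent M (fun i : J => w i) := by
    have h4 : LinearIndependent M (fun i : J => z i) := by
      rw [← hJs] at hs
      exact hs
    refine LinearIndependent.of_comp ((algebraicClosure M Ω).val.toLinearMap) ?_
    have h5 : ((algebraicClosure M Ω).val.toLinearMap ∘ fun i : J => w i) =
        fun i : J => z i := by
      funext i
      exact hw i
    rw [h5]
    exact h4
  obtain ⟨c, hc⟩ : ∃ c : J → M, ∑ i : J, c i • z i = z i0 := by
    have h4 : z '' (J : Set κ) = Set.range (fun i : J => z i) := by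
      ext x
      simp
    rw [h4] at hzi0
    exact (Submodule.mem_span_range_iff_exists_fun M).1 hzi0
  obtain ⟨σ, hσ⟩ := artin hfix (fun i : J => w i) hind
  -- the equations
  obtain ⟨A, hA⟩ : ∃ A : Matrix J J Ω, A = fun (j i : J) => ((σ j (w i) : algebraicClosure M Ω) : Ω) :=
    ⟨_, rfl⟩
  have hAdet : A.det ≠ 0 := by
    have h4 : A.det = ((Matrix.of fun j i => σ j (w i) : Matrix J J (algebraicClosure M Ω)).det :
        Ω) := by
      have h5 : A = (algebraMap (algebraicClosure M Ω) Ω).mapMatrix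
          (Matrix.of fun j i => σ j (w i) : Matrix J J (algebraicClosure M Ω)) := by
        rw [hA]; rfl
      rw [h5, ← RingHom.map_det]
      rfl
    rw [h4]
    intro h
    apply hσ
    exact_mod_cast h
  have heq : A.mulVec (fun i => (c i : Ω)) =
      fun j => ((σ j (w i0) : algebraicClosure M Ω) : Ω) := by
    funext j
    have h4 : ∑ i : J, c i • w i = w i0 := by
      apply Subtype.ext
      push_cast
      rw [hw, ← hc]
      refine Finset.sum_congr rfl (fun i _ => ?_)
      rw [← hw]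
    have h5 := congrArg (fun x => ((σ j x : algebraicClosure M Ω) : Ω)) h4
    simp only [map_sum] at h5
    rw [← h5]
    push_cast
    rw [Matrix.mulVec, dotProduct]
    refine Finset.sum_congr rfl (fun i _ => ?_)
    rw [hA, mul_comm, Algebra.smul_def, map_mul, AlgEquiv.commutes]
    rfl
  have hcram : ∀ i : J, (c i : Ω) = (A.updateCol i
      (fun j => ((σ j (w i0) : algebraicClosure M Ω) : Ω))).det * (A.det)⁻¹ := by
    intro i
    have h4 := congrFun (Matrix.cramer_eq_adjugate_mulVec A (A.mulVec (fun i => (c i : Ω)))) i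
    rw [Matrix.mulVec_mulVec, Matrix.adjugate_mul, Matrix.smul_mulVec, Matrix.one_mulVec,
      Matrix.cramer_apply, heq] at h4
    rw [h4]
    simp only [Pi.smul_apply, smul_eq_mul]
    field_simp
  refine ⟨fun i => if h : i ∈ J then (c ⟨i, h⟩ : Ω) else if i = i0 then -1 else 0, ?_, ?_, ?_⟩
  · intro i
    by_cases h : i ∈ J
    · simp only [dif_pos h]
      refine ⟨(c ⟨i, h⟩).2, h3 _ (Or.inl ⟨J, Finset.mem_univ _, ?_⟩)⟩
      refine ⟨_, _, ⟨_, ?_, rfl⟩, ⟨_, ⟨A, ?_, rfl⟩, hAdet, rfl⟩, hcram ⟨i, h⟩⟩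
      · intro j i'
        left
        rw [Matrix.updateCol_apply]
        split_ifs
        · exact cx_conj U d M hM (σ j) (w i0) (hwcx i0)
        · rw [hA]; exact cx_conj U d M hM (σ j) (w i') (hwcx i')
      · intro j i'
        left
        rw [hA]; exact cx_conj U d M hM (σ j) (w i') (hwcx i')
    · simp only [dif_neg h]
      split_ifs
      · exact ⟨M.neg_mem M.one_mem, h3 _ (Or.inr (Or.inr (by simp)))⟩
      · exact ⟨M.zero_mem, h3 _ (Or.inr (Or.inl (by simp)))⟩
  · have hi0J : i0 ∉ J := fun h => hi0 (by rw [← hJs]; exact h)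
    have h4 : ∀ i : κ, (if h : i ∈ J then (c ⟨i, h⟩ : Ω) else if i = i0 then -1 else 0) * z i =
        (if h : i ∈ J then (c ⟨i, h⟩ : Ω) * z i else 0) + (if i = i0 then -z i else 0) := by
      intro i
      by_cases h : i ∈ J
      · have hne : i ≠ i0 := by rintro rfl; exact hi0J h
        simp only [dif_pos h, if_neg hne, add_zero]
      · simp only [dif_neg h]
        split_ifs <;> ring
    rw [Finset.sum_congr rfl (fun i _ => h4 i), Finset.sum_add_distrib, Finset.sum_ite_eq']
    have h5 : ∑ i : κ, (if h : i ∈ J then (c ⟨i, h⟩ : Ω) * z i else 0) = z i0 := by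
      rw [← hc, ← Finset.sum_subset (Finset.subset_univ J)]
      · rw [← Finset.sum_coe_sort J]
        refine Finset.sum_congr rfl (fun i _ => ?_)
        rw [dif_pos i.2]
        rfl
      · intro i _ hi
        rw [dif_neg hi]
    rw [h5]
    simp
  · refine ⟨i0, ?_⟩
    have hi0J : i0 ∉ J := fun h => hi0 (by rw [← hJs]; exact h)
    simp only [dif_neg hi0J, if_true]
    exact neg_ne_zero.2 one_ne_zero

end Pool.Agent.Lib.MP_c50dba_nt.BX
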