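import Pool.Agent.Lib.MP_c50dba_nt.BX.IterV83
import Pool.Agent.Lib.MP_c50dba_nt.BX.InfV83
import Pool.Agent.Lib.MP_c50dba_nt.BX.Rel42
import Pool.Agent.Lib.MP_c50dba_nt.BX.Ind77
import Pool.Agent.Lib.MP_c50dba_nt.BX.Iso38
import Pool.Agent.Lib.MP_c50dba_nt.BX.Ar36
import Pool.Agent.Lib.MP_c50dba_nt.BX.Deg95
import Pool.Agent.Lib.MP_c50dba_nt.BX.GalV90
import Pool.Agent.Lib.MP_c50dba_nt.BX.FinV36

set_option autoImplicit false

/-!
BOXES project, phase 2: assembly.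
-/

namespace Pool.Agent.Lib.MP_c50dba_nt.BX

theorem finV_all83 : StFinV :=
  finV_36 (infV_83 cl_42 (ind_77 (rel_42 cl_42) (quot_69 cl_42)) (galv_90 (deg_95 iso_38 ar_36)))

end Pool.Agent.Lib.MP_c50dba_nt.BX
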