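import Pool.Agent.Lib.MP_c50dba_nt.BX.LastV83

set_option autoImplicit false

/-!
V8: iteration for arrays.
-/

namespace Pool.Agent.Lib.MP_c50dba_nt.BX

open Module
open Pool.Agent.Lib.MP_c50dba_nt Pool.Agent.Lib.MP_c50dba_nt.Gen Pool.Agent.Lib.MP_c50dba_nt.Gen.G2
open Pool.Agent.Lib.MP_c50dba_nt.GC

theorem iterV83 (hF : StFinV) (p : ℕ) [Fact p.Prime] (L : PadicAlgCl p → PadicAlgCl p)
    (hL : IsIwasawaLog p L) (N : ℕ) (f : Fin N → PadicAlgCl p)
    (hf : LinearIndependent (AN p) f) : ∀ (n : ℕ) (d h m : Fin n → ℕ)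
    (r : (j : Fin n) → Fin (h j) → ℕ) (q : (j : Fin n) → (i : Fin (h j)) → Fin (r j i) → ℕ)
    (D : (j : Fin n) → Fin (h j) → ℕ)
    (_ : ∀ j i, (D j i - 1) * ∏ s, q j i s < 2 ^ r j i * ∏ s, (q j i s - 1))
    (_ : ∀ j, d j < ∏ i, (D j i + 1) ∧ sideV83
      (N * ∏ i ∈ Finset.univ.filter (fun i => i < j), (d i + 1)) (d j) (h j) (r j) (q j) ≤ m j)
    (a y u : Fin n → PadicAlgCl p)
    (_ : ∀ i, a i ≠ 0 ∧ IsAlgebraic ℚ (a i) ∧ u i ≠ 0)
    (_ : ∀ j : Fin n, ∃ (z : ((i : Fin (h j)) → Ix (q j i)) → PadicAlgCl p)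
        (v : (i : Fin (h j)) → Fin (m j) → Ix (q j i) → PadicAlgCl p),
      (∀ i l, ZL (q j i) (v i l)) ∧
      LinearIndependent ℚ (fun x : (i : Fin (h j)) × (Fin (m j) × Ix (fun s => q j i s - 1)) =>
        v x.1 x.2.1 (bas (q j x.1) x.2.2)) ∧
      ∀ (S : Finset (Fin (h j))) (c : Fin (h j) → Fin (m j)) (t : (i : Fin (h j)) → Ix (q j i)),
        ∃ σ : PadicAlgCl p ≃ₐ[ℚ_[p]] PadicAlgCl p,
        (∀ x, σ (f x) = f x) ∧ (∀ i, i < j → σ (y i + u i * L (a i)) = y i + u i * L (a i)) ∧
        σ (y j) = y j ∧ σ (u j) = u j ∧ σ (L (a j)) = z t + ∑ i ∈ S, v i (c i) (t i)),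
    LinearIndependent (AN p) (fun x : Fin N × ((j : Fin n) → Fin (d j + 1)) =>
      f x.1 * ∏ i, (y i + u i * L (a i)) ^ (x.2 i : ℕ)) := by
  intro n
  induction n with
  | zero =>
    intro d h m _ _ _ _ _ a y u _ _
    have hinj : Function.Injective (fun x : Fin N × ((j : Fin 0) → Fin (d j + 1)) => x.1) := by
      rintro ⟨x, k⟩ ⟨y, k'⟩ h
      simp only at h
      rw [h, Subsingleton.elim k k']
    have h1 := hf.comp _ hinj
    convert h1 using 2 with x
    simp
  | succ n ih =>
    intro d h m r q D hD hdh a y u ha hcube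
    have hfil : ∀ j : Fin n, ∏ i ∈ Finset.univ.filter (fun i : Fin (n + 1) => i < j.castSucc),
        (d i + 1) = ∏ i ∈ Finset.univ.filter (fun i : Fin n => i < j), (d i.castSucc + 1) := by
      intro j
      have h1 : Finset.univ.filter (fun i : Fin (n + 1) => i < j.castSucc) =
          (Finset.univ.filter (fun i : Fin n => i < j)).map Fin.castSuccEmb := by
        ext i
        simp only [Finset.mem_filter, Finset.mem_univ, true_and, Finset.mem_map,
          Fin.coe_castSuccEmb]
        constructor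
        · intro hi
          refine ⟨⟨i, lt_trans (Fin.lt_def.1 hi) (by simp)⟩, ?_, ?_⟩
          · rw [Fin.lt_def] at hi ⊢
            exact hi
          · exact Fin.ext rfl
        · rintro ⟨i', hi', rfl⟩
          exact Fin.castSucc_lt_castSucc_iff.2 hi'
      rw [h1, Finset.prod_map]
      rfl
    have hlast : ∏ i ∈ Finset.univ.filter (fun i : Fin (n + 1) => i < Fin.last n), (d i + 1) =
        ∏ i : Fin n, (d i.castSucc + 1) := by
      have h1 : Finset.univ.filter (fun i : Fin (n + 1) => i < Fin.last n) =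
          (Finset.univ : Finset (Fin n)).map Fin.castSuccEmb := by
        ext i
        simp only [Finset.mem_filter, Finset.mem_univ, true_and, Finset.mem_map,
          Fin.coe_castSuccEmb]
        constructor
        · intro hi
          exact ⟨⟨i, Fin.lt_def.1 hi⟩, Fin.ext rfl⟩
        · rintro ⟨i', rfl⟩
          exact Fin.castSucc_lt_last i'
      rw [h1, Finset.prod_map]
      rfl
    have h1 := ih (fun i => d i.castSucc) (fun i => h i.castSucc) (fun i => m i.castSucc)
      (fun i => r i.castSucc) (fun i => q i.castSucc) (fun i => D i.castSucc)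
      (fun j => hD j.castSucc)
      (fun j => ⟨(hdh j.castSucc).1, by
        rw [← hfil j]
        exact (hdh j.castSucc).2⟩)
      (fun i => a i.castSucc) (fun i => y i.castSucc)
      (fun i => u i.castSucc) (fun i => ha i.castSucc) (by
      intro j
      obtain ⟨z, v, hz, hv, hS⟩ := hcube j.castSucc
      refine ⟨z, v, hz, hv, fun S c t => ?_⟩
      obtain ⟨σ, h1, h2, h3, h4, h5⟩ := hS S c t
      exact ⟨σ, h1, fun i hi => h2 i.castSucc (by simpa using hi), h3, h4, h5⟩)
    obtain ⟨z, v, hz, hv, hS⟩ := hcube (Fin.last n)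
    have hside := (hdh (Fin.last n)).2
    rw [hlast] at hside
    have h2 := stepV_mono83 hside (sideV_spec83 hF _ _ _ _ _ (D (Fin.last n))
      (hD (Fin.last n)) (hdh (Fin.last n)).1) p L hL
      (Fin N × ((j : Fin n) → Fin (d j.castSucc + 1))) (by
        rw [Fintype.card_prod, Fintype.card_pi, Fintype.card_fin]
        simp only [Fintype.card_fin])
      (fun x => f x.1 * ∏ i : Fin n, (y i.castSucc + u i.castSucc * L (a i.castSucc)) ^
        (x.2 i : ℕ)) h1 (a (Fin.last n)) (ha _).1 (ha _).2.1 (y (Fin.last n))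
      (u (Fin.last n)) (ha _).2.2 z v hz hv (by
        intro S c t
        obtain ⟨σ, h1, h2, h3, h4, h5⟩ := hS S c t
        refine ⟨σ, fun x => ?_, h3, h4, h5⟩
        rw [map_mul, map_prod, h1]
        congr 1
        apply Finset.prod_congr rfl
        intro i _
        rw [map_pow, h2 i.castSucc (Fin.castSucc_lt_last i)])
    have hinj : Function.Injective (fun x : Fin N × ((j : Fin (n + 1)) → Fin (d j + 1)) =>
        (((x.1, fun i : Fin n => x.2 i.castSucc), x.2 (Fin.last n)) :
          (Fin N × ((j : Fin n) → Fin (d j.castSucc + 1))) × Fin (d (Fin.last n) + 1))) := by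
      rintro ⟨x, k⟩ ⟨y, k'⟩ h
      simp only [Prod.mk.injEq] at h
      obtain ⟨⟨h3, h4⟩, h5⟩ := h
      rw [h3]
      congr 1
      funext i
      refine Fin.lastCases h5 (fun j => ?_) i
      exact congrFun h4 j
    have h3 := h2.comp _ hinj
    convert h3 using 2 with x
    rw [Fin.prod_univ_castSucc]
    simp only [Function.comp]
    ring

end Pool.Agent.Lib.MP_c50dba_nt.BX
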