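import Pool.Agent.Lib.MP_c50dba_nt.BX.Stmts
import Pool.Agent.Lib.MP_c50dba_nt.EX.Final83

set_option autoImplicit false

/-!
B7: the final step, from the finite form.
-/

namespace Pool.Agent.Lib.MP_c50dba_nt.BX

open Module
open Pool.Agent.Lib.MP_c50dba_nt Pool.Agent.Lib.MP_c50dba_nt.Gen Pool.Agent.Lib.MP_c50dba_nt.Gen.G2
open Pool.Agent.Lib.MP_c50dba_nt.GC

variable {p : ℕ} [Fact p.Prime] {L : PadicAlgCl p → PadicAlgCl p}

theorem SR_log83 (hL : IsIwasawaLog p L) {ι : Type} (v : ι → PadicAlgCl p)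
    (hv : LinearIndependent ℚ v)
    (hlog : ∀ i, ∃ b, b ≠ 0 ∧ IsAlgebraic ℚ b ∧ v i = L b) {u : PadicAlgCl p} (hu : u ≠ 0) :
    SR (AN p) (fun i => u * v i) := by
  choose b hb0 hbalg hvb using hlog
  intro n g hg d w hw
  have h1 := EX.rank_all_83 p L hL.1 hL.2.1 hL.2.2 n (fun j => b (g j)) (fun j => hb0 _)
    (fun j => hbalg _) (by
      intro c hc
      have h2 := Fintype.linearIndependent_iff.mp (hv.comp g hg) (fun i => (c i : ℚ)) (by
        rw [← hc]
        apply Finset.sum_congr rfl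
        intro i _
        rw [Algebra.smul_def, map_intCast, Function.comp, hvb])
      funext i
      exact_mod_cast h2 i) d w hw
  have h3 : Submodule.span (AN p) (Set.range (fun ij : Fin d × Fin n =>
      w ij.1 * (u * v (g ij.2)))) = (Submodule.span (AN p) (Set.range (fun ij : Fin d × Fin n =>
      w ij.1 * L (b (g ij.2))))).map (LinearMap.mulLeft (AN p) u) := by
    rw [Submodule.map_span, ← Set.range_comp]
    congr 2
    funext ij
    simp only [Function.comp, LinearMap.mulLeft_apply, hvb]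
    ring
  have h4 : Function.Injective (LinearMap.mulLeft (AN p) u) := fun x y hxy =>
    mul_left_cancel₀ hu hxy
  rw [h3, ← (Submodule.equivMapOfInjective (LinearMap.mulLeft (AN p) u) h4 _).finrank_eq]
  exact h1

/-- The property of the finite form. -/
def FinB83 (N d h m : ℕ) : Prop :=
  ∀ (k Ω : Type) [Field k] [CharZero k] [Field Ω]
    [IsAlgClosed Ω] [Algebra k Ω] (f : Fin N → Ω) (y : Ω) (v : Fin h → Fin m → Ω),
    SR k (fun x : Fin h × Fin m => v x.1 x.2) →
    ∃ (S : Finset (Fin h)) (c : Fin h → Fin m),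
      ¬ Cx (Submodule.span k (Set.range f)) d (y + ∑ i ∈ S, v i (c i))

theorem finB_mono83 {N d h m m' : ℕ} (hm : m ≤ m') (H : FinB83 N d h m) : FinB83 N d h m' := by
  intro k Ω _ _ _ _ _ f y v hSR
  obtain ⟨S, c, hc⟩ := H k Ω f y (fun i l => v i (Fin.castLE hm l)) (by
    intro n g hg d' u hu
    exact hSR n (fun j => ((g j).1, Fin.castLE hm (g j).2)) (by
      intro i j hij
      simp only [Prod.mk.injEq] at hij
      apply hg
      exact Prod.ext hij.1 ((Fin.castLEEmb hm).injective hij.2)) d' u hu)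
  exact ⟨S, fun i => Fin.castLE hm (c i), hc⟩

theorem stepB83 (hL : IsIwasawaLog p L) {ι : Type} [Fintype ι] (f : ι → PadicAlgCl p)
    (hf : LinearIndependent (AN p) f) (d h m : ℕ) (hm : FinB83 (Fintype.card ι) d h m)
    (a : PadicAlgCl p) (ha : a ≠ 0)
    (halg : IsAlgebraic ℚ a) (y u : PadicAlgCl p) (hu : u ≠ 0)
    (v : Fin h → Fin m → PadicAlgCl p)
    (hv : LinearIndependent ℚ (fun x : Fin h × Fin m => v x.1 x.2))
    (hσ : ∀ (S : Finset (Fin h)) (c : Fin h → Fin m), ∃ σ : PadicAlgCl p ≃ₐ[ℚ_[p]] PadicAlgCl p,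
      (∀ x, σ (f x) = f x) ∧ σ y = y ∧ σ u = u ∧ σ (L a) = L a + ∑ i ∈ S, v i (c i)) :
    LinearIndependent (AN p) (fun x : ι × Fin (d + 1) => f x.1 * (y + u * L a) ^ (x.2 : ℕ)) := by
  classical
  -- the `v i l` are logarithms
  have hvlog : ∀ x : Fin h × Fin m, ∃ b, b ≠ 0 ∧ IsAlgebraic ℚ b ∧ v x.1 x.2 = L b := by
    rintro ⟨i, l⟩
    obtain ⟨σ, -, -, -, h1⟩ := hσ {i} (fun _ => l)
    rw [Finset.sum_singleton, ← L_algEquiv L hL.1 hL.2.1 hL.2.2 σ ha] at h1
    have hσa : σ a ≠ 0 := by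
      intro h
      exact ha (σ.injective (by rw [h, map_zero]))
    refine ⟨σ a * a⁻¹, mul_ne_zero hσa (inv_ne_zero ha), (algEquiv_AN83 σ halg).mul halg.inv, ?_⟩
    have h2 := hL.1 (σ a * a⁻¹) a (mul_ne_zero hσa (inv_ne_zero ha)) ha
    rw [inv_mul_cancel_right₀ ha, h1] at h2
    linear_combination h2
  have hSR := SR_log83 hL (fun x : Fin h × Fin m => v x.1 x.2) hv hvlog hu
  have hchar : CharZero (AN p) := inferInstance
  obtain ⟨S, c, hSc⟩ := hm (AN p) (PadicAlgCl p) (fun i => f ((Fintype.equivFin ι).symm i))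
    (y + u * L a) (fun i l => u * v i l) hSR
  by_contra hdep
  apply hSc
  rw [Fintype.linearIndependent_iff] at hdep
  push Not at hdep
  obtain ⟨g, hg, x0, hx0⟩ := hdep
  obtain ⟨σ, hσf, hσy, hσu, hσa⟩ := hσ S c
  have halgσ : ∀ x, IsAlgebraic ℚ (σ (g x : PadicAlgCl p)) := fun x =>
    algEquiv_AN83 σ (mem_algebraicClosure_iff.1 (g x).2)
  let g' : ι × Fin (d + 1) → AN p := fun x =>
    ⟨σ (g x : PadicAlgCl p), mem_algebraicClosure_iff.2 (halgσ x)⟩
  have hspan : ∀ (c' : ι → AN p), ∑ i, (c' i : PadicAlgCl p) * f i ∈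
      Submodule.span (AN p) (Set.range (fun i => f ((Fintype.equivFin ι).symm i))) := by
    intro c'
    apply Submodule.sum_mem
    intro i _
    have h1 : f i ∈ Submodule.span (AN p)
        (Set.range (fun i => f ((Fintype.equivFin ι).symm i))) :=
      Submodule.subset_span ⟨Fintype.equivFin ι i, by simp⟩
    have h2 := Submodule.smul_mem _ (c' i) h1
    rwa [Algebra.smul_def] at h2
  let P : Polynomial (PadicAlgCl p) := ∑ j : Fin (d + 1),
    Polynomial.C (∑ i, (g' (i, j) : PadicAlgCl p) * f i) * Polynomial.X ^ (j : ℕ)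
  have hcoeff : ∀ j, P.coeff j = if hj : j < d + 1 then
      ∑ i, (g' (i, ⟨j, hj⟩) : PadicAlgCl p) * f i else 0 := by
    intro j
    simp only [P, Polynomial.finsetSum_coeff, Polynomial.coeff_C_mul, Polynomial.coeff_X_pow,
      mul_ite, mul_one, mul_zero]
    split_ifs with hj
    · rw [Finset.sum_eq_single (⟨j, hj⟩ : Fin (d + 1))]
      · simp
      · intro j' _ hne
        rw [if_neg]
        intro h
        exact hne (Fin.ext h.symm)
      · intro h
        exact absurd (Finset.mem_univ _) h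
    · apply Finset.sum_eq_zero
      intro j' _
      rw [if_neg]
      intro h
      exact hj (by rw [h]; exact j'.2)
  refine ⟨P, ?_, ?_, ?_, ?_⟩
  · intro hP
    have h1 := hcoeff x0.2
    rw [hP, Polynomial.coeff_zero, dif_pos x0.2.2] at h1
    have h2 := Fintype.linearIndependent_iff.1 hf (fun i => g' (i, x0.2)) (by
      rw [h1]
      apply Finset.sum_congr rfl
      intro i _
      rw [Algebra.smul_def]
      rfl) x0.1
    apply hx0
    have h3 : σ (g x0 : PadicAlgCl p) = 0 := congrArg Subtype.val h2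
    have h4 : (g x0 : PadicAlgCl p) = 0 := by
      apply σ.injective
      rw [h3, map_zero]
    exact_mod_cast h4
  · rw [Polynomial.natDegree_le_iff_coeff_eq_zero]
    intro j hj
    rw [hcoeff, dif_neg (by omega)]
  · intro j
    rw [hcoeff]
    split_ifs with hj
    · exact hspan _
    · exact Submodule.zero_mem _
  · have h1 := congrArg σ hg
    rw [map_sum, map_zero] at h1
    rw [← h1, Polynomial.eval_finsetSum, Fintype.sum_prod_type_right]
    apply Finset.sum_congr rfl
    intro j _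
    rw [Polynomial.eval_mul, Polynomial.eval_C, Polynomial.eval_pow, Polynomial.eval_X,
      Finset.sum_mul]
    apply Finset.sum_congr rfl
    intro i _
    rw [Algebra.smul_def, map_mul, map_mul, map_pow, map_add, map_mul, hσf, hσy, hσu, hσa,
      mul_add, add_assoc, Finset.mul_sum, ← mul_assoc]
    rfl

theorem iterB83 (hL : IsIwasawaLog p L) (N d h m n : ℕ)
    (hm : ∀ j < n, FinB83 (N * (d + 1) ^ j) d h m) (f : Fin N → PadicAlgCl p)
    (hf : LinearIndependent (AN p) f) : ∀ (n' : ℕ) (_ : n' ≤ n) (a y u : Fin n' → PadicAlgCl p)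
    (_ : ∀ i, a i ≠ 0 ∧ IsAlgebraic ℚ (a i) ∧ u i ≠ 0)
    (_ : ∀ j : Fin n', ∃ v : Fin h → Fin m → PadicAlgCl p,
      LinearIndependent ℚ (fun x : Fin h × Fin m => v x.1 x.2) ∧
      ∀ (S : Finset (Fin h)) (c : Fin h → Fin m), ∃ σ : PadicAlgCl p ≃ₐ[ℚ_[p]] PadicAlgCl p,
        (∀ x, σ (f x) = f x) ∧ (∀ i, i < j → σ (y i + u i * L (a i)) = y i + u i * L (a i)) ∧
        σ (y j) = y j ∧ σ (u j) = u j ∧ σ (L (a j)) = L (a j) + ∑ i ∈ S, v i (c i)),
    LinearIndependent (AN p) (fun x : Fin N × (Fin n' → Fin (d + 1)) =>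
      f x.1 * ∏ i, (y i + u i * L (a i)) ^ (x.2 i : ℕ)) := by
  intro n'
  induction n' with
  | zero =>
    intro _ a y u _ _
    have hinj : Function.Injective (fun x : Fin N × (Fin 0 → Fin (d + 1)) => x.1) := by
      rintro ⟨x, k⟩ ⟨y, k'⟩ h
      simp only at h
      rw [h, Subsingleton.elim k k']
    have h1 := hf.comp _ hinj
    convert h1 using 2 with x
    simp
  | succ n' ih =>
    intro hn' a y u ha hcube
    have h1 := ih (by omega) (fun i => a i.castSucc) (fun i => y i.castSucc)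
      (fun i => u i.castSucc) (fun i => ha i.castSucc) (by
      intro j
      obtain ⟨v, hv, hS⟩ := hcube j.castSucc
      refine ⟨v, hv, fun S c => ?_⟩
      obtain ⟨σ, h1, h2, h3, h4, h5⟩ := hS S c
      exact ⟨σ, h1, fun i hi => h2 i.castSucc (by simpa using hi), h3, h4, h5⟩)
    obtain ⟨v, hv, hS⟩ := hcube (Fin.last n')
    have h2 := stepB83 hL (fun x : Fin N × (Fin n' → Fin (d + 1)) =>
      f x.1 * ∏ i : Fin n', (y i.castSucc + u i.castSucc * L (a i.castSucc)) ^ (x.2 i : ℕ)) h1 d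
      h m (by
        rw [Fintype.card_prod, Fintype.card_fun, Fintype.card_fin, Fintype.card_fin,
          Fintype.card_fin]
        exact hm n' (by omega)) (a (Fin.last n')) (ha _).1 (ha _).2.1 (y (Fin.last n'))
      (u (Fin.last n')) (ha _).2.2 v hv (by
        intro S c
        obtain ⟨σ, h1, h2, h3, h4, h5⟩ := hS S c
        refine ⟨σ, fun x => ?_, h3, h4, h5⟩
        rw [map_mul, map_prod, h1]
        congr 1
        apply Finset.prod_congr rfl
        intro i _
        rw [map_pow, h2 i.castSucc (Fin.castSucc_lt_last i)])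
    have hinj : Function.Injective (fun x : Fin N × (Fin (n' + 1) → Fin (d + 1)) =>
        (((x.1, fun i : Fin n' => x.2 i.castSucc), x.2 (Fin.last n')) :
          (Fin N × (Fin n' → Fin (d + 1))) × Fin (d + 1))) := by
      rintro ⟨x, k⟩ ⟨y, k'⟩ h
      simp only [Prod.mk.injEq] at h
      obtain ⟨⟨h3, h4⟩, h5⟩ := h
      rw [h3]
      congr 1
      funext i
      refine Fin.lastCases h5 (fun j => ?_) i
      exact congrFun h4 j
    have h3 := h2.comp _ hinj
    convert h3 using 2 with x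
    rw [Fin.prod_univ_castSucc]
    simp only [Function.comp]
    ring

end Pool.Agent.Lib.MP_c50dba_nt.BX
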