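import Pool.Agent.Lib.MP_c50dba_nt.BX.StmtsV
import Pool.Agent.Lib.MP_c50dba_nt.BX.Final83

set_option autoImplicit false

/-!
V8: the final step for arrays.
-/

namespace Pool.Agent.Lib.MP_c50dba_nt.BX

open Module
open Pool.Agent.Lib.MP_c50dba_nt Pool.Agent.Lib.MP_c50dba_nt.Gen Pool.Agent.Lib.MP_c50dba_nt.Gen.G2
open Pool.Agent.Lib.MP_c50dba_nt.GC

variable {p : ℕ} [Fact p.Prime] {L : PadicAlgCl p → PadicAlgCl p}

/-- A linear dependence gives, after an automorphism, a root of bounded complexity. -/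
theorem Cx_of_dep83 {ι : Type} [Fintype ι] (f : ι → PadicAlgCl p)
    (hf : LinearIndependent (AN p) f) (d : ℕ) (x x' : PadicAlgCl p)
    (hdep : ¬ LinearIndependent (AN p) (fun z : ι × Fin (d + 1) => f z.1 * x ^ (z.2 : ℕ)))
    (σ : PadicAlgCl p ≃ₐ[ℚ_[p]] PadicAlgCl p) (hσf : ∀ i, σ (f i) = f i) (hσx : σ x = x') :
    Cx (Submodule.span (AN p) (Set.range (fun i => f ((Fintype.equivFin ι).symm i)))) d x' := by
  classical
  rw [Fintype.linearIndependent_iff] at hdep
  push Not at hdep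
  obtain ⟨g, hg, x0, hx0⟩ := hdep
  have halgσ : ∀ z, IsAlgebraic ℚ (σ (g z : PadicAlgCl p)) := fun z =>
    algEquiv_AN83 σ (mem_algebraicClosure_iff.1 (g z).2)
  let g' : ι × Fin (d + 1) → AN p := fun z =>
    ⟨σ (g z : PadicAlgCl p), mem_algebraicClosure_iff.2 (halgσ z)⟩
  have hspan : ∀ (c' : ι → AN p), ∑ i, (c' i : PadicAlgCl p) * f i ∈
      Submodule.span (AN p) (Set.range (fun i => f ((Fintype.equivFin ι).symm i))) := by
    intro c'
    apply Submodule.sum_mem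
    intro i _
    have h1 : f i ∈ Submodule.span (AN p)
        (Set.range (fun i => f ((Fintype.equivFin ι).symm i))) :=
      Submodule.subset_span ⟨Fintype.equivFin ι i, by simp⟩
    have h2 := Submodule.smul_mem _ (c' i) h1
    rwa [Algebra.smul_def] at h2
  let P : Polynomial (PadicAlgCl p) := ∑ j : Fin (d + 1),
    Polynomial.C (∑ i, (g' (i, j) : PadicAlgCl p) * f i) * Polynomial.X ^ (j : ℕ)
  have hcoeff : ∀ j, P.coeff j = if hj : j < d + 1 then
      ∑ i, (g' (i, ⟨j, hj⟩) : PadicAlgCl p) * f i else 0 := by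
    intro j
    simp only [P, Polynomial.finsetSum_coeff, Polynomial.coeff_C_mul, Polynomial.coeff_X_pow,
      mul_ite, mul_one, mul_zero]
    split_ifs with hj
    · rw [Finset.sum_eq_single (⟨j, hj⟩ : Fin (d + 1))]
      · simp
      · intro j' _ hne
        rw [if_neg]
        intro h
        exact hne (Fin.ext h.symm)
      · intro h
        exact absurd (Finset.mem_univ _) h
    · apply Finset.sum_eq_zero
      intro j' _
      rw [if_neg]
      intro h
      exact hj (by rw [h]; exact j'.2)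
  refine ⟨P, ?_, ?_, ?_, ?_⟩
  · intro hP
    have h1 := hcoeff x0.2
    rw [hP, Polynomial.coeff_zero, dif_pos x0.2.2] at h1
    have h2 := Fintype.linearIndependent_iff.1 hf (fun i => g' (i, x0.2)) (by
      rw [h1]
      apply Finset.sum_congr rfl
      intro i _
      rw [Algebra.smul_def]
      rfl) x0.1
    apply hx0
    have h3 : σ (g x0 : PadicAlgCl p) = 0 := congrArg Subtype.val h2
    have h4 : (g x0 : PadicAlgCl p) = 0 := by
      apply σ.injective
      rw [h3, map_zero]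
    exact_mod_cast h4
  · rw [Polynomial.natDegree_le_iff_coeff_eq_zero]
    intro j hj
    rw [hcoeff, dif_neg (by omega)]
  · intro j
    rw [hcoeff]
    split_ifs with hj
    · exact hspan _
    · exact Submodule.zero_mem _
  · have h1 := congrArg σ hg
    rw [map_sum, map_zero] at h1
    rw [← h1, Polynomial.eval_finsetSum, Fintype.sum_prod_type_right]
    apply Finset.sum_congr rfl
    intro j _
    rw [Polynomial.eval_mul, Polynomial.eval_C, Polynomial.eval_pow, Polynomial.eval_X,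
      Finset.sum_mul]
    apply Finset.sum_congr rfl
    intro i _
    rw [Algebra.smul_def, map_mul, map_mul, map_pow, hσf, hσx, ← mul_assoc]
    rfl

/-- One step: the conjugates contain a sum of arrays with zero line sums. -/
def StepV83 (N d h : ℕ) (r : Fin h → ℕ) (q : (i : Fin h) → Fin (r i) → ℕ) (m : ℕ) : Prop :=
  ∀ (p : ℕ) [Fact p.Prime] (L : PadicAlgCl p → PadicAlgCl p), IsIwasawaLog p L →
    ∀ (ι : Type) [Fintype ι], Fintype.card ι = N → ∀ f : ι → PadicAlgCl p,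
    LinearIndependent (AN p) f → ∀ a : PadicAlgCl p, a ≠ 0 → IsAlgebraic ℚ a →
    ∀ y u : PadicAlgCl p, u ≠ 0 →
    ∀ (z : ((i : Fin h) → Ix (q i)) → PadicAlgCl p)
      (v : (i : Fin h) → Fin m → Ix (q i) → PadicAlgCl p),
    (∀ i l, ZL (q i) (v i l)) →
    LinearIndependent ℚ (fun x : (i : Fin h) × (Fin m × Ix (fun s => q i s - 1)) =>
      v x.1 x.2.1 (bas (q x.1) x.2.2)) →
    (∀ (S : Finset (Fin h)) (c : Fin h → Fin m) (t : (i : Fin h) → Ix (q i)),
      ∃ σ : PadicAlgCl p ≃ₐ[ℚ_[p]] PadicAlgCl p,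
      (∀ x, σ (f x) = f x) ∧ σ y = y ∧ σ u = u ∧ σ (L a) = z t + ∑ i ∈ S, v i (c i) (t i)) →
    LinearIndependent (AN p) (fun x : ι × Fin (d + 1) => f x.1 * (y + u * L a) ^ (x.2 : ℕ))

theorem pos_of_prod83 {r : ℕ} {q : Fin r → ℕ} {A B : ℕ} (h : A < B * ∏ s, (q s - 1)) (s : Fin r) :
    2 ≤ q s := by
  have h4 : ∏ s, (q s - 1) ≠ 0 := by
    intro h5
    rw [h5] at h
    omega
  have h5 := Finset.prod_ne_zero_iff.1 h4 s (Finset.mem_univ s)
  omega

/-- The difference of two conjugates of a logarithm is a logarithm. -/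
theorem log_diff83 (hL : IsIwasawaLog p L) {a : PadicAlgCl p} (ha : a ≠ 0)
    (halg : IsAlgebraic ℚ a) (σ τ : PadicAlgCl p ≃ₐ[ℚ_[p]] PadicAlgCl p) :
    ∃ b, b ≠ 0 ∧ IsAlgebraic ℚ b ∧ σ (L a) - τ (L a) = L b := by
  have hne : ∀ σ : PadicAlgCl p ≃ₐ[ℚ_[p]] PadicAlgCl p, σ a ≠ 0 := by
    intro σ h
    exact ha (σ.injective (by rw [h, map_zero]))
  refine ⟨σ a * (τ a)⁻¹, mul_ne_zero (hne σ) (inv_ne_zero (hne τ)),
    (algEquiv_AN83 σ halg).mul (algEquiv_AN83 τ halg).inv, ?_⟩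
  have h2 := hL.1 (σ a * (τ a)⁻¹) (τ a) (mul_ne_zero (hne σ) (inv_ne_zero (hne τ))) (hne τ)
  rw [inv_mul_cancel_right₀ (hne τ), L_algEquiv L hL.1 hL.2.1 hL.2.2 σ ha,
    L_algEquiv L hL.1 hL.2.1 hL.2.2 τ ha] at h2
  linear_combination h2

theorem stepV_exists83 (hF : StFinV) (N d h : ℕ) (r : Fin h → ℕ)
    (q : (i : Fin h) → Fin (r i) → ℕ) (D : Fin h → ℕ)
    (hD : ∀ i, (D i - 1) * ∏ s, q i s < 2 ^ r i * ∏ s, (q i s - 1))
    (hd : d < ∏ i, (D i + 1)) : ∃ m, StepV83 N d h r q m := by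
  classical
  obtain ⟨m, hm⟩ := hF N d h r q D hD hd
  refine ⟨m, ?_⟩
  intro p _ L hL ι _ hι f hf a ha halg y u hu z v hZL hv hσ
  subst hι
  have hne : ∀ i, Nonempty (Ix (q i)) := fun i =>
    ⟨fun s => ⟨0, lt_of_lt_of_le Nat.zero_lt_two (pos_of_prod83 (hD i) s)⟩⟩
  by_contra hdep
  obtain ⟨S, c, t, hSct⟩ := hm (AN p) (PadicAlgCl p) (fun i => f ((Fintype.equivFin ι).symm i))
    (fun t => y + u * z t) (fun i l t => u * v i l t) (by
      intro i l s t
      rw [← Finset.mul_sum, hZL i l s t, mul_zero]) (by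
      intro i
      apply SR_log83 hL (fun x : Fin m × Ix (fun s => q i s - 1) => v i x.1 (bas (q i) x.2)) _ _ hu
      · exact hv.comp (fun x : Fin m × Ix (fun s => q i s - 1) =>
          (⟨i, x⟩ : (i : Fin h) × (Fin m × Ix (fun s => q i s - 1)))) (fun x x' hx =>
            eq_of_heq (Sigma.mk.inj_iff.1 hx).2)
      · rintro ⟨l, t0⟩
        let t' : (i : Fin h) → Ix (q i) := Function.update (fun i => (hne i).some) i (bas (q i) t0)
        have ht' : t' i = bas (q i) t0 := Function.update_self _ _ _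
        obtain ⟨σ, -, -, -, h1⟩ := hσ {i} (fun _ => l) t'
        obtain ⟨τ, -, -, -, h2⟩ := hσ ∅ (fun _ => l) t'
        obtain ⟨b, hb0, hb, hb1⟩ := log_diff83 hL ha halg σ τ
        refine ⟨b, hb0, hb, ?_⟩
        rw [← hb1, h1, h2, Finset.sum_singleton, Finset.sum_empty, ht']
        ring)
  apply hSct
  obtain ⟨σ, h1, h2, h3, h4⟩ := hσ S c t
  apply Cx_of_dep83 f hf d (y + u * L a) _ hdep σ h1
  rw [map_add, map_mul, h2, h3, h4, mul_add, Finset.mul_sum, add_assoc]

/-- Restriction to one entry of each array. -/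
theorem stepV_of_box83 {N d h m : ℕ} (hB : BoxStep83 N d h m) (r : Fin h → ℕ)
    (q : (i : Fin h) → Fin (r i) → ℕ) (hq : ∀ i s, 2 ≤ q i s) : StepV83 N d h r q m := by
  intro p _ L hL ι _ hι f hf a ha halg y u hu z v hZL hv hσ
  rcases isEmpty_or_nonempty (Fin h → Fin m) with he | ⟨⟨c0⟩⟩
  · -- no `c`: then `m = 0` and `0 < h`; the box condition is empty
    refine hB p L hL ι hι f hf a ha halg y u hu (fun i l => 0) ?_ (fun S c => (he.false c).elim)
    have hem : IsEmpty (Fin h × Fin m) := by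
      constructor
      rintro ⟨i, l⟩
      exact he.false (fun _ => l)
    exact linearIndependent_empty_type
  · let t0 : (i : Fin h) → Ix (fun s => q i s - 1) := fun i s =>
      ⟨0, Nat.sub_pos_of_lt (hq i s)⟩
    let t1 : (i : Fin h) → Ix (q i) := fun i => bas (q i) (t0 i)
    obtain ⟨τ, h1, h2, h3, h4⟩ := hσ ∅ c0 t1
    rw [Finset.sum_empty, add_zero] at h4
    apply linInd_of_algEquiv83 τ
    have hτ0 : τ a ≠ 0 := by
      intro h
      exact ha (τ.injective (by rw [h, map_zero]))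
    have hLτ : L (τ a) = z t1 := by rw [L_algEquiv L hL.1 hL.2.1 hL.2.2 τ ha, h4]
    have h5 : (fun x : ι × Fin (d + 1) => τ (f x.1 * (y + u * L a) ^ (x.2 : ℕ))) =
        fun x : ι × Fin (d + 1) => f x.1 * (y + u * L (τ a)) ^ (x.2 : ℕ) := by
      funext x
      rw [map_mul, map_pow, map_add, map_mul, h1, h2, h3, h4, hLτ]
    rw [h5]
    refine hB p L hL ι hι f hf (τ a) hτ0 (algEquiv_AN83 τ halg) y u hu
      (fun i l => v i l (t1 i)) ?_ ?_
    · exact hv.comp (fun x : Fin h × Fin m =>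
        (⟨x.1, x.2, t0 x.1⟩ : (i : Fin h) × (Fin m × Ix (fun s => q i s - 1)))) (by
          rintro ⟨i, l⟩ ⟨i', l'⟩ hx
          obtain ⟨h6, h7⟩ := Sigma.mk.inj_iff.1 hx
          simp only at h6
          subst h6
          have h8 := eq_of_heq h7
          rw [Prod.mk.injEq] at h8
          exact Prod.ext rfl h8.1)
    · intro S c
      obtain ⟨σ, h6, h7, h8, h9⟩ := hσ S c t1
      refine ⟨τ.symm.trans σ, ?_, ?_, ?_, ?_⟩
      · intro x
        have : τ.symm (f x) = f x := by rw [AlgEquiv.symm_apply_eq, h1]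
        rw [AlgEquiv.trans_apply, this, h6]
      · have : τ.symm y = y := by rw [AlgEquiv.symm_apply_eq, h2]
        rw [AlgEquiv.trans_apply, this, h7]
      · have : τ.symm u = u := by rw [AlgEquiv.symm_apply_eq, h3]
        rw [AlgEquiv.trans_apply, this, h8]
      · have : τ.symm (L (τ a)) = L a := by
          rw [AlgEquiv.symm_apply_eq, L_algEquiv L hL.1 hL.2.1 hL.2.2 τ ha]
        rw [AlgEquiv.trans_apply, this, h9, hLτ]

theorem stepV_mono83 {N d h m m' : ℕ} {r : Fin h → ℕ} {q : (i : Fin h) → Fin (r i) → ℕ}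
    (hm : m ≤ m') (H : StepV83 N d h r q m) : StepV83 N d h r q m' := by
  intro p _ L hL ι _ hι f hf a ha halg y u hu z v hZL hv hσ
  refine H p L hL ι hι f hf a ha halg y u hu z (fun i l => v i (Fin.castLE hm l))
    (fun i l => hZL i _) ?_ ?_
  · exact hv.comp (fun x : (i : Fin h) × (Fin m × Ix (fun s => q i s - 1)) =>
      (⟨x.1, Fin.castLE hm x.2.1, x.2.2⟩ : (i : Fin h) × (Fin m' × Ix (fun s => q i s - 1)))) (by
      rintro ⟨i, l, t⟩ ⟨i', l', t'⟩ hx
      obtain ⟨h6, h7⟩ := Sigma.mk.inj_iff.1 hx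
      simp only at h6
      subst h6
      have h8 := eq_of_heq h7
      simp only [Prod.mk.injEq] at h8
      rw [(Fin.castLEEmb hm).injective h8.1, h8.2])
  · intro S c t
    exact hσ S (fun i => Fin.castLE hm (c i)) t

/-- The side of the box. -/
noncomputable def sideV83 (N d h : ℕ) (r : Fin h → ℕ) (q : (i : Fin h) → Fin (r i) → ℕ) : ℕ :=
  sInf {m | StepV83 N d h r q m}

theorem sideV_spec83 (hF : StFinV) (N d h : ℕ) (r : Fin h → ℕ)
    (q : (i : Fin h) → Fin (r i) → ℕ) (D : Fin h → ℕ)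
    (hD : ∀ i, (D i - 1) * ∏ s, q i s < 2 ^ r i * ∏ s, (q i s - 1))
    (hd : d < ∏ i, (D i + 1)) : StepV83 N d h r q (sideV83 N d h r q) :=
  Nat.sInf_mem (s := {m | StepV83 N d h r q m}) (stepV_exists83 hF N d h r q D hD hd)

theorem sideV_one83 (N h m : ℕ) (r : Fin h → ℕ) (q : (i : Fin h) → Fin (r i) → ℕ)
    (hq : ∀ i s, 2 ≤ q i s) (hm : N ^ 2 + N ≤ h * m) : sideV83 N 1 h r q ≤ m :=
  Nat.sInf_le (stepV_of_box83 (boxStep_one83 N h m hm) r q hq)

theorem sideV_cube83 (N d h : ℕ) (r : Fin h → ℕ) (q : (i : Fin h) → Fin (r i) → ℕ)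
    (hq : ∀ i s, 2 ≤ q i s) (hh : d * N ^ 2 * (d + 1) ^ 2 ≤ h) : sideV83 N d h r q ≤ 1 :=
  Nat.sInf_le (stepV_of_box83 (boxStep_cube83 N d h hh) r q hq)

end Pool.Agent.Lib.MP_c50dba_nt.BX
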