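import Pool.Agent.Lib.MP_c50dba_nt.BX.Last83

set_option autoImplicit false

/-!
The finite form for degree one, with an explicit bound.
-/

namespace Pool.Agent.Lib.MP_c50dba_nt.BX

open Module

theorem Cx_one83 {k Ω : Type} [Field k] [Field Ω] [Algebra k Ω] {U : Submodule k Ω} {z : Ω}
    (h : Cx U 1 z) : ∃ f ∈ U, ∃ g ∈ U, f ≠ 0 ∧ f * z + g = 0 := by
  obtain ⟨P, hP, hd, hU, hz⟩ := h
  have h1 := Polynomial.eq_X_add_C_of_natDegree_le_one hd
  refine ⟨P.coeff 1, hU 1, P.coeff 0, hU 0, ?_, ?_⟩
  · intro h0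
    rw [h0, Polynomial.C_0, zero_mul, zero_add] at h1
    rw [h1, Polynomial.eval_C] at hz
    exact hP (by rw [h1, hz, Polynomial.C_0])
  · rw [h1] at hz
    simpa using hz

/-- Few of the elements `y + v l` are quotients of elements of `U`. -/
theorem one_count83 {k Ω : Type} [Field k] [Field Ω] [Algebra k Ω] (N m : ℕ)
    (f : Fin N → Ω) (y : Ω) (v : Fin m → Ω) (hSR : SR k v)
    (h0 : Cx (Submodule.span k (Set.range f)) 1 y)
    (hex : ∀ l, Cx (Submodule.span k (Set.range f)) 1 (y + v l)) : m < N ^ 2 + N := by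
  by_contra hm
  rw [not_lt] at hm
  set U := Submodule.span k (Set.range f) with hUdef
  have hUfd : FiniteDimensional k U := FiniteDimensional.span_of_finite k (Set.finite_range f)
  have hUrank : finrank k U ≤ N := by
    have := finrank_range_le_card (R := k) f
    rwa [Fintype.card_fin] at this
  obtain ⟨f0, hf0, g0, hg0, hf00, h0⟩ := Cx_one83 h0
  have hex : ∀ l : Fin m, ∃ f ∈ U, ∃ g ∈ U, f ≠ 0 ∧ f * (y + v l) + g = 0 := fun l =>
    Cx_one83 (hex l)
  choose F hF G hG hF0 hFG using hex
  set d' := finrank k U with hd'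
  have hd1 : 1 ≤ d' := by
    rw [Nat.one_le_iff_ne_zero, ← Nat.pos_iff_ne_zero, hd', Module.finrank_pos_iff_exists_ne_zero]
    exact ⟨⟨f0, hf0⟩, fun h => hf00 (congrArg Subtype.val h)⟩
  -- the space of the products
  let X : Submodule k Ω := U.map (LinearMap.mulLeft k y) ⊔ U
  have hX : finrank k X + 1 ≤ 2 * d' := by
    have h1 := Submodule.finrank_sup_add_finrank_inf_eq (U.map (LinearMap.mulLeft k y)) U
    have h2 := Submodule.finrank_map_le (LinearMap.mulLeft k y) U
    change finrank k (U.map (LinearMap.mulLeft k y) ⊔ U : Submodule k Ω) + 1 ≤ 2 * d'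
    by_cases hy : y = 0
    · have h3 : U.map (LinearMap.mulLeft k y) = ⊥ := by
        rw [hy, LinearMap.mulLeft_zero_eq_zero, Submodule.map_zero]
      rw [h3, bot_sup_eq]
      omega
    · have h3 : 0 < finrank k (U.map (LinearMap.mulLeft k y) ⊓ U : Submodule k Ω) := by
        rw [Module.finrank_pos_iff_exists_ne_zero]
        refine ⟨⟨y * f0, ⟨f0, hf0, rfl⟩, ?_⟩, ?_⟩
        · have h4 : y * f0 = -g0 := by linear_combination h0
          rw [h4]
          exact U.neg_mem hg0
        · intro h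
          exact mul_ne_zero hy hf00 (congrArg Subtype.val h)
      omega
  have hE : ∀ l, F l * v l ∈ X := by
    intro l
    have h1 : F l * v l = y * -(F l) + -(G l) := by linear_combination hFG l
    rw [h1]
    exact Submodule.add_mem _ ((le_sup_left : U.map (LinearMap.mulLeft k y) ≤ X)
      ⟨-(F l), U.neg_mem (hF l), rfl⟩) ((le_sup_right : U ≤ X) (U.neg_mem (hG l)))
  let Φ : (Fin m → k) →ₗ[k] X := Fintype.linearCombination k (fun l => (⟨_, hE l⟩ : X))
  have hΦ := Φ.finrank_range_add_finrank_ker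
  have hΦr : finrank k (LinearMap.range Φ) ≤ finrank k X := Submodule.finrank_le _
  rw [Module.finrank_fin_fun] at hΦ
  -- the multiplication map
  let μ : (Fin m → U) →ₗ[k] Ω := ∑ l : Fin m,
    (LinearMap.mulRight k (v l)).comp (U.subtype.comp (LinearMap.proj l))
  have hμ : ∀ w, μ w = ∑ l, (w l : Ω) * v l := by
    intro w
    simp only [μ, LinearMap.sum_apply]
    rfl
  have hμr := μ.finrank_range_add_finrank_ker
  rw [Module.finrank_pi_fintype, Finset.sum_const, Finset.card_univ, Fintype.card_fin,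
    smul_eq_mul, ← hd'] at hμr
  -- the kernel
  let Ψ : (Fin m → k) →ₗ[k] (Fin m → U) := LinearMap.pi fun l =>
    (LinearMap.toSpanSingleton k U ⟨F l, hF l⟩).comp (LinearMap.proj l)
  have hΨ : ∀ γ l, Ψ γ l = γ l • (⟨F l, hF l⟩ : U) := fun γ l => rfl
  have hΨinj : Function.Injective Ψ := by
    intro γ γ' h
    funext l
    have h1 := congrFun h l
    rw [hΨ, hΨ] at h1
    have h2 : (⟨F l, hF l⟩ : U) ≠ 0 := fun h => hF0 l (congrArg Subtype.val h)
    exact smul_left_injective k h2 h1
  have hker : (LinearMap.ker Φ).map Ψ ≤ LinearMap.ker μ := by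
    rintro w ⟨γ, hγ, rfl⟩
    rw [SetLike.mem_coe, LinearMap.mem_ker] at hγ
    rw [LinearMap.mem_ker, hμ]
    have h1 : ((Φ γ : X) : Ω) = 0 := by rw [hγ]; rfl
    rw [← h1]
    simp only [Φ, Fintype.linearCombination_apply]
    rw [AddSubmonoidClass.coe_finsetSum]
    apply Finset.sum_congr rfl
    intro l _
    rw [hΨ]
    simp only [Submodule.coe_smul, smul_mul_assoc]
  have hkerr : finrank k (LinearMap.ker Φ) ≤ finrank k (LinearMap.ker μ) := by
    have h1 := Submodule.finrank_mono hker
    rwa [← (Submodule.equivMapOfInjective Ψ hΨinj _).finrank_eq] at h1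
  -- the rank inequality
  let b := Module.finBasis k U
  have hSR' := hSR m (fun j => j) (fun i j hij => hij) d' (fun i => (b i : Ω)) (by
    have := b.linearIndependent
    exact this.map' U.subtype (Submodule.ker_subtype U))
  have hle : Submodule.span k (Set.range (fun ij : Fin d' × Fin m =>
      (b ij.1 : Ω) * v ij.2)) ≤ LinearMap.range μ := by
    rw [Submodule.span_le]
    rintro x ⟨ij, rfl⟩
    refine ⟨Pi.single ij.2 (b ij.1), ?_⟩
    rw [hμ, Finset.sum_eq_single ij.2]
    · rw [Pi.single_eq_same]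
    · intro l _ hne
      rw [Pi.single_eq_of_ne hne, Submodule.coe_zero, zero_mul]
    · intro h
      exact absurd (Finset.mem_univ _) h
  have h5 := Submodule.finrank_mono hle
  have h6 : d' * (m + 1) ≤ finrank k (LinearMap.range μ) + d' * d' :=
    hSR'.trans (Nat.add_le_add_right h5 _)
  have h7 : d' * (m + 1) = m * d' + d' := by ring
  have h8 : d' * d' + d' ≤ N ^ 2 + N := by nlinarith
  omega

theorem finB_one83 (N h m : ℕ) (hN : 1 ≤ N) (hm : N ^ 2 + N ≤ h * m) : FinB83 N 1 h m := by
  intro k Ω _ _ _ _ _ f y v hSR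
  have hhm : 0 < h * m := by nlinarith
  have hh : 0 < h := Nat.pos_of_mul_pos_right hhm
  have hm0 : 0 < m := Nat.pos_of_mul_pos_left hhm
  by_contra hcon
  push Not at hcon
  have h1 := one_count83 N (h * m) f y
    (fun l => v (finProdFinEquiv.symm l).1 (finProdFinEquiv.symm l).2) (by
      intro n g hg d u hu
      exact hSR n (fun j => finProdFinEquiv.symm (g j)) (fun i j hij =>
        hg (finProdFinEquiv.symm.injective hij)) d u hu) (by
      have h2 := hcon ∅ (fun _ => ⟨0, hm0⟩)
      rwa [Finset.sum_empty, add_zero] at h2) (by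
      intro l
      have h2 := hcon {(finProdFinEquiv.symm l).1} (fun _ => (finProdFinEquiv.symm l).2)
      rwa [Finset.sum_singleton] at h2)
  omega

end Pool.Agent.Lib.MP_c50dba_nt.BX
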