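import Pool.Agent.Lib.MP_c50dba_nt.GC.Step83

set_option autoImplicit false

/-!
BOXES project (chair: helper83): statements of all modules, as Props.
If the conjugates of the logarithm of an algebraic number over a p-adic field `K` contain a sum of
`h` large simplices, then it has degree at least `2 ^ h` over every field generated over the
algebraic numbers by few elements of `K`, up to bounded complexity.
-/

namespace Pool.Agent.Lib.MP_c50dba_nt.BX

open Module

/-- `z` is a root of a nonzero polynomial of degree at most `d` with coefficients in `U`. -/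
def Cx {k Ω : Type} [Field k] [Field Ω] [Algebra k Ω] (U : Submodule k Ω) (d : ℕ) (z : Ω) : Prop :=
  ∃ P : Polynomial Ω, P ≠ 0 ∧ P.natDegree ≤ d ∧ (∀ j, P.coeff j ∈ U) ∧ P.eval z = 0

/-- The rank inequality for the family `v`. -/
def SR (k : Type) {Ω ι : Type} [Field k] [Field Ω] [Algebra k Ω] (v : ι → Ω) : Prop :=
  ∀ (n : ℕ) (g : Fin n → ι), Function.Injective g → ∀ (d : ℕ) (u : Fin d → Ω),
    LinearIndependent k u →
    d * (n + 1) ≤ finrank k (Submodule.span k
      (Set.range (fun ij : Fin d × Fin n => u ij.1 * v (g ij.2)))) + d * d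

/-- B1. Sums and products. -/
def StCl : Prop :=
  ∀ (k Ω : Type) [Field k] [Field Ω] [Algebra k Ω] (U : Submodule k Ω) (d : ℕ) (z w : Ω),
    Cx U d z → Cx U d w → Cx (U ^ (2 * (d * d))) (d * d) (z + w) ∧
      Cx (U ^ (2 * (d * d))) (d * d) (z * w)

/-- B2. Elements of bounded complexity of a finitely generated field are quotients of elements of
a finite dimensional space. -/
def StQuot : Prop :=
  ∀ (k Ω : Type) [Field k] [CharZero k] [Field Ω] [IsAlgClosed Ω] [Algebra k Ω]
    (M : IntermediateField k Ω), M.FG → ∀ (U : Submodule k Ω) [FiniteDimensional k U],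
    (∀ u ∈ U, u ∈ M) → ∀ d : ℕ, ∃ W : Submodule k Ω, FiniteDimensional k W ∧
      ∀ z ∈ M, Cx U d z → ∃ A ∈ W, ∃ B ∈ W, B ≠ 0 ∧ z * B = A

/-- B3. A finite extension contains only finitely many of the `v l`. -/
def StStar : Prop :=
  ∀ (k Ω : Type) [Field k] [CharZero k] [Field Ω] [IsAlgClosed Ω] [Algebra k Ω]
    (U : Submodule k Ω) [FiniteDimensional k U] (d : ℕ) (y : Ω) (v : ℕ → Ω),
    Cx U d y → (∀ l, Cx U d (y + v l)) → SR k v →
    ∀ M : IntermediateField (IntermediateField.adjoin k (U : Set Ω)) Ω,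
      FiniteDimensional (IntermediateField.adjoin k (U : Set Ω)) M → {l | v l ∈ M}.Finite

/-- B4. Galois part. -/
def StGal : Prop :=
  ∀ (F Ω : Type) [Field F] [CharZero F] [Field Ω] [IsAlgClosed Ω] [Algebra F Ω] (h D : ℕ) (y : Ω)
    (v : Fin h → ℕ → Ω), IsAlgebraic F y →
    (∀ i l, IsAlgebraic F (v i l) ∧ (minpoly F (v i l)).natDegree ≤ D) →
    (∀ i, ∀ M : IntermediateField F Ω, FiniteDimensional F M → {l | v i l ∈ M}.Finite) →
    ∃ c : Fin h → ℕ, 2 ^ h ≤ (minpoly F (y + ∑ i, v i (c i))).natDegree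

/-- B5. The infinite form. -/
def StInfB : Prop :=
  ∀ (k Ω : Type) [Field k] [CharZero k] [Field Ω] [IsAlgClosed Ω] [Algebra k Ω]
    (U : Submodule k Ω) [FiniteDimensional k U] (d h : ℕ) (y : Ω) (v : Fin h → ℕ → Ω),
    (∀ (S : Finset (Fin h)) (c : Fin h → ℕ), Cx U d (y + ∑ i ∈ S, v i (c i))) →
    SR k (fun x : Fin h × ℕ => v x.1 x.2) → 2 ^ h ≤ d

/-- B6. The finite form (from B5 with an ultraproduct). -/
def StFinB : Prop :=
  ∀ (N d h : ℕ), d < 2 ^ h → ∃ m : ℕ, ∀ (k Ω : Type) [Field k] [CharZero k] [Field Ω]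
    [IsAlgClosed Ω] [Algebra k Ω] (f : Fin N → Ω) (y : Ω) (v : Fin h → Fin m → Ω),
    SR k (fun x : Fin h × Fin m => v x.1 x.2) →
    ∃ (S : Finset (Fin h)) (c : Fin h → Fin m),
      ¬ Cx (Submodule.span k (Set.range f)) d (y + ∑ i ∈ S, v i (c i))

end Pool.Agent.Lib.MP_c50dba_nt.BX
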