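import Pool.Agent.Lib.MP_c50dba_nt.BX.Stmts

set_option autoImplicit false

/-!
BOXES project, phase 2 (chair: helper83): arrays with zero line sums. Statements as Props.
The points of a simplex are replaced by the entries of an array indexed by
`[q_1] x ... x [q_r]` all of whose line sums are zero: then the degree is larger.
-/

namespace Pool.Agent.Lib.MP_c50dba_nt.BX

open Module

/-- The index set `[q_1] x ... x [q_r]`. -/
abbrev Ix {r : ℕ} (q : Fin r → ℕ) : Type := (s : Fin r) → Fin (q s)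

/-- All sums over lines parallel to an axis are zero. -/
def ZL {r : ℕ} (q : Fin r → ℕ) {Z : Type} [AddCommMonoid Z] (v : Ix q → Z) : Prop :=
  ∀ (s : Fin r) (t : Ix q), ∑ b : Fin (q s), v (Function.update t s b) = 0

/-- The indices whose coordinates are not the last ones. -/
def bas {r : ℕ} (q : Fin r → ℕ) (t : Ix (fun s => q s - 1)) : Ix q :=
  fun s => Fin.castLE (Nat.sub_le (q s) 1) (t s)

/-- The family `1, e_1, ..., e_a`. -/
def wone {κ Ω : Type} [One Ω] (e : κ → Ω) : Option κ → Ω := fun o => o.elim 1 e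

/-- V0. Bounded coefficients of a linear dependence. -/
def StRel : Prop :=
  ∀ (k Ω : Type) [Field k] [CharZero k] [Field Ω] [IsAlgClosed Ω] [Algebra k Ω]
    (U : Submodule k Ω) [FiniteDimensional k U] (d : ℕ) (κ : Type) [Fintype κ],
    ∃ (U' : Submodule k Ω) (d' : ℕ), FiniteDimensional k U' ∧
      (∀ M : IntermediateField k Ω, (∀ u ∈ U, u ∈ M) → ∀ u ∈ U', u ∈ M) ∧
      ∀ M : IntermediateField k Ω, (∀ u ∈ U, u ∈ M) → ∀ z : κ → Ω, (∀ i, Cx U d (z i)) →
        ¬ LinearIndependent M z → ∃ β : κ → Ω, (∀ i, β i ∈ M ∧ Cx U' d' (β i)) ∧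
          ∑ i, β i * z i = 0 ∧ ∃ i, β i ≠ 0

/-- V1. For almost all `l` the numbers `1, e_l` are linearly independent over `M`. -/
def StInd : Prop :=
  ∀ (k Ω : Type) [Field k] [CharZero k] [Field Ω] [IsAlgClosed Ω] [Algebra k Ω]
    (U : Submodule k Ω) [FiniteDimensional k U] (d : ℕ) (κ : Type) [Fintype κ] (e : ℕ → κ → Ω),
    (∀ l s, Cx U d (e l s)) → SR k (fun x : ℕ × κ => e x.1 x.2) →
    ∀ M : IntermediateField (IntermediateField.adjoin k (U : Set Ω)) Ω,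
      FiniteDimensional (IntermediateField.adjoin k (U : Set Ω)) M →
      {l | ¬ LinearIndependent M (wone (e l))}.Finite

/-- V2. Isotypic decomposition of a finite Galois extension. -/
def StIso : Prop :=
  ∀ (M E : Type) [Field M] [CharZero M] [Field E] [Algebra M E] [FiniteDimensional M E]
    [IsGalois M E], ∃ (P : Type) (_ : Fintype P) (_ : DecidableEq P) (D : P → ℕ)
    (π : P → E →ₗ[M] E), (∀ ρ, finrank M (LinearMap.range (π ρ)) ≤ D ρ ^ 2) ∧
      (∀ z, (∀ ρ, π ρ z = 0) → ∃ c : M, algebraMap M E c = z) ∧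
      ∀ (z : E) (T : Finset P), (∀ ρ ∈ T, π ρ z ≠ 0) →
        (∑ ρ ∈ T, D ρ) + 1 ≤ (minpoly M z).natDegree

open Classical in
/-- V3. Arrays with zero line sums: rank and number of nonzero entries. -/
def StAr : Prop :=
  ∀ (M Z : Type) [Field M] [AddCommGroup Z] [Module M Z] (r : ℕ) (q : Fin r → ℕ) (z : Ix q → Z),
    ZL q z → 4 ^ r * finrank M (Submodule.span M (Set.range z)) ≤
      (Finset.univ.filter (fun t => z t ≠ 0)).card ^ 2

/-- V4. An entry of large degree. -/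
def StDeg : Prop :=
  ∀ (M Ω : Type) [Field M] [CharZero M] [Field Ω] [IsAlgClosed Ω] [Algebra M Ω] (r : ℕ)
    (q : Fin r → ℕ) (v : Ix q → Ω), ZL q v → (∀ t, IsAlgebraic M (v t)) →
    LinearIndependent M (wone (fun t => v (bas q t))) →
    ∀ D : ℕ, (D - 1) * ∏ s, q s < 2 ^ r * ∏ s, (q s - 1) →
      ∃ t, D + 1 ≤ (minpoly M (v t)).natDegree

/-- V5. Galois part. -/
def StGalV : Prop :=
  ∀ (F Ω : Type) [Field F] [CharZero F] [Field Ω] [IsAlgClosed Ω] [Algebra F Ω] (h B : ℕ)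
    (r : Fin h → ℕ) (q : (i : Fin h) → Fin (r i) → ℕ) (D : Fin h → ℕ)
    (y : ((i : Fin h) → Ix (q i)) → Ω) (v : (i : Fin h) → ℕ → Ix (q i) → Ω),
    (∀ t, IsAlgebraic F (y t)) →
    (∀ i l t, IsAlgebraic F (v i l t) ∧ (minpoly F (v i l t)).natDegree ≤ B) →
    (∀ i l, ZL (q i) (v i l)) →
    (∀ i, (D i - 1) * ∏ s, q i s < 2 ^ r i * ∏ s, (q i s - 1)) →
    (∀ i, ∀ M : IntermediateField F Ω, FiniteDimensional F M →
      {l | ¬ LinearIndependent M (wone (fun t => v i l (bas (q i) t)))}.Finite) →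
    ∃ (c : Fin h → ℕ) (t : (i : Fin h) → Ix (q i)),
      ∏ i, (D i + 1) ≤ (minpoly F (y t + ∑ i, v i (c i) (t i))).natDegree

/-- V6. The infinite form. -/
def StInfV : Prop :=
  ∀ (k Ω : Type) [Field k] [CharZero k] [Field Ω] [IsAlgClosed Ω] [Algebra k Ω]
    (U : Submodule k Ω) [FiniteDimensional k U] (d h : ℕ)
    (r : Fin h → ℕ) (q : (i : Fin h) → Fin (r i) → ℕ) (D : Fin h → ℕ)
    (y : ((i : Fin h) → Ix (q i)) → Ω) (v : (i : Fin h) → ℕ → Ix (q i) → Ω),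
    (∀ (S : Finset (Fin h)) (c : Fin h → ℕ) (t : (i : Fin h) → Ix (q i)),
      Cx U d (y t + ∑ i ∈ S, v i (c i) (t i))) →
    (∀ i l, ZL (q i) (v i l)) →
    (∀ i, (D i - 1) * ∏ s, q i s < 2 ^ r i * ∏ s, (q i s - 1)) →
    (∀ i, SR k (fun x : ℕ × Ix (fun s => q i s - 1) => v i x.1 (bas (q i) x.2))) →
    ∏ i, (D i + 1) ≤ d

/-- V7. The finite form (ultraproduct). -/
def StFinV : Prop :=
  ∀ (N d h : ℕ) (r : Fin h → ℕ) (q : (i : Fin h) → Fin (r i) → ℕ) (D : Fin h → ℕ),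
    (∀ i, (D i - 1) * ∏ s, q i s < 2 ^ r i * ∏ s, (q i s - 1)) → d < ∏ i, (D i + 1) →
    ∃ m : ℕ, ∀ (k Ω : Type) [Field k] [CharZero k] [Field Ω]
    [IsAlgClosed Ω] [Algebra k Ω] (f : Fin N → Ω)
    (y : ((i : Fin h) → Ix (q i)) → Ω) (v : (i : Fin h) → Fin m → Ix (q i) → Ω),
    (∀ i l, ZL (q i) (v i l)) →
    (∀ i, SR k (fun x : Fin m × Ix (fun s => q i s - 1) => v i x.1 (bas (q i) x.2))) →
    ∃ (S : Finset (Fin h)) (c : Fin h → Fin m) (t : (i : Fin h) → Ix (q i)),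
      ¬ Cx (Submodule.span k (Set.range f)) d (y t + ∑ i ∈ S, v i (c i) (t i))

end Pool.Agent.Lib.MP_c50dba_nt.BX
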